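import Mathlib

/-!
# Theorem V with Dickman's function, DA: Dickman's function
-/

set_option autoImplicit false

noncomputable section

namespace BG

/-- `ρ` is Dickman's function: continuous, `1` on `(-∞, 1]`, and `u ρ'(u) = - ρ(u - 1)` for `u > 1`
(in integrated form) -/
def IsDickman (ρ : ℝ → ℝ) : Prop :=
  Continuous ρ ∧ (∀ u : ℝ, u ≤ 1 → ρ u = 1) ∧
    ∀ u : ℝ, 1 ≤ u → ρ u = 1 - ∫ t in (1 : ℝ)..u, ρ (t - 1) / t

/-- The approximations. -/
def DA_a : ℕ → ℝ → ℝ
  | 0 => fun _ => 1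
  | (j + 1) => fun u => 1 - ∫ t in (1 : ℝ)..(max u 1), DA_a j (t - 1) / max t 1

theorem DA_succ_def (j : ℕ) (u : ℝ) :
    DA_a (j + 1) u = 1 - ∫ t in (1 : ℝ)..(max u 1), DA_a j (t - 1) / max t 1 := rfl

theorem DA_cont (j : ℕ) : Continuous (DA_a j) := by
  induction j with
  | zero => exact continuous_const
  | succ j ih =>
    have h1 : Continuous fun t : ℝ => DA_a j (t - 1) / max t 1 := by
      refine (ih.comp (continuous_id.sub continuous_const)).div
        (continuous_id.max continuous_const) fun t => ?_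
      have : (1 : ℝ) ≤ max t 1 := le_max_right _ _
      positivity
    have h2 : Continuous fun b : ℝ => ∫ t in (1 : ℝ)..b, DA_a j (t - 1) / max t 1 :=
      intervalIntegral.continuous_primitive (fun a b => h1.intervalIntegrable a b) 1
    exact continuous_const.sub (h2.comp (continuous_id.max continuous_const))

theorem DA_one (j : ℕ) {u : ℝ} (hu : u ≤ 1) : DA_a j u = 1 := by
  cases j with
  | zero => rfl
  | succ j => rw [DA_succ_def, max_eq_right hu, intervalIntegral.integral_same, sub_zero]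

theorem DA_succ (j : ℕ) : ∀ u : ℝ, u ≤ j + 1 → DA_a (j + 1) u = DA_a j u := by
  induction j with
  | zero =>
    intro u hu
    rw [Nat.cast_zero, zero_add] at hu
    rw [DA_one _ hu, DA_one _ hu]
  | succ j ih =>
    intro u hu
    rw [DA_succ_def (j + 1), DA_succ_def j]
    congr 1
    refine intervalIntegral.integral_congr fun t ht => ?_
    rw [Set.uIcc_of_le (le_max_right _ _)] at ht
    have h1 : t ≤ (j : ℝ) + 1 + 1 := by
      refine ht.2.trans (max_le ?_ ?_)
      · push_cast at hu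
        exact hu
      · have : (0 : ℝ) ≤ j := Nat.cast_nonneg j
        linarith
    show DA_a (j + 1) (t - 1) / max t 1 = DA_a j (t - 1) / max t 1
    rw [ih (t - 1) (by linarith)]

theorem DA_le {i j : ℕ} (h : i ≤ j) {u : ℝ} (hu : u ≤ i + 1) : DA_a j u = DA_a i u := by
  induction j, h using Nat.le_induction with
  | base => rfl
  | succ j hj ih =>
    rw [DA_succ j u ?_, ih]
    have : (i : ℝ) ≤ j := Nat.cast_le.2 hj
    linarith

/-- Dickman's function. -/
def DA_rho (u : ℝ) : ℝ := DA_a ⌈u⌉₊ u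

theorem DA_rho_eq {u : ℝ} {j : ℕ} (h : u ≤ j) : DA_rho u = DA_a j u := by
  have h1 : ⌈u⌉₊ ≤ j := Nat.ceil_le.2 h
  refine (DA_le h1 ?_).symm
  have := Nat.le_ceil u
  linarith

/-- PROOF. Define `a : ℕ → ℝ → ℝ` by `a 0 u = 1`, `a (j+1) u = 1 - ∫ t in 1..max u 1, a j (t-1) / max t 1`
(the integrand is continuous everywhere and equal to `a j (t-1) / t` for `t ≥ 1`). By induction every
`a j` is continuous and `a j u = 1` for `u ≤ 1`. By induction on `j`: `a (j+1) u = a j u` for `u ≤ j + 1` (for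
`1 ≤ t ≤ u ≤ j+1` the number `t - 1 ≤ j`). So `a i u = a j u` for `i, j ≥ u - 1`. Put `ρ u = a ⌈u⌉₊ u`. Then
`ρ = a j` on `(-∞, j]`; so `ρ` is continuous (locally equal to a continuous function), and for `u ≥ 1` and
`j = ⌈u⌉₊`: `ρ u = a (j+1) u = 1 - ∫ t in 1..u, a j (t-1)/t = 1 - ∫ t in 1..u, ρ (t-1)/t`. -/
theorem dickman_exists : ∃ ρ : ℝ → ℝ, IsDickman ρ := by
  refine ⟨DA_rho, ?_, ?_, ?_⟩
  · rw [continuous_iff_continuousAt]
    intro u
    have h1 : u < ((⌈u⌉₊ + 1 : ℕ) : ℝ) := by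
      have := Nat.le_ceil u
      push_cast
      linarith
    refine ((DA_cont (⌈u⌉₊ + 1)).continuousAt (x := u)).congr ?_
    filter_upwards [Iio_mem_nhds h1] with v hv
    exact (DA_rho_eq (le_of_lt hv)).symm
  · intro u hu
    rw [DA_rho_eq (j := 1) (by simpa using hu)]
    exact DA_one 1 hu
  · intro u hu
    have h1 : u ≤ (⌈u⌉₊ : ℝ) := Nat.le_ceil u
    have h2 : u ≤ ((⌈u⌉₊ + 1 : ℕ) : ℝ) := by
      push_cast
      linarith
    rw [DA_rho_eq h2, DA_succ_def, max_eq_left hu]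
    congr 1
    refine intervalIntegral.integral_congr fun t ht => ?_
    rw [Set.uIcc_of_le hu] at ht
    show DA_a ⌈u⌉₊ (t - 1) / max t 1 = DA_rho (t - 1) / t
    rw [DA_rho_eq (j := ⌈u⌉₊) (by linarith [ht.2]), max_eq_left ht.1]

end BG
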