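import Pool.Agent.W_d33b62_h36.MM3

/-!
# Theorem V with Dickman's function, DB: a sum over primes is an integral
-/

set_option autoImplicit false

noncomputable section

open Finset Pool.Agent.Wb58c63

namespace BG

theorem DB_intble (f : ℝ → ℝ) (hf : Continuous f) {s t : ℝ} (hs : 1 ≤ s) (hst : s ≤ t) :
    IntervalIntegrable (fun y => f y / y) MeasureTheory.volume s t := by
  apply ContinuousOn.intervalIntegrable
  rw [Set.uIcc_of_le hst]
  exact hf.continuousOn.div continuousOn_id
    (fun y hy => (show (0 : ℝ) < id y from lt_of_lt_of_le one_pos (hs.trans hy.1)).ne')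

theorem DB_int_piece (f : ℝ → ℝ) (hf : Continuous f) {s t e1 : ℝ} (hs : 1 ≤ s) (hst : s ≤ t)
    (h : ∀ y, s ≤ y → y ≤ t → |f y - f s| ≤ e1) :
    |(∫ y in s..t, f y / y) - f s * Real.log (t / s)| ≤ e1 * Real.log (t / s) := by
  have h1 : f s * Real.log (t / s) = ∫ y in s..t, f s * (1 / y) := by
    rw [intervalIntegral.integral_const_mul, integral_one_div_of_pos (by linarith) (by linarith)]
  have hi : IntervalIntegrable (fun y : ℝ => 1 / y) MeasureTheory.volume s t :=
    DB_intble (fun _ => 1) continuous_const hs hst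
  rw [h1, ← intervalIntegral.integral_sub (DB_intble f hf hs hst) (hi.const_mul _)]
  have h2 := intervalIntegral.norm_integral_le_of_norm_le
    (f := fun y => f y / y - f s * (1 / y)) (g := fun y => e1 * (1 / y)) hst
    (Filter.Eventually.of_forall ?_) (hi.const_mul e1)
  · rw [Real.norm_eq_abs, intervalIntegral.integral_const_mul,
      integral_one_div_of_pos (by linarith) (by linarith)] at h2
    exact h2
  · intro y hy
    have hy0 : 0 < 1 / y := one_div_pos.2 (by linarith [hy.1])
    have h3 : f y / y - f s * (1 / y) = (f y - f s) * (1 / y) := by ring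
    rw [Real.norm_eq_abs, h3, abs_mul, abs_of_pos hy0]
    exact mul_le_mul_of_nonneg_right (h y hy.1.le hy.2) hy0.le

theorem DB_mem {x s t : ℝ} (hx : 2 ≤ x) (hs : 1 ≤ s) (hst : s ≤ t) {p : ℕ}
    (hp : p ∈ PI (x ^ (1 / t)) (x ^ (1 / s))) :
    s ≤ Real.log x / Real.log p ∧ Real.log x / Real.log p ≤ t := by
  rw [mem_PI] at hp
  obtain ⟨hpp, h1, h2⟩ := hp
  have hp2 : (2 : ℝ) ≤ p := by exact_mod_cast hpp.two_le
  have hlp : 0 < Real.log p := Real.log_pos (by linarith)
  have hs0 : 0 < s := by linarith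
  have ht0 : 0 < t := by linarith
  have hx0 : 0 < x := by linarith
  constructor
  · have h3 := Real.log_le_log (by linarith) h2.le
    rw [Real.log_rpow hx0] at h3
    rw [le_div_iff₀ hlp]
    calc s * Real.log p ≤ s * (1 / s * Real.log x) := mul_le_mul_of_nonneg_left h3 hs0.le
      _ = Real.log x := by field_simp
  · have h3 := Real.log_le_log (Real.rpow_pos_of_pos hx0 _) h1
    rw [Real.log_rpow hx0] at h3
    rw [div_le_iff₀ hlp]
    calc Real.log x = t * (1 / t * Real.log x) := by field_simp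
      _ ≤ t * Real.log p := mul_le_mul_of_nonneg_left h3 ht0.le

theorem DB_rpow {x s t : ℝ} (hx : 2 ≤ x) (hs : 1 ≤ s) (hst : s ≤ t) :
    x ^ (1 / t) ≤ x ^ (1 / s) :=
  Real.rpow_le_rpow_of_exponent_le (by linarith) (one_div_le_one_div_of_le (by linarith) hst)

theorem DB_piece (f : ℝ → ℝ) (hf : Continuous f) {C : ℝ}
    (hC : ∀ u z : ℝ, 2 ≤ u → u ≤ z →
      |∑ p ∈ PI u z, (1 : ℝ) / p - Real.log (Real.log z / Real.log u)| ≤ C / Real.log u)
    (hC0 : 0 < C) {x s t b S e1 : ℝ} (hx : 2 ≤ x) (hs : 1 ≤ s) (hst : s ≤ t) (htb : t ≤ b)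
    (h2 : 2 ≤ x ^ (1 / t)) (h : ∀ y, s ≤ y → y ≤ t → |f y - f s| ≤ e1) (hS : |f s| ≤ S) :
    |∑ p ∈ PI (x ^ (1 / t)) (x ^ (1 / s)), (1 : ℝ) / p * f (Real.log x / Real.log p) -
      ∫ y in s..t, f y / y| ≤ 2 * e1 * Real.log (t / s) + (S + e1) * (C * b / Real.log x) := by
  have hx0 : 0 < x := by linarith
  have hlx : 0 < Real.log x := Real.log_pos (by linarith)
  have hs0 : 0 < s := by linarith
  have ht0 : 0 < t := by linarith
  have he1 : 0 ≤ e1 := (abs_nonneg _).trans (h s le_rfl hst)
  set M := ∑ p ∈ PI (x ^ (1 / t)) (x ^ (1 / s)), (1 : ℝ) / p with hM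
  have hm : |M - Real.log (t / s)| ≤ C * b / Real.log x := by
    have h3 := hC _ _ h2 (DB_rpow hx hs hst)
    rw [Real.log_rpow hx0, Real.log_rpow hx0] at h3
    have h4 : 1 / s * Real.log x / (1 / t * Real.log x) = t / s := by field_simp
    rw [h4] at h3
    refine h3.trans ?_
    have h5 : C / (1 / t * Real.log x) = C * t / Real.log x := by field_simp
    rw [h5]
    exact div_le_div_of_nonneg_right (mul_le_mul_of_nonneg_left htb hC0.le) hlx.le
  have hsum : |∑ p ∈ PI (x ^ (1 / t)) (x ^ (1 / s)), (1 : ℝ) / p * f (Real.log x / Real.log p) -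
      f s * M| ≤ e1 * M := by
    rw [hM, Finset.mul_sum, ← Finset.sum_sub_distrib, Finset.mul_sum]
    refine (Finset.abs_sum_le_sum_abs _ _).trans (Finset.sum_le_sum fun p hp => ?_)
    obtain ⟨h3, h4⟩ := DB_mem hx hs hst hp
    have h5 : (1 : ℝ) / p * f (Real.log x / Real.log p) - f s * (1 / p) =
        (f (Real.log x / Real.log p) - f s) * (1 / p) := by ring
    have h6 : (0 : ℝ) ≤ 1 / p := by positivity
    rw [h5, abs_mul, abs_of_nonneg h6]
    exact mul_le_mul_of_nonneg_right (h _ h3 h4) h6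
  have hint := DB_int_piece f hf hs hst h
  have hfm : |f s * M - f s * Real.log (t / s)| ≤ S * (C * b / Real.log x) := by
    rw [← mul_sub, abs_mul]
    exact mul_le_mul hS hm (abs_nonneg _) ((abs_nonneg _).trans hS)
  have hMle : M ≤ Real.log (t / s) + C * b / Real.log x := by linarith [(abs_le.1 hm).2]
  have heM : e1 * M ≤ e1 * Real.log (t / s) + e1 * (C * b / Real.log x) := by
    rw [← mul_add]
    exact mul_le_mul_of_nonneg_left hMle he1
  have g1 := abs_le.1 hsum
  have g2 := abs_le.1 hint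
  have g3 := abs_le.1 hfm
  rw [add_mul]
  rw [abs_le]
  constructor <;> linarith [g1.1, g1.2, g2.1, g2.2, g3.1, g3.2]

/-- Uniform version of `∑_{x^(1/u) ≤ p < x^(1/a)} f(log x / log p) / p → ∫ t in a..u, f t / t`.

PROOF. `Pool.Agent.Wd33b62.mertens_all`: `∑_{p ∈ PI v w} 1/p = log (log w / log v) + O(1 / log v)` for `2 ≤ v ≤ w`.
Let `S ≥ |f|` on `[a, b]`, and `f` uniformly continuous on `[a, b]`: choose `J ≥ 1` with
`|f t - f t'| ≤ ε₁` for `|t - t'| ≤ (b - a)/J`. For `u ∈ [a, b]` put `t_i = a + i (u - a)/J`, `0 ≤ i ≤ J`. `PI (x^(1/u)) (x^(1/a))`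
is the disjoint union of the sets `PI (x^(1/t_(i+1))) (x^(1/t_i))` (`i < J`). For `p` in the `i`-th set,
`log x / log p ∈ [t_i, t_(i+1)]`, so its part of the sum differs from `f t_i ∑ 1/p` by at most `ε₁ ∑ 1/p`, and
`∑ 1/p` differs from `log (t_(i+1)/t_i)` by at most `C b / log x` (`log x^(1/t) = log x / t ≥ log x / b`). The
integral over `[t_i, t_(i+1)]` differs from `f t_i log (t_(i+1)/t_i)` by at most `ε₁ log (t_(i+1)/t_i)`
(`∫ 1/t = log`). Total error `≤ 2 ε₁ log (b/a) + J (S + ε₁) C b / log x`. Choose `ε₁` with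
`2 ε₁ log (b/a) ≤ ε/2` and `x₀` large (also `x₀^(1/b) ≥ 2`). -/
theorem prime_sum_integral (f : ℝ → ℝ) (hf : Continuous f) (a b : ℝ) (ha : 1 ≤ a) (hab : a ≤ b)
    (ε : ℝ) (hε : 0 < ε) : ∃ x₀ : ℝ, 2 ≤ x₀ ∧ ∀ x : ℝ, x₀ ≤ x → ∀ u : ℝ, a ≤ u → u ≤ b →
    |∑ p ∈ PI (x ^ (1 / u)) (x ^ (1 / a)), (1 : ℝ) / p * f (Real.log x / Real.log p) -
      ∫ t in a..u, f t / t| ≤ ε := by
  obtain ⟨C, hC0, hC⟩ := Pool.Agent.Wd33b62.mertens_all
  obtain ⟨S, hS⟩ : ∃ S : ℝ, ∀ y ∈ Set.Icc a b, ‖f y‖ ≤ S :=
    isCompact_Icc.exists_bound_of_continuousOn hf.continuousOn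
  have hS0 : 0 ≤ S := (norm_nonneg _).trans (hS a ⟨le_rfl, hab⟩)
  have hlb : 0 ≤ Real.log (b / a) := Real.log_nonneg ((one_le_div (by linarith)).2 hab)
  set e1 := ε / (4 * (Real.log (b / a) + 1)) with he1
  have he10 : 0 < e1 := by positivity
  have hue : UniformContinuousOn f (Set.Icc a b) :=
    isCompact_Icc.uniformContinuousOn_of_continuous hf.continuousOn
  obtain ⟨d, hd0, hd⟩ := Metric.uniformContinuousOn_iff.1 hue e1 he10
  obtain ⟨J, hJ⟩ := exists_nat_ge ((b - a) / (d / 2))
  have hJ' : b ≤ a + J * (d / 2) := by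
    rw [div_le_iff₀ (by positivity)] at hJ
    linarith
  set L0 := b * Real.log 2 + 2 * (J * ((S + e1) * (C * b))) / ε with hL0
  have hb0 : 0 < b := by linarith
  have hl2 : 0 < Real.log 2 := Real.log_pos (by norm_num)
  have hL01 : b * Real.log 2 ≤ L0 := by
    rw [hL0]
    have : 0 ≤ 2 * (J * ((S + e1) * (C * b))) / ε := by positivity
    linarith
  have hL02 : 2 * (J * ((S + e1) * (C * b))) / ε ≤ L0 := by
    rw [hL0]
    have : 0 ≤ b * Real.log 2 := by positivity
    linarith
  have h2L : (2 : ℝ) ≤ Real.exp L0 := by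
    have h1 : Real.log 2 ≤ L0 := by nlinarith
    calc (2 : ℝ) = Real.exp (Real.log 2) := (Real.exp_log (by norm_num)).symm
      _ ≤ Real.exp L0 := Real.exp_le_exp.2 h1
  refine ⟨Real.exp L0, h2L, fun x hx u hau hub => ?_⟩
  have hx2 : 2 ≤ x := h2L.trans hx
  have hx0 : 0 < x := by linarith
  have hlx : L0 ≤ Real.log x := (Real.le_log_iff_exp_le hx0).2 hx
  have hlx0 : 0 < Real.log x := Real.log_pos (by linarith)
  have h2t : ∀ t : ℝ, 1 ≤ t → t ≤ b → 2 ≤ x ^ (1 / t) := by
    intro t ht htb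
    have h1 : Real.log 2 ≤ 1 / t * Real.log x := by
      have h3 : t * Real.log 2 ≤ Real.log x :=
        (mul_le_mul_of_nonneg_right htb hl2.le).trans (hL01.trans hlx)
      calc Real.log 2 = 1 / t * (t * Real.log 2) := by field_simp
        _ ≤ 1 / t * Real.log x := mul_le_mul_of_nonneg_left h3 (by positivity)
    rw [← Real.log_rpow hx0] at h1
    exact (Real.log_le_log_iff (by norm_num) (Real.rpow_pos_of_pos hx0 _)).1 h1
  have key : ∀ n : ℕ, ∀ v : ℝ, a ≤ v → v ≤ b → v ≤ a + n * (d / 2) →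
      |∑ p ∈ PI (x ^ (1 / v)) (x ^ (1 / a)), (1 : ℝ) / p * f (Real.log x / Real.log p) -
        ∫ t in a..v, f t / t| ≤
      2 * e1 * Real.log (v / a) + n * ((S + e1) * (C * b / Real.log x)) := by
    intro n
    induction n with
    | zero =>
      intro v hav _ hv
      have hv' : v = a := by
        simp at hv
        linarith
      subst hv'
      have h1 : PI (x ^ (1 / v)) (x ^ (1 / v)) = ∅ := by
        apply Finset.eq_empty_of_forall_notMem
        intro p hp
        rw [mem_PI] at hp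
        linarith [hp.2.1, hp.2.2]
      rw [h1, Finset.sum_empty, intervalIntegral.integral_same, sub_zero, abs_zero,
        div_self (by linarith), Real.log_one]
      simp
    | succ n ih =>
      intro v hav hvb hv
      set w := max a (v - d / 2) with hw
      have haw : a ≤ w := le_max_left _ _
      have hwv : w ≤ v := max_le hav (by linarith)
      have hwn : w ≤ a + n * (d / 2) := by
        apply max_le
        · have : 0 ≤ (n : ℝ) * (d / 2) := by positivity
          linarith
        · push_cast at hv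
          linarith
      have hwd : v - w ≤ d / 2 := by
        have := le_max_right a (v - d / 2)
        rw [← hw] at this
        linarith
      have h1 := ih w haw (hwv.trans hvb) hwn
      have h2 := DB_piece f hf hC hC0 hx2 (ha.trans haw) hwv hvb (h2t v (ha.trans hav) hvb)
        (e1 := e1) (S := S) (fun y h3 h4 => by
          have h5 := hd y ⟨haw.trans h3, h4.trans hvb⟩ w ⟨haw, hwv.trans hvb⟩ (by
            rw [Real.dist_eq, abs_of_nonneg (by linarith)]
            linarith)
          rw [Real.dist_eq] at h5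
          exact h5.le) (by
          have h5 := hS w ⟨haw, hwv.trans hvb⟩
          rwa [Real.norm_eq_abs] at h5)
      have hdis : Disjoint (PI (x ^ (1 / v)) (x ^ (1 / w))) (PI (x ^ (1 / w)) (x ^ (1 / a))) := by
        rw [Finset.disjoint_left]
        intro p hp hp'
        rw [mem_PI] at hp hp'
        linarith [hp.2.2, hp'.2.1]
      have hun : PI (x ^ (1 / v)) (x ^ (1 / a)) =
          PI (x ^ (1 / v)) (x ^ (1 / w)) ∪ PI (x ^ (1 / w)) (x ^ (1 / a)) := by
        have r1 := DB_rpow hx2 (ha.trans haw) hwv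
        have r2 := DB_rpow hx2 ha haw
        ext p
        rw [Finset.mem_union, mem_PI, mem_PI, mem_PI]
        constructor
        · rintro ⟨h3, h4, h5⟩
          rcases lt_or_ge (p : ℝ) (x ^ (1 / w)) with h6 | h6
          · exact Or.inl ⟨h3, h4, h6⟩
          · exact Or.inr ⟨h3, h6, h5⟩
        · rintro (⟨h3, h4, h5⟩ | ⟨h3, h4, h5⟩)
          · exact ⟨h3, h4, h5.trans_le r2⟩
          · exact ⟨h3, r1.trans h4, h5⟩
      have hint : ∫ t in a..v, f t / t = (∫ t in a..w, f t / t) + ∫ t in w..v, f t / t :=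
        (intervalIntegral.integral_add_adjacent_intervals (DB_intble f hf ha haw)
          (DB_intble f hf (ha.trans haw) hwv)).symm
      have hlog : Real.log (v / a) = Real.log (w / a) + Real.log (v / w) := by
        rw [← Real.log_mul (div_pos (by linarith) (by linarith)).ne'
          (div_pos (by linarith) (by linarith)).ne']
        congr 1
        have : w ≠ 0 := by linarith
        field_simp
      rw [hun, Finset.sum_union hdis, hint, hlog]
      push_cast
      have g1 := abs_le.1 h1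
      have g2 := abs_le.1 h2
      rw [abs_le]
      constructor <;> linarith [g1.1, g1.2, g2.1, g2.2]
  have hfin := key J u hau hub (hub.trans hJ')
  refine hfin.trans ?_
  have h1 : Real.log (u / a) ≤ Real.log (b / a) :=
    Real.log_le_log (div_pos (by linarith) (by linarith))
      (div_le_div_of_nonneg_right hub (by linarith))
  have h2 : 2 * e1 * Real.log (u / a) ≤ ε / 2 := by
    have h3 : 2 * e1 * Real.log (u / a) ≤ 2 * e1 * (Real.log (b / a) + 1) :=
      mul_le_mul_of_nonneg_left (by linarith) (by positivity)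
    refine h3.trans (le_of_eq ?_)
    rw [he1]
    field_simp
    ring
  have h3 : J * ((S + e1) * (C * b / Real.log x)) ≤ ε / 2 := by
    have h4 : J * ((S + e1) * (C * b / Real.log x)) = J * ((S + e1) * (C * b)) / Real.log x := by
      ring
    rw [h4, div_le_iff₀ hlx0]
    have h5 := (div_le_iff₀ hε).1 (hL02.trans hlx)
    linarith
  linarith

end BG
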