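import Pool.Agent.W_aaa0df_v.VC

/-!
# Theorem V with Dickman's function, DC0: smooth numbers, the Buchstab identity
-/

set_option autoImplicit false

noncomputable section

open Finset Pool.Agent.Wb58c63

namespace BG

open Classical in
/-- the number of integers `1 ≤ n ≤ x` all of whose prime factors are `< y` -/
def Psi (x y : ℝ) : ℕ :=
  ((Icc 1 ⌊x⌋₊).filter (fun n => ∀ p : ℕ, p.Prime → p ∣ n → (p : ℝ) < y)).card

open Classical in
/-- the set counted by `Psi` -/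
def DC0_S (x y : ℝ) : Finset ℕ :=
  (Icc 1 ⌊x⌋₊).filter (fun n => ∀ p : ℕ, p.Prime → p ∣ n → (p : ℝ) < y)

open Classical in
theorem DC0_mem {x y : ℝ} {n : ℕ} : n ∈ DC0_S x y ↔
    (1 ≤ n ∧ n ≤ ⌊x⌋₊) ∧ ∀ p : ℕ, p.Prime → p ∣ n → (p : ℝ) < y := by
  unfold DC0_S
  rw [mem_filter, mem_Icc]

theorem DC0_eq (x y : ℝ) : Psi x y = (DC0_S x y).card := rfl

open Classical in
theorem DC0_union (x y w : ℝ) (hyw : y ≤ w) :
    DC0_S x w = DC0_S x y ∪ (PI y w).biUnion fun p => (DC0_S (x / p) (p + 1)).image (p * ·) := by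
  ext n
  rw [mem_union, DC0_mem, DC0_mem, mem_biUnion]
  constructor
  · rintro ⟨⟨h1, h2⟩, h3⟩
    by_cases hy : ∀ p : ℕ, p.Prime → p ∣ n → (p : ℝ) < y
    · exact Or.inl ⟨⟨h1, h2⟩, hy⟩
    · right
      push Not at hy
      obtain ⟨q, hq, hqn, hyq⟩ := hy
      have hn0 : n ≠ 0 := by omega
      have hne : n.primeFactors.Nonempty := ⟨q, Nat.mem_primeFactors.2 ⟨hq, hqn, hn0⟩⟩
      obtain ⟨p, hp, hmax⟩ := exists_max_image n.primeFactors id hne
      obtain ⟨hpp, hpn, -⟩ := Nat.mem_primeFactors.1 hp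
      have hqp : q ≤ p := hmax q (Nat.mem_primeFactors.2 ⟨hq, hqn, hn0⟩)
      obtain ⟨m, rfl⟩ := hpn
      have hm0 : m ≠ 0 := fun h => hn0 (by rw [h, mul_zero])
      refine ⟨p, mem_PI.2 ⟨hpp, le_trans hyq (by exact_mod_cast hqp), h3 p hpp (dvd_mul_right _ _)⟩, ?_⟩
      rw [mem_image]
      refine ⟨m, DC0_mem.2 ⟨⟨Nat.pos_of_ne_zero hm0, ?_⟩, ?_⟩, rfl⟩
      · rw [Nat.floor_div_natCast, Nat.le_div_iff_mul_le hpp.pos, mul_comm]
        exact h2
      · intro r hr hrm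
        have h4 : r ≤ p := hmax r (Nat.mem_primeFactors.2 ⟨hr, hrm.mul_left p, hn0⟩)
        have h5 : (r : ℝ) ≤ p := by exact_mod_cast h4
        linarith
  · rintro (⟨h1, h2⟩ | ⟨p, hp, hn⟩)
    · exact ⟨h1, fun p hp hpn => lt_of_lt_of_le (h2 p hp hpn) hyw⟩
    · obtain ⟨hpp, hyp, hpw⟩ := mem_PI.1 hp
      rw [mem_image] at hn
      obtain ⟨m, hm, rfl⟩ := hn
      obtain ⟨⟨h1, h2⟩, h3⟩ := DC0_mem.1 hm
      rw [Nat.floor_div_natCast, Nat.le_div_iff_mul_le hpp.pos, mul_comm] at h2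
      refine ⟨⟨Nat.mul_pos hpp.pos h1, h2⟩, fun r hr hrn => ?_⟩
      rcases (hr.dvd_mul).1 hrn with h4 | h4
      · rw [(Nat.prime_dvd_prime_iff_eq hr hpp).1 h4]
        exact hpw
      · have h5 := h3 r hr h4
        have h6 : r ≤ p := by
          have h7 : r < p + 1 := by exact_mod_cast h5
          omega
        have h8 : (r : ℝ) ≤ p := by exact_mod_cast h6
        linarith

open Classical in
theorem DC0_disj (x y w : ℝ) : Disjoint (DC0_S x y)
    ((PI y w).biUnion fun p => (DC0_S (x / p) (p + 1)).image (p * ·)) := by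
  rw [disjoint_left]
  intro n hn hn'
  rw [mem_biUnion] at hn'
  obtain ⟨p, hp, hn'⟩ := hn'
  obtain ⟨hpp, hyp, -⟩ := mem_PI.1 hp
  rw [mem_image] at hn'
  obtain ⟨m, -, rfl⟩ := hn'
  have h1 := (DC0_mem.1 hn).2 p hpp (dvd_mul_right _ _)
  linarith

theorem DC0_le {x : ℝ} {p q m : ℕ} (hp : p.Prime) (hq : q.Prime) {n : ℕ} (hn : p * m = n)
    (h : ∃ m' ∈ DC0_S (x / q) (q + 1), q * m' = n) : p ≤ q := by
  obtain ⟨m', hm', h1⟩ := h
  have h2 : p ∣ q * m' := by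
    rw [h1, ← hn]
    exact dvd_mul_right _ _
  rcases (hp.dvd_mul).1 h2 with h4 | h4
  · rw [(Nat.prime_dvd_prime_iff_eq hp hq).1 h4]
  · have h5 := (DC0_mem.1 hm').2 p hp h4
    have h7 : p < q + 1 := by exact_mod_cast h5
    omega

open Classical in
theorem DC0_pair (x y w : ℝ) : ∀ p ∈ PI y w, ∀ q ∈ PI y w, p ≠ q →
    Disjoint ((DC0_S (x / p) (p + 1)).image (p * ·)) ((DC0_S (x / q) (q + 1)).image (q * ·)) := by
  intro p hp q hq hpq
  rw [disjoint_left]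
  intro n h1 h2
  rw [mem_image] at h1 h2
  have hpp := (mem_PI.1 hp).1
  have hqq := (mem_PI.1 hq).1
  obtain ⟨m, hm, e1⟩ := h1
  obtain ⟨m', hm', e2⟩ := h2
  exact hpq (le_antisymm (DC0_le hpp hqq e1 ⟨m', hm', e2⟩) (DC0_le hqq hpp e2 ⟨m, hm, e1⟩))

/-- BUCHSTAB. PROOF. An `n` counted by `Psi x w` and not by `Psi x y` has its largest prime factor `p` in
`[y, w)`; `n = p m` with `m ≤ x/p` and all prime factors of `m` `≤ p`, i.e. `< p + 1`; `n ↦ (p, m)` is a bijection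
onto the pairs with `p ∈ PI y w` and `m` counted by `Psi (x/p) (p+1)` (`⌊x/p⌋₊ = ⌊x⌋₊ / p`,
`Nat.floor_div_natCast`; for `p > x` both sides have nothing). -/
theorem Psi_split (x y w : ℝ) (hx : 1 ≤ x) (hyw : y ≤ w) :
    (Psi x w : ℝ) = Psi x y + ∑ p ∈ PI y w, (Psi (x / p) (p + 1) : ℝ) := by
  classical
  rw [DC0_eq, DC0_eq, DC0_union x y w hyw, card_union_of_disjoint (DC0_disj x y w),
    card_biUnion (DC0_pair x y w), Nat.cast_add, Nat.cast_sum]
  congr 1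
  refine sum_congr rfl fun p hp => ?_
  rw [DC0_eq, card_image_of_injective]
  exact fun a b h => Nat.eq_of_mul_eq_mul_left (mem_PI.1 hp).1.pos h

end BG
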