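import Pool.Agent.W_aaa0df_v.DA
import Pool.Agent.W_aaa0df_v.DB
import Pool.Agent.W_aaa0df_v.DC0

/-!
# Theorem V with Dickman's function, DC: Dickman theorem on smooth numbers
-/

set_option autoImplicit false

noncomputable section

open Finset Pool.Agent.Wb58c63

namespace BG

theorem DC_Psi_le (x y : ℝ) (hx : 0 ≤ x) : (Psi x y : ℝ) ≤ x := by
  classical
  have h1 : Psi x y ≤ ⌊x⌋₊ := by
    unfold Psi
    refine (card_filter_le _ _).trans ?_
    rw [Nat.card_Icc]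
    omega
  calc (Psi x y : ℝ) ≤ (⌊x⌋₊ : ℝ) := by exact_mod_cast h1
    _ ≤ x := Nat.floor_le hx

theorem DC_base (ρ : ℝ → ℝ) (hρ : IsDickman ρ) (x y : ℝ) (hx : 1 ≤ x) (hy : 2 ≤ y)
    (h : Real.log x ≤ Real.log y) :
    |(Psi x y : ℝ) - ρ (Real.log x / Real.log y) * x| ≤ 2 := by
  classical
  have hly : 0 < Real.log y := Real.log_pos (by linarith)
  have hxy : x ≤ y := (Real.log_le_log_iff (by linarith) (by linarith)).1 h
  rw [hρ.2.1 _ ((div_le_one hly).2 h), one_mul]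
  have h1 := DC_Psi_le x y (by linarith)
  have h2 : ⌊x⌋₊ - 1 ≤ Psi x y := by
    unfold Psi
    have h3 : (Icc 1 (⌊x⌋₊ - 1)).card = ⌊x⌋₊ - 1 := by
      rw [Nat.card_Icc]
      omega
    rw [← h3]
    refine card_le_card fun n hn => ?_
    rw [mem_Icc] at hn
    rw [mem_filter, mem_Icc]
    refine ⟨⟨hn.1, by omega⟩, fun p hp hpn => ?_⟩
    have h4 : p ≤ n := Nat.le_of_dvd hn.1 hpn
    have h5 : (p : ℝ) + 1 ≤ (⌊x⌋₊ : ℝ) := by exact_mod_cast (by omega : p + 1 ≤ ⌊x⌋₊)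
    have h6 := Nat.floor_le (show (0 : ℝ) ≤ x by linarith)
    linarith
  have h3 : (⌊x⌋₊ : ℝ) ≤ (Psi x y : ℝ) + 1 := by
    have : ⌊x⌋₊ ≤ Psi x y + 1 := by omega
    exact_mod_cast this
  have h4 := Nat.lt_floor_add_one x
  rw [abs_le]
  constructor <;> linarith

theorem DC_count (x y w : ℝ) (hx : 4 ≤ x) (hw : w ≤ x) :
    ((PI y w).card : ℝ) ≤ 12 * x / Real.log x := by
  have hN : 2 ≤ ⌊x⌋₊ := Nat.le_floor (by push_cast; linarith)
  have h1 := Pool.Agent.M58.VC_pi ⌊x⌋₊ hN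
  have h2 : (PI y w).card ≤ ((Icc 1 ⌊x⌋₊).filter Nat.Prime).card := by
    refine card_le_card fun p hp => ?_
    obtain ⟨hpp, -, hpw⟩ := mem_PI.1 hp
    rw [mem_filter, mem_Icc]
    exact ⟨⟨hpp.one_le, Nat.le_floor (hpw.le.trans hw)⟩, hpp⟩
  have h2' : ((PI y w).card : ℝ) ≤ (((Icc 1 ⌊x⌋₊).filter Nat.Prime).card : ℝ) := by
    exact_mod_cast h2
  have hNx : (⌊x⌋₊ : ℝ) ≤ x := Nat.floor_le (by linarith)
  have hNx' := Nat.lt_floor_add_one x
  have hs0 : 0 < Real.sqrt x := Real.sqrt_pos.2 (by linarith)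
  have hs2 : Real.sqrt x * Real.sqrt x = x := Real.mul_self_sqrt (by linarith)
  have hs3 : 2 ≤ Real.sqrt x := Real.le_sqrt_of_sq_le (by linarith)
  have hsN : Real.sqrt x ≤ (⌊x⌋₊ : ℝ) := by nlinarith
  have hlx : 0 < Real.log x := Real.log_pos (by linarith)
  have hlN : Real.log x / 2 ≤ Real.log (⌊x⌋₊ : ℝ) := by
    rw [← Real.log_sqrt (by linarith)]
    exact Real.log_le_log hs0 hsN
  have h3 : (⌊x⌋₊ : ℝ) / Real.log (⌊x⌋₊ : ℝ) ≤ x / (Real.log x / 2) :=
    div_le_div₀ (by linarith) hNx (by linarith) hlN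
  have h4 : 12 * x / Real.log x = 6 * (x / (Real.log x / 2)) := by
    field_simp
    ring
  rw [h4]
  linarith

theorem DC_int (ρ : ℝ → ℝ) (hρ : IsDickman ρ) (a u : ℝ) (ha : 1 ≤ a) (hau : a ≤ u) :
    ∫ t in a..u, ρ (t - 1) / t = ρ a - ρ u := by
  have hint : ∀ b c : ℝ, 1 ≤ b → 1 ≤ c →
      IntervalIntegrable (fun t => ρ (t - 1) / t) MeasureTheory.volume b c := by
    intro b c hb hc
    refine ContinuousOn.intervalIntegrable ?_
    refine ContinuousOn.div (hρ.1.comp (continuous_id.sub continuous_const)).continuousOn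
      continuousOn_id fun t ht => ?_
    have h1 : 1 ≤ t := (le_min hb hc).trans ht.1
    show t ≠ 0
    linarith
  have h1 := intervalIntegral.integral_add_adjacent_intervals (hint 1 a le_rfl ha)
    (hint a u ha (ha.trans hau))
  rw [hρ.2.2 a ha, hρ.2.2 u (ha.trans hau), ← h1]
  ring

theorem DC_prime (ρ : ℝ → ℝ) (K : ℕ) (ε₁ C₁ δ : ℝ)
    (ih : ∀ x y : ℝ, 1 ≤ x → 2 ≤ y → Real.log x ≤ K * Real.log y →
      |(Psi x y : ℝ) - ρ (Real.log x / Real.log y) * x| ≤ ε₁ * x + C₁)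
    (hδ : ∀ s t : ℝ, 0 ≤ s → s ≤ K → 0 ≤ t → t ≤ K → |s - t| < δ → |ρ s - ρ t| ≤ ε₁)
    (x y : ℝ) (hy : 2 ≤ y) (h2 : Real.log x ≤ (K + 1) * Real.log y)
    (hyδ : K / y < δ) (p : ℕ) (hyp : y ≤ p) (hpx : (p : ℝ) ≤ x) :
    |(Psi (x / p) (p + 1) : ℝ) - ρ (Real.log x / Real.log p - 1) * (x / p)| ≤
      2 * ε₁ * (x * (1 / p)) + C₁ := by
  have hp2 : (2 : ℝ) ≤ p := hy.trans hyp
  have hp0 : (0 : ℝ) < p := by linarith
  have hx0 : 0 < x := by linarith
  have hlp : 0 < Real.log p := Real.log_pos (by linarith)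
  have hlyp : Real.log y ≤ Real.log p := Real.log_le_log (by linarith) hyp
  have hlpx : Real.log p ≤ Real.log x := Real.log_le_log hp0 hpx
  have hlp1 : Real.log p ≤ Real.log (p + 1) := Real.log_le_log hp0 (by linarith)
  have hlp1' : 1 ≤ Real.log ((p : ℝ) + 1) := by
    rw [Real.le_log_iff_exp_le (by linarith)]
    linarith [Real.exp_one_lt_d9]
  have hK0 : (0 : ℝ) ≤ K := Nat.cast_nonneg K
  have hxp : 1 ≤ x / p := (one_le_div hp0).2 hpx
  have hlxp : Real.log (x / p) = Real.log x - Real.log p := Real.log_div hx0.ne' hp0.ne'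
  have hlb : Real.log (x / p) ≤ K * Real.log p := by
    rw [hlxp]
    have : (K + 1 : ℝ) * Real.log y ≤ (K + 1) * Real.log p :=
      mul_le_mul_of_nonneg_left hlyp (by linarith)
    linarith
  have hlb' : Real.log (x / p) ≤ K * Real.log (p + 1) :=
    hlb.trans (mul_le_mul_of_nonneg_left hlp1 hK0)
  have hl0 : 0 ≤ Real.log (x / p) := Real.log_nonneg hxp
  have e1 := ih (x / p) (p + 1) hxp (by linarith) hlb'
  have hs : Real.log x / Real.log p - 1 = Real.log (x / p) / Real.log p := by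
    rw [hlxp]
    field_simp
  have hs0 : 0 ≤ Real.log (x / p) / Real.log p := div_nonneg hl0 hlp.le
  have hsK : Real.log (x / p) / Real.log p ≤ K := (div_le_iff₀ hlp).2 hlb
  have hv0 : 0 ≤ Real.log (x / p) / Real.log (p + 1) := div_nonneg hl0 (by linarith)
  have hvK : Real.log (x / p) / Real.log (p + 1) ≤ K := (div_le_iff₀ (by linarith)).2 hlb'
  have hvs : Real.log (x / p) / Real.log (p + 1) ≤ Real.log (x / p) / Real.log p :=
    div_le_div_of_nonneg_left hl0 hlp hlp1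
  have hdiff : Real.log (p + 1) - Real.log p ≤ 1 / p := by
    rw [← Real.log_div (by linarith) hp0.ne']
    have h3 : ((p : ℝ) + 1) / p = 1 + 1 / p := by field_simp
    have h4 := Real.log_le_sub_one_of_pos (x := ((p : ℝ) + 1) / p) (by positivity)
    rw [h3] at h4 ⊢
    linarith
  have hsv : Real.log (x / p) / Real.log p - Real.log (x / p) / Real.log (p + 1) ≤ K / y := by
    have h3 : Real.log (x / p) / Real.log p - Real.log (x / p) / Real.log (p + 1) =
        Real.log (x / p) / Real.log p * ((Real.log (p + 1) - Real.log p) / Real.log (p + 1)) := by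
      have h5 : Real.log ((p : ℝ) + 1) ≠ 0 := by linarith
      field_simp
    have h4 : (Real.log (p + 1) - Real.log p) / Real.log (p + 1) ≤ 1 / y := by
      rw [div_le_iff₀ (by linarith)]
      have h6 : (1 : ℝ) / p ≤ 1 / y := one_div_le_one_div_of_le (by linarith) hyp
      have h7 : 0 < 1 / y := by positivity
      have h8 : 1 / y * 1 ≤ 1 / y * Real.log (p + 1) :=
        mul_le_mul_of_nonneg_left hlp1' h7.le
      linarith
    have h5 : 0 ≤ (Real.log (p + 1) - Real.log p) / Real.log (p + 1) :=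
      div_nonneg (by linarith) (by linarith)
    rw [h3]
    calc _ ≤ (K : ℝ) * (1 / y) := mul_le_mul hsK h4 h5 hK0
      _ = K / y := by ring
  have e2 := hδ _ _ hv0 hvK hs0 hsK (by
    rw [abs_sub_comm, abs_of_nonneg (by linarith)]
    linarith)
  have hxp0 : 0 < x / p := by positivity
  have e3 : |ρ (Real.log (x / p) / Real.log (p + 1)) * (x / p) -
      ρ (Real.log (x / p) / Real.log p) * (x / p)| ≤ ε₁ * (x / p) := by
    rw [← sub_mul, abs_mul, abs_of_pos hxp0]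
    exact mul_le_mul_of_nonneg_right e2 hxp0.le
  have e4 : x * (1 / (p : ℝ)) = x / p := by ring
  rw [hs, e4]
  rw [abs_le] at e1 e3 ⊢
  constructor <;> linarith [e1.1, e1.2, e3.1, e3.2]

theorem DC_step (ρ : ℝ → ℝ) (hρ : IsDickman ρ) (K : ℕ) (hK : 1 ≤ K) (ε₁ C₁ δ : ℝ)
    (ih : ∀ x y : ℝ, 1 ≤ x → 2 ≤ y → Real.log x ≤ K * Real.log y →
      |(Psi x y : ℝ) - ρ (Real.log x / Real.log y) * x| ≤ ε₁ * x + C₁) (hε₁ : 0 < ε₁)
    (hδ : ∀ s t : ℝ, 0 ≤ s → s ≤ K → 0 ≤ t → t ≤ K → |s - t| < δ → |ρ s - ρ t| ≤ ε₁)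
    (x y : ℝ) (hx : 4 ≤ x) (hy : 2 ≤ y) (h1 : K * Real.log y < Real.log x)
    (h2 : Real.log x ≤ (K + 1) * Real.log y) (hyδ : K / y < δ)
    (hM : ∑ p ∈ PI y (x ^ (1 / (K : ℝ))), (1 : ℝ) / p ≤ 2)
    (hcard : C₁ * ((PI y (x ^ (1 / (K : ℝ)))).card : ℝ) ≤ ε₁ * x)
    (hsum : |∑ p ∈ PI (x ^ (1 / (Real.log x / Real.log y))) (x ^ (1 / (K : ℝ))),
      (1 : ℝ) / p * ρ (Real.log x / Real.log p - 1) -
        ∫ t in (K : ℝ)..(Real.log x / Real.log y), ρ (t - 1) / t| ≤ ε₁) :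
    |(Psi x y : ℝ) - ρ (Real.log x / Real.log y) * x| ≤ 7 * ε₁ * x + C₁ := by
  have hx0 : 0 < x := by linarith
  have hK1 : (1 : ℝ) ≤ K := by exact_mod_cast hK
  have hK0 : (0 : ℝ) < K := by linarith
  have hlx : 0 < Real.log x := Real.log_pos (by linarith)
  have hly : 0 < Real.log y := Real.log_pos (by linarith)
  have hlw : Real.log (x ^ (1 / (K : ℝ))) = Real.log x / K := by
    rw [Real.log_rpow hx0]
    ring
  have hw0 : 0 < x ^ (1 / (K : ℝ)) := Real.rpow_pos_of_pos hx0 _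
  have hyw : y ≤ x ^ (1 / (K : ℝ)) := by
    rw [← Real.log_le_log_iff (by linarith) hw0, hlw, le_div_iff₀ hK0]
    linarith
  have hwx : x ^ (1 / (K : ℝ)) ≤ x := by
    rw [← Real.log_le_log_iff hw0 hx0, hlw]
    exact div_le_self hlx.le hK1
  have hyu : x ^ (1 / (Real.log x / Real.log y)) = y := by
    rw [Real.rpow_def_of_pos hx0]
    have h3 : Real.log x * (1 / (Real.log x / Real.log y)) = Real.log y := by
      field_simp
    rw [h3, Real.exp_log (by linarith)]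
  rw [hyu] at hsum
  have hKu : (K : ℝ) ≤ Real.log x / Real.log y := by
    rw [le_div_iff₀ hly]
    exact h1.le
  rw [DC_int ρ hρ K _ hK1 hKu] at hsum
  have hsplit := Psi_split x y (x ^ (1 / (K : ℝ))) (by linarith) hyw
  have e1 := ih x (x ^ (1 / (K : ℝ))) (by linarith) (hy.trans hyw) (by
    rw [hlw, mul_div_cancel₀ _ hK0.ne'])
  have hK' : Real.log x / Real.log (x ^ (1 / (K : ℝ))) = K := by
    rw [hlw]
    field_simp
  rw [hK'] at e1
  have e2 : |∑ p ∈ PI y (x ^ (1 / (K : ℝ))), (Psi (x / p) (p + 1) : ℝ) -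
      x * ∑ p ∈ PI y (x ^ (1 / (K : ℝ))), (1 : ℝ) / p * ρ (Real.log x / Real.log p - 1)| ≤
      5 * ε₁ * x := by
    rw [Finset.mul_sum, ← Finset.sum_sub_distrib]
    refine (Finset.abs_sum_le_sum_abs _ _).trans ?_
    have h3 : ∀ p ∈ PI y (x ^ (1 / (K : ℝ))), |(Psi (x / p) (p + 1) : ℝ) -
        x * ((1 : ℝ) / p * ρ (Real.log x / Real.log p - 1))| ≤
        2 * ε₁ * x * (1 / p) + C₁ := by
      intro p hp
      obtain ⟨hpp, hyp, hpw⟩ := mem_PI.1 hp
      have h4 := DC_prime ρ K ε₁ C₁ δ ih hδ x y hy h2 hyδ p hyp (hpw.le.trans hwx)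
      have h5 : x * ((1 : ℝ) / p * ρ (Real.log x / Real.log p - 1)) =
          ρ (Real.log x / Real.log p - 1) * (x / p) := by ring
      rw [h5]
      linarith
    refine (Finset.sum_le_sum h3).trans ?_
    rw [Finset.sum_add_distrib, ← Finset.mul_sum, Finset.sum_const, nsmul_eq_mul]
    have h4 : 2 * ε₁ * x * ∑ p ∈ PI y (x ^ (1 / (K : ℝ))), (1 : ℝ) / p ≤ 2 * ε₁ * x * 2 :=
      mul_le_mul_of_nonneg_left hM (by positivity)
    linarith
  have e3 : |x * ∑ p ∈ PI y (x ^ (1 / (K : ℝ))), (1 : ℝ) / p * ρ (Real.log x / Real.log p - 1) -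
      x * (ρ K - ρ (Real.log x / Real.log y))| ≤ ε₁ * x := by
    rw [← mul_sub, abs_mul, abs_of_pos hx0, mul_comm]
    exact mul_le_mul_of_nonneg_right hsum hx0.le
  rw [abs_le] at e1 e2 e3 ⊢
  constructor <;> linarith [e1.1, e1.2, e2.1, e2.2, e3.1, e3.2]

/-- DICKMAN'S THEOREM, uniform version. PROOF by induction on `K`.

`K = 1`: `x ≤ y`, so `Psi x y` is `⌊x⌋₊` or `⌊x⌋₊ - 1` (only `n = x = y` prime can be missing) and
`ρ (log x / log y) = 1`: error `≤ 2`.

`K → K + 1`: by the induction hypothesis we may assume `K log y < log x ≤ (K+1) log y`. If `x ≤ x₁` (`x₁`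
constant, chosen below) both `Psi x y ≤ x₁` and `ρ(..) x ≤ S x₁` are bounded (`S ≥ |ρ|` on `[0, K+1]`). Let
`x > x₁`, `w = x^(1/K) > y ≥ 2`, `u = log x / log y ∈ (K, K+1]`, `y = x^(1/u)`. `Psi_split`:
`Psi x y = Psi x w - ∑_{p ∈ PI y w} Psi (x/p) (p+1)`. Induction hypothesis with `ε₁` and its constant `C₁`:
`|Psi x w - ρ K x| ≤ ε₁ x + C₁` (`log x = K log w`); for `p ∈ PI y w`: `x/p ≥ 1`, and
`log (x/p) ≤ K log p ≤ K log (p+1)` (as `log x ≤ (K+1) log p`), so
`|Psi (x/p) (p+1) - ρ (v_p) x/p| ≤ ε₁ x/p + C₁`, `v_p = log (x/p) / log (p+1)`. With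
`s_p = log x / log p - 1 ∈ [0, K]`: `0 ≤ s_p - v_p ≤ K (1 - log p / log (p+1)) ≤ K / (p log 2) ≤ 2K/y`, which is as small as
we like (`y ≥ x^(1/(K+1))`), so `|ρ (v_p) - ρ (s_p)| ≤ ε₁` (uniform continuity on `[0, K]`).
`∑_{p ∈ PI y w} (1/p) ρ (log x / log p - 1)` is within `ε₁` of `∫ t in K..u, ρ (t-1)/t` by
`prime_sum_integral` (`f t = ρ (t - 1)`, `a = K`, `b = K + 1`), and
`ρ K - ∫ t in K..u, ρ (t-1)/t = ρ u`. Total error
`ε₁ x + C₁ + ∑_{p ∈ PI y w} (2 ε₁ x / p + C₁) + ε₁ x`, where `∑ 1/p ≤ 2` (Mertens, `x ≥ x₁`) and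
`C₁ |PI y w| ≤ C₁ (6 x / log x + 2) ≤ ε₁ x` (`w ≤ x`, `M58.VC_pi` for `N = ⌊x⌋₊`, or any `π(x) = o(x)`).
So with `ε₁ = ε/8` the error is at most `ε x + C`. -/
theorem dickman_uniform (ρ : ℝ → ℝ) (hρ : IsDickman ρ) (K : ℕ) (hK : 1 ≤ K) (ε : ℝ)
    (hε : 0 < ε) : ∃ C : ℝ, 0 < C ∧ ∀ x y : ℝ, 1 ≤ x → 2 ≤ y → Real.log x ≤ K * Real.log y →
      |(Psi x y : ℝ) - ρ (Real.log x / Real.log y) * x| ≤ ε * x + C := by
  induction K, hK using Nat.le_induction generalizing ε with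
  | base =>
    refine ⟨2, by norm_num, fun x y hx hy h => ?_⟩
    rw [Nat.cast_one, one_mul] at h
    have h1 := DC_base ρ hρ x y hx hy h
    have h2 : 0 ≤ ε * x := mul_nonneg hε.le (by linarith)
    linarith
  | succ K hK ih =>
    obtain ⟨C₁, hC₁, ih1⟩ := ih (ε / 8) (by linarith)
    have hε₁ : 0 < ε / 8 := by linarith
    have hK1 : (1 : ℝ) ≤ K := by exact_mod_cast hK
    have hK0 : (0 : ℝ) < K := by linarith
    -- the bound of `ρ`
    obtain ⟨S, hS⟩ : ∃ S : ℝ, ∀ t ∈ Set.Icc (0 : ℝ) (K + 1), |ρ t| ≤ S := by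
      obtain ⟨S, hS⟩ := (isCompact_Icc (a := (0 : ℝ)) (b := K + 1)).exists_bound_of_continuousOn
        hρ.1.continuousOn
      exact ⟨S, fun t ht => by simpa using hS t ht⟩
    have hS0 : 0 ≤ S := (abs_nonneg _).trans (hS 0 ⟨le_rfl, by linarith⟩)
    -- uniform continuity
    obtain ⟨δ, hδ0, hδ⟩ : ∃ δ : ℝ, 0 < δ ∧ ∀ s t : ℝ, 0 ≤ s → s ≤ K → 0 ≤ t → t ≤ K →
        |s - t| < δ → |ρ s - ρ t| ≤ ε / 8 := by
      have h1 := (isCompact_Icc (a := (0 : ℝ)) (b := (K : ℝ))).uniformContinuousOn_of_continuous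
        hρ.1.continuousOn
      rw [Metric.uniformContinuousOn_iff] at h1
      obtain ⟨δ, hδ0, hδ⟩ := h1 (ε / 8) hε₁
      refine ⟨δ, hδ0, fun s t hs hs' ht ht' hst => ?_⟩
      have h2 := hδ s ⟨hs, hs'⟩ t ⟨ht, ht'⟩ (by rwa [Real.dist_eq])
      rw [Real.dist_eq] at h2
      exact h2.le
    obtain ⟨x₀, hx₀, hpsi⟩ := prime_sum_integral (fun t => ρ (t - 1))
      (hρ.1.comp (continuous_id.sub continuous_const)) K (K + 1) hK1 (by linarith) (ε / 8) hε₁
    obtain ⟨CM, hCM, hmert⟩ := mertens_two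
    obtain ⟨x₁, hx₁⟩ : ∃ x₁ : ℝ, x₁ = max (max 4 x₀) (max (Real.exp ((K + 1) *
        Real.log (K / δ + 1))) (max (Real.exp ((K + 1) * CM)) (Real.exp (96 * C₁ / ε)))) :=
      ⟨_, rfl⟩
    have hx14 : 4 ≤ x₁ := hx₁ ▸ (le_max_left _ _).trans (le_max_left _ _)
    have hx10 : x₀ ≤ x₁ := hx₁ ▸ (le_max_right _ _).trans (le_max_left _ _)
    have hx1a : Real.exp ((K + 1) * Real.log (K / δ + 1)) ≤ x₁ :=
      hx₁ ▸ (le_max_left _ _).trans (le_max_right _ _)
    have hx1b : Real.exp ((K + 1) * CM) ≤ x₁ :=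
      hx₁ ▸ ((le_max_left _ _).trans (le_max_right _ _)).trans (le_max_right _ _)
    have hx1c : Real.exp (96 * C₁ / ε) ≤ x₁ :=
      hx₁ ▸ ((le_max_right _ _).trans (le_max_right _ _)).trans (le_max_right _ _)
    have hS1 : 0 ≤ (1 + S) * x₁ := mul_nonneg (by linarith) (by linarith)
    refine ⟨C₁ + (1 + S) * x₁, by linarith, fun x y hx hy h => ?_⟩
    have hly : 0 < Real.log y := Real.log_pos (by linarith)
    have hlx : 0 ≤ Real.log x := Real.log_nonneg hx
    have hx0 : 0 < x := by linarith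
    push_cast at h
    rcases le_or_gt (Real.log x) (K * Real.log y) with h1 | h1
    · have h2 := ih1 x y hx hy h1
      have h3 : ε / 8 * x ≤ ε * x := mul_le_mul_of_nonneg_right (by linarith) hx0.le
      linarith
    rcases le_or_gt x x₁ with h2 | h2
    · have h3 := DC_Psi_le x y hx0.le
      have h4 := hS (Real.log x / Real.log y) ⟨div_nonneg hlx hly.le, (div_le_iff₀ hly).2 h⟩
      have h5 : |ρ (Real.log x / Real.log y) * x| ≤ S * x₁ := by
        rw [abs_mul, abs_of_pos hx0]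
        exact mul_le_mul h4 h2 hx0.le hS0
      have h6 : |(Psi x y : ℝ)| ≤ x₁ := by
        rw [abs_of_nonneg (Nat.cast_nonneg _)]
        linarith
      have h7 := abs_sub (Psi x y : ℝ) (ρ (Real.log x / Real.log y) * x)
      have h8 : 0 ≤ ε * x := mul_nonneg hε.le hx0.le
      linarith
    · have hx4 : 4 ≤ x := by linarith
      have hlK : Real.log x / (K + 1) ≤ Real.log y := by
        rw [div_le_iff₀ (by linarith)]
        linarith
      have hla : (K + 1) * Real.log (K / δ + 1) ≤ Real.log x := by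
        rw [Real.le_log_iff_exp_le hx0]
        linarith
      have hlb : (K + 1) * CM ≤ Real.log x := by
        rw [Real.le_log_iff_exp_le hx0]
        linarith
      have hlc : 96 * C₁ / ε ≤ Real.log x := by
        rw [Real.le_log_iff_exp_le hx0]
        linarith
      have hyδ : K / y < δ := by
        have h3 : Real.log (K / δ + 1) ≤ Real.log y := by
          have : (K + 1 : ℝ) * Real.log (K / δ + 1) ≤ (K + 1) * Real.log y := by linarith
          exact le_of_mul_le_mul_left this (by linarith)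
        have h4 : 0 < K / δ := div_pos hK0 hδ0
        have h5 : K / δ + 1 ≤ y := (Real.log_le_log_iff (by linarith) (by linarith)).1 h3
        rw [div_lt_iff₀ (by linarith)]
        have h6 : K / δ < y := by linarith
        rw [div_lt_iff₀ hδ0] at h6
        linarith
      have hCMy : CM ≤ Real.log y := by
        have : (K + 1 : ℝ) * CM ≤ (K + 1) * Real.log y := by linarith
        exact le_of_mul_le_mul_left this (by linarith)
      have hlx0 : 0 < Real.log x := Real.log_pos (by linarith)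
      have hlw : Real.log (x ^ (1 / (K : ℝ))) = Real.log x / K := by
        rw [Real.log_rpow hx0]
        ring
      have hw0 : 0 < x ^ (1 / (K : ℝ)) := Real.rpow_pos_of_pos hx0 _
      have hyw : y ≤ x ^ (1 / (K : ℝ)) := by
        rw [← Real.log_le_log_iff (by linarith) hw0, hlw, le_div_iff₀ hK0]
        linarith
      have hwx : x ^ (1 / (K : ℝ)) ≤ x := by
        rw [← Real.log_le_log_iff hw0 hx0, hlw]
        exact div_le_self hlx0.le hK1
      have hM : ∑ p ∈ PI y (x ^ (1 / (K : ℝ))), (1 : ℝ) / p ≤ 2 := by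
        refine (hmert y _ hy hyw).trans ?_
        have h3 : Real.log (x ^ (1 / (K : ℝ))) / Real.log y ≤ 2 := by
          rw [hlw, div_div, div_le_iff₀ (mul_pos hK0 hly)]
          nlinarith
        have h4 : Real.log (Real.log (x ^ (1 / (K : ℝ))) / Real.log y) ≤ Real.log 2 := by
          refine Real.log_le_log ?_ h3
          rw [hlw]
          positivity
        have h5 : CM / Real.log y ≤ 1 := (div_le_one hly).2 hCMy
        linarith [Real.log_two_lt_d9]
      have hcard : C₁ * ((PI y (x ^ (1 / (K : ℝ)))).card : ℝ) ≤ ε / 8 * x := by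
        have h3 := DC_count x y _ hx4 hwx
        have h4 : C₁ * ((PI y (x ^ (1 / (K : ℝ)))).card : ℝ) ≤ C₁ * (12 * x / Real.log x) :=
          mul_le_mul_of_nonneg_left h3 hC₁.le
        refine h4.trans ?_
        rw [div_le_iff₀ hε] at hlc
        have h5 : C₁ * (12 * x / Real.log x) = 12 * C₁ * x / Real.log x := by ring
        rw [h5, div_le_iff₀ hlx0]
        have h6 : 96 * C₁ * x ≤ Real.log x * ε * x := mul_le_mul_of_nonneg_right hlc hx0.le
        linarith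
      have hsum := hpsi x (by linarith) (Real.log x / Real.log y) ((le_div_iff₀ hly).2 h1.le)
        ((div_le_iff₀ hly).2 h)
      have h3 := DC_step ρ hρ K hK (ε / 8) C₁ δ ih1 hε₁ hδ x y hx4 hy h1 h hyδ hM hcard hsum
      have h4 : 7 * (ε / 8) * x ≤ ε * x := mul_le_mul_of_nonneg_right (by linarith) hx0.le
      linarith

end BG
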