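import Pool.Agent.W_aaa0df_v.DC0

/-!
# Theorem V with Dickman's function, DD0: the sum of reciprocals of smooth numbers
-/

set_option autoImplicit false

noncomputable section

open Finset Pool.Agent.Wb58c63

namespace BG

open Classical in
/-- the `z`-smooth numbers in `[1, M]` -/
def Sm (z : ℝ) (M : ℕ) : Finset ℕ :=
  (Icc 1 M).filter (fun m => ∀ p : ℕ, p.Prime → p ∣ m → (p : ℝ) < z)

/-- PROOF. `∑_{m ∈ Sm z M} 1/m ≤ ∏_{p < z} (1 - 1/p)^(-1)`: every `m ∈ Sm z M` is a product of primes `p < z`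
with exponents `≤ M`; expand the product of geometric sums (as `M58.rough_recip` in VC; e.g.
`EulerProduct`, `Nat.smoothNumbers`, `Nat.primesBelow`, or induction over the primes). -/
theorem smooth_recip (z : ℝ) (hz : 2 ≤ z) (M : ℕ) :
    (∑ m ∈ Sm z M, (1 : ℝ) / m) * VP (fun p => 1 / (p : ℝ)) (PI 0 z) ≤ 1 := by
  classical
  set P := PI 0 z with hP
  have hPp : ∀ p ∈ P, p.Prime := fun p hp => (mem_PI.1 hp).1
  have hlt : ∀ {p : ℕ}, p.Prime → ‖Pool.Agent.M58.VC_inv p‖ < 1 := by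
    intro p hp
    have h2 : (2 : ℝ) ≤ p := by exact_mod_cast hp.two_le
    rw [Pool.Agent.M58.VC_inv_apply, Real.norm_of_nonneg (by positivity)]
    exact inv_lt_one_of_one_lt₀ (by linarith)
  have H := (EulerProduct.summable_and_hasSum_factoredNumbers_prod_filter_prime_geometric
    (f := Pool.Agent.M58.VC_inv) hlt P).2
  rw [Finset.filter_true_of_mem hPp] at H
  have hTmem : ∀ k ∈ Sm z M, k ∈ Nat.factoredNumbers P := by
    intro k hk
    rw [Sm, mem_filter, mem_Icc] at hk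
    refine Nat.mem_factoredNumbers_of_primeFactors_subset (by omega) fun p hp => ?_
    rw [hP, mem_PI]
    exact ⟨Nat.prime_of_mem_primeFactors hp, Nat.cast_nonneg _,
      hk.2 p (Nat.prime_of_mem_primeFactors hp) (Nat.dvd_of_mem_primeFactors hp)⟩
  have h1 : ∑ m ∈ Sm z M, (1 : ℝ) / m = ∑ k ∈ Sm z M, Pool.Agent.M58.VC_inv k :=
    Finset.sum_congr rfl fun k _ => by rw [Pool.Agent.M58.VC_inv_apply, one_div]
  have h2 : ∑ k ∈ Sm z M, Pool.Agent.M58.VC_inv k ≤
      ∏ p ∈ P, (1 - Pool.Agent.M58.VC_inv p)⁻¹ := by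
    rw [← Finset.sum_subtype_of_mem (p := fun k => k ∈ Nat.factoredNumbers P)
      (fun k => Pool.Agent.M58.VC_inv k) hTmem]
    exact sum_le_hasSum _ (fun m _ => by rw [Pool.Agent.M58.VC_inv_apply]; positivity) H
  have hpos : ∀ p ∈ P, 0 < 1 - Pool.Agent.M58.VC_inv p := by
    intro p hp
    have := hlt (hPp p hp)
    rw [Real.norm_eq_abs, abs_lt] at this
    linarith [this.2]
  have h3 : VP (fun p => 1 / (p : ℝ)) P = ∏ p ∈ P, (1 - Pool.Agent.M58.VC_inv p) := by
    unfold VP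
    refine Finset.prod_congr rfl fun p _ => ?_
    rw [Pool.Agent.M58.VC_inv_apply]
    simp only [one_div]
  have h4 : 0 < ∏ p ∈ P, (1 - Pool.Agent.M58.VC_inv p) := Finset.prod_pos hpos
  rw [h1, h3]
  rw [Finset.prod_inv_distrib] at h2
  calc _ ≤ (∏ p ∈ P, (1 - Pool.Agent.M58.VC_inv p))⁻¹ *
        ∏ p ∈ P, (1 - Pool.Agent.M58.VC_inv p) := mul_le_mul_of_nonneg_right h2 h4.le
    _ = 1 := inv_mul_cancel₀ h4.ne'

end BG
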