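import Pool.Agent.W_aaa0df_v.DD0

/-!
# Theorem V with Dickman's function, DD1: Rankin bound for the tail
-/

set_option autoImplicit false

noncomputable section

open Finset Pool.Agent.Wb58c63

namespace BG

/-- The map `n ↦ n ^ s`. -/
def DD1_f (s : ℝ) : ℕ →* ℝ where
  toFun n := (n : ℝ) ^ s
  map_one' := by simp
  map_mul' m n := by
    push_cast
    rw [Real.mul_rpow (Nat.cast_nonneg m) (Nat.cast_nonneg n)]

theorem DD1_f_apply (s : ℝ) (n : ℕ) : DD1_f s n = (n : ℝ) ^ s := rfl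

theorem DD1_q {z : ℝ} (hz : 2 ≤ z) {p : ℕ} (hp : p.Prime) (hpz : (p : ℝ) < z) :
    0 ≤ (p : ℝ) ^ (1 / (4 * Real.log z) - 1) ∧ (p : ℝ) ^ (1 / (4 * Real.log z) - 1) < 1 ∧
    (1 - (p : ℝ) ^ (1 / (4 * Real.log z) - 1))⁻¹ ≤ Real.exp (1 / p +
      (1 / (2 * Real.log z)) * (Real.log p / p) + 6 * (1 / ((p : ℝ) * (p - 1)))) := by
  have hp2 : (2 : ℝ) ≤ p := by exact_mod_cast hp.two_le
  have hlz : 0 < Real.log z := Real.log_pos (by linarith)
  have hlp : 0 < Real.log p := Real.log_pos (by linarith)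
  have hlpz : Real.log p ≤ Real.log z := Real.log_le_log (by linarith) hpz.le
  obtain ⟨x, hx⟩ : ∃ x, x = 1 / (4 * Real.log z) * Real.log p := ⟨_, rfl⟩
  have hx0 : 0 ≤ x := by
    rw [hx]
    positivity
  have hx1 : x ≤ 1 / 4 := by
    rw [hx, div_mul_eq_mul_div, one_mul, div_le_div_iff₀ (by positivity) (by norm_num)]
    linarith
  obtain ⟨q, hq⟩ : ∃ q, q = (p : ℝ) ^ (1 / (4 * Real.log z) - 1) := ⟨_, rfl⟩
  have hqe : q = Real.exp x / p := by
    rw [hq, Real.rpow_sub (by linarith), Real.rpow_one, Real.rpow_def_of_pos (by linarith), hx,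
      mul_comm (Real.log (p : ℝ))]
  have he : Real.exp x ≤ 1 + x + x ^ 2 := by
    have h1 := Real.abs_exp_sub_one_sub_id_le (x := x) (by rw [abs_of_nonneg hx0]; linarith)
    have h2 := (abs_le.1 h1).2
    linarith
  have he1 : Real.exp x ≤ 21 / 16 := by nlinarith
  have he2 : Real.exp x ≤ 1 + 2 * x := by nlinarith
  have he0 : 0 < Real.exp x := Real.exp_pos x
  have hp0 : (0 : ℝ) < p := by linarith
  have hq0 : 0 ≤ q := by
    rw [hqe]
    positivity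
  have hq1 : q ≤ 21 / 32 := by
    rw [hqe, div_le_iff₀ hp0]
    linarith
  have hq2 : q / (1 - q) ≤ q + 3 * q ^ 2 := by
    rw [div_le_iff₀ (by linarith)]
    have h1 : 0 ≤ q ^ 2 * (2 - 3 * q) := mul_nonneg (sq_nonneg q) (by linarith)
    nlinarith
  have hq3 : 3 * q ^ 2 ≤ 6 * (1 / ((p : ℝ) * (p - 1))) := by
    have h1 : q ^ 2 ≤ (21 / 16) ^ 2 / (p : ℝ) ^ 2 := by
      rw [hqe, div_pow]
      exact div_le_div_of_nonneg_right (pow_le_pow_left₀ he0.le he1 2) (by positivity)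
    have h2 : 1 / (p : ℝ) ^ 2 ≤ 1 / ((p : ℝ) * (p - 1)) := by
      refine one_div_le_one_div_of_le ?_ ?_
      · exact mul_pos hp0 (by linarith)
      · nlinarith
    have h3 : (21 / 16 : ℝ) ^ 2 / (p : ℝ) ^ 2 = (441 / 256) * (1 / (p : ℝ) ^ 2) := by ring
    rw [h3] at h1
    have h4 : (0 : ℝ) < 1 / (p : ℝ) ^ 2 := by positivity
    nlinarith
  have hq4 : q ≤ 1 / p + (1 / (2 * Real.log z)) * (Real.log p / p) := by
    rw [hqe]
    have h1 : 1 / (p : ℝ) + (1 / (2 * Real.log z)) * (Real.log p / p) = (1 + 2 * x) / p := by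
      rw [hx]
      field_simp
      ring
    rw [h1]
    exact div_le_div_of_nonneg_right he2 hp0.le
  rw [← hq]
  refine ⟨hq0, by linarith, ?_⟩
  have h5 : (1 - q)⁻¹ = q / (1 - q) + 1 := by
    have h6 : 1 - q ≠ 0 := by linarith
    field_simp
    ring
  rw [h5]
  refine (Real.add_one_le_exp _).trans (Real.exp_le_exp.2 ?_)
  linarith

theorem DD1_sum : ∃ C : ℝ, 0 < C ∧ ∀ z : ℝ, 2 ≤ z →
    ∑ p ∈ PI 0 z, (1 / (p : ℝ) + (1 / (2 * Real.log z)) * (Real.log p / p) +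
      6 * (1 / ((p : ℝ) * (p - 1)))) ≤ Real.log (Real.log z) + C := by
  obtain ⟨C₁, hC₁, h1⟩ := mertens_one
  obtain ⟨C₂, hC₂, h2⟩ := mertens_two
  have hl2 : 0 < Real.log 2 := Real.log_pos (by norm_num)
  have hl2' : Real.log 2 ≤ 1 := by
    have := Real.log_two_lt_d9
    linarith
  have hll : Real.log (Real.log 2) ≤ 0 := Real.log_nonpos hl2.le hl2'
  have hpos : 0 < C₂ / Real.log 2 + (1 / 2 + C₁ / (2 * Real.log 2)) + 6 := by positivity
  refine ⟨-Real.log (Real.log 2) + C₂ / Real.log 2 + (1 / 2 + C₁ / (2 * Real.log 2)) + 6,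
    by linarith, fun z hz => ?_⟩
  have hlz : 0 < Real.log z := Real.log_pos (by linarith)
  have hlz2 : Real.log 2 ≤ Real.log z := Real.log_le_log (by norm_num) hz
  have hPI : PI 0 z = PI 2 z := by
    ext p
    rw [mem_PI, mem_PI]
    constructor
    · rintro ⟨a, _, c⟩
      exact ⟨a, by exact_mod_cast a.two_le, c⟩
    · rintro ⟨a, b, c⟩
      exact ⟨a, by positivity, c⟩
  rw [Finset.sum_add_distrib, Finset.sum_add_distrib, ← Finset.mul_sum, ← Finset.mul_sum]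
  have k1 : ∑ p ∈ PI 0 z, 1 / (p : ℝ) ≤ Real.log (Real.log z) - Real.log (Real.log 2) +
      C₂ / Real.log 2 := by
    rw [hPI]
    have := h2 2 z le_rfl hz
    rw [Real.log_div hlz.ne' hl2.ne'] at this
    exact this
  have k2 : 1 / (2 * Real.log z) * ∑ p ∈ PI 0 z, Real.log p / p ≤ 1 / 2 + C₁ / (2 * Real.log 2) := by
    have h3 := (abs_le.1 (h1 z hz)).2
    have h4 : ∑ p ∈ PI 0 z, Real.log p / p ≤ Real.log z + C₁ := by linarith
    refine (mul_le_mul_of_nonneg_left h4 (by positivity)).trans ?_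
    have h5 : 1 / (2 * Real.log z) * (Real.log z + C₁) = 1 / 2 + C₁ / (2 * Real.log z) := by
      field_simp
    rw [h5]
    have h6 : C₁ / (2 * Real.log z) ≤ C₁ / (2 * Real.log 2) :=
      div_le_div_of_nonneg_left hC₁.le (by positivity) (by linarith)
    linarith
  have k3 : ∑ p ∈ PI 0 z, 1 / ((p : ℝ) * (p - 1)) ≤ 1 := by
    have h3 : ∑ p ∈ PI 0 z, 1 / ((p : ℝ) * (p - 1)) ≤
        ∑ n ∈ Icc 2 ⌈z⌉₊, (1 : ℝ) / (n * (n - 1)) := by
      apply Finset.sum_le_sum_of_subset_of_nonneg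
      · intro p hp
        obtain ⟨h1, h2, h3⟩ := mem_PI.1 hp
        rw [mem_Icc]
        refine ⟨h1.two_le, ?_⟩
        have h4 : (p : ℝ) < ⌈z⌉₊ := h3.trans_le (Nat.le_ceil z)
        have h5 : p < ⌈z⌉₊ := by exact_mod_cast h4
        exact h5.le
      · intro n hn _
        have hn2 : (2 : ℝ) ≤ n := by exact_mod_cast (mem_Icc.1 hn).1
        apply div_nonneg (by norm_num)
        apply mul_nonneg <;> linarith
    have h4 := arb_tail 2 le_rfl ⌈z⌉₊
    norm_num at h4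
    have h5 : ∑ n ∈ Icc 2 ⌈z⌉₊, (1 : ℝ) / (n * (n - 1)) ≤ 1 := by
      refine le_trans (le_of_eq (Finset.sum_congr rfl fun n _ => ?_)) h4
      rw [one_div, mul_inv, mul_comm]
    linarith
  linarith

theorem DD1_euler {z : ℝ} (hz : 2 ≤ z) (M : ℕ) :
    ∑ m ∈ Sm z M, (m : ℝ) ^ (1 / (4 * Real.log z) - 1) ≤
      ∏ p ∈ PI 0 z, (1 - (p : ℝ) ^ (1 / (4 * Real.log z) - 1))⁻¹ := by
  classical
  set s : ℝ := 1 / (4 * Real.log z) - 1 with hs
  have hPp : ∀ p ∈ PI 0 z, p.Prime := fun p hp => (mem_PI.1 hp).1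
  have hlz : 0 < Real.log z := Real.log_pos (by linarith)
  have hlz2 : Real.log 2 ≤ Real.log z := Real.log_le_log (by norm_num) hz
  have hl2 : (1 / 2 : ℝ) < Real.log 2 := by
    have := Real.log_two_gt_d9
    linarith
  have hs0 : s < 0 := by
    have h1 : 1 / (4 * Real.log z) < 1 := by
      rw [div_lt_one (by positivity)]
      linarith
    linarith
  have hlt : ∀ {p : ℕ}, p.Prime → ‖DD1_f s p‖ < 1 := by
    intro p hp
    have h2 : (2 : ℝ) ≤ p := by exact_mod_cast hp.two_le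
    rw [DD1_f_apply, Real.norm_of_nonneg (Real.rpow_nonneg (Nat.cast_nonneg p) s)]
    exact Real.rpow_lt_one_of_one_lt_of_neg (by linarith) hs0
  have H := (EulerProduct.summable_and_hasSum_factoredNumbers_prod_filter_prime_geometric
    (f := DD1_f s) hlt (PI 0 z)).2
  rw [Finset.filter_true_of_mem hPp] at H
  have hTmem : ∀ k ∈ Sm z M, k ∈ Nat.factoredNumbers (PI 0 z) := by
    intro k hk
    unfold Sm at hk
    rw [mem_filter, mem_Icc] at hk
    refine Nat.mem_factoredNumbers_of_primeFactors_subset (by omega) fun p hp => ?_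
    rw [mem_PI]
    exact ⟨Nat.prime_of_mem_primeFactors hp, Nat.cast_nonneg p,
      hk.2 p (Nat.prime_of_mem_primeFactors hp) (Nat.dvd_of_mem_primeFactors hp)⟩
  have h2 : ∑ k ∈ Sm z M, DD1_f s k ≤ ∏ p ∈ PI 0 z, (1 - DD1_f s p)⁻¹ := by
    rw [← Finset.sum_subtype_of_mem (p := fun k => k ∈ Nat.factoredNumbers (PI 0 z))
      (fun k => DD1_f s k) hTmem]
    exact sum_le_hasSum _ (fun m _ => by
      rw [DD1_f_apply]
      exact Real.rpow_nonneg (Nat.cast_nonneg _) s) H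
  exact h2

/-- RANKIN. PROOF. `η = 1/(4 log z)`, `0 < η ≤ 0.37`. For `m > z^B`: `1 ≤ (m / z^B)^η`,
`z^(-B η) = e^(-B/4)`, so the sum is `≤ e^(-B/4) ∑_{m ∈ Sm z M} m^(-(1-η)) ≤ e^(-B/4) ∏_{p < z} (1 - p^(-(1-η)))^(-1)`. For
`p < z`: `p^η ≤ e^(1/4)` and `p^η = e^(η log p) ≤ 1 + 2 η log p`, `q := p^(-(1-η)) ≤ 2^(-0.63) ≤ 2/3`,
`- log (1 - q) ≤ q + 3 q²`, `q ≤ 1/p + 2 η (log p)/p`, `q² ≤ 2/p²`. `∑_{p < z} 1/p ≤ log log z + C`
(`mertens_two` with `u = 2`), `∑_{p<z} (log p)/p ≤ log z + C` (`mertens_one`), `∑ 6/p² ≤ 12`. So the product is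
`≤ C log z`. -/
theorem smooth_tail : ∃ C : ℝ, 0 < C ∧ ∀ (z : ℝ) (B M : ℕ), 2 ≤ z →
    ∑ m ∈ (Sm z M).filter (fun m : ℕ => z ^ B < (m : ℝ)), (1 : ℝ) / m ≤
      C * Real.exp (-(B : ℝ) / 4) * Real.log z := by
  obtain ⟨C, hC, h⟩ := DD1_sum
  refine ⟨Real.exp C, Real.exp_pos C, fun z B M hz => ?_⟩
  have hlz : 0 < Real.log z := Real.log_pos (by linarith)
  have hz0 : 0 < z := by linarith
  set s : ℝ := 1 / (4 * Real.log z) - 1 with hs
  have h1 : ∑ m ∈ (Sm z M).filter (fun m : ℕ => z ^ B < (m : ℝ)), (1 : ℝ) / m ≤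
      ∑ m ∈ (Sm z M).filter (fun m : ℕ => z ^ B < (m : ℝ)), Real.exp (-(B : ℝ) / 4) * (m : ℝ) ^ s := by
    refine Finset.sum_le_sum fun m hm => ?_
    rw [mem_filter] at hm
    have hzB : (0 : ℝ) < z ^ B := pow_pos hz0 B
    have hm0 : (0 : ℝ) < m := hzB.trans hm.2
    have h2 : (m : ℝ) ^ s = (m : ℝ) ^ (1 / (4 * Real.log z)) / m := by
      rw [hs, Real.rpow_sub hm0, Real.rpow_one]
    rw [h2, ← mul_div_assoc]
    refine div_le_div_of_nonneg_right ?_ hm0.le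
    have h3 : Real.exp ((B : ℝ) / 4) ≤ (m : ℝ) ^ (1 / (4 * Real.log z)) := by
      rw [Real.rpow_def_of_pos hm0]
      refine Real.exp_le_exp.2 ?_
      have h4 : (B : ℝ) * Real.log z ≤ Real.log m := by
        rw [← Real.log_pow]
        exact Real.log_le_log hzB hm.2.le
      rw [mul_one_div, div_le_div_iff₀ (by norm_num) (by positivity)]
      nlinarith
    calc (1 : ℝ) = Real.exp (-(B : ℝ) / 4) * Real.exp ((B : ℝ) / 4) := by
          rw [← Real.exp_add, neg_div, neg_add_cancel, Real.exp_zero]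
      _ ≤ Real.exp (-(B : ℝ) / 4) * (m : ℝ) ^ (1 / (4 * Real.log z)) :=
          mul_le_mul_of_nonneg_left h3 (Real.exp_pos _).le
  have h5 : ∑ m ∈ (Sm z M).filter (fun m : ℕ => z ^ B < (m : ℝ)), (m : ℝ) ^ s ≤
      ∑ m ∈ Sm z M, (m : ℝ) ^ s :=
    Finset.sum_le_sum_of_subset_of_nonneg (Finset.filter_subset _ _)
      fun m _ _ => Real.rpow_nonneg (Nat.cast_nonneg m) s
  have h6 : ∏ p ∈ PI 0 z, (1 - (p : ℝ) ^ s)⁻¹ ≤ Real.exp (Real.log (Real.log z) + C) := by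
    refine le_trans ?_ (Real.exp_le_exp.2 (h z hz))
    rw [Real.exp_sum]
    refine Finset.prod_le_prod (fun p hp => ?_) fun p hp => ?_
    · obtain ⟨hp1, hp2, hp3⟩ := mem_PI.1 hp
      have := DD1_q hz hp1 hp3
      exact inv_nonneg.2 (by linarith [this.2.1])
    · obtain ⟨hp1, hp2, hp3⟩ := mem_PI.1 hp
      exact (DD1_q hz hp1 hp3).2.2
  rw [← Finset.mul_sum] at h1
  have h7 : Real.exp (Real.log (Real.log z) + C) = Real.exp C * Real.log z := by
    rw [Real.exp_add, Real.exp_log hlz, mul_comm]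
  rw [h7] at h6
  calc ∑ m ∈ (Sm z M).filter (fun m : ℕ => z ^ B < (m : ℝ)), (1 : ℝ) / m ≤
        Real.exp (-(B : ℝ) / 4) * (Real.exp C * Real.log z) :=
        h1.trans (mul_le_mul_of_nonneg_left (h5.trans ((DD1_euler hz M).trans h6))
          (Real.exp_pos _).le)
    _ = Real.exp C * Real.exp (-(B : ℝ) / 4) * Real.log z := by ring

end BG
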