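import Pool.Agent.W_aaa0df_v.DD0

/-!
# Theorem V with Dickman's function, DD3: the number of smooth numbers
-/

set_option autoImplicit false

noncomputable section

open Finset Pool.Agent.Wb58c63

namespace BG

theorem DD3_mem {z : ℝ} {N n : ℕ} : n ∈ Sm z N ↔ (1 ≤ n ∧ n ≤ N) ∧
    ∀ p : ℕ, p.Prime → p ∣ n → (p : ℝ) < z := by
  unfold Sm
  simp only [mem_filter, mem_Icc]

theorem DD3_dvd {z : ℝ} {N n m : ℕ} (hn : n ∈ Sm z N) (hm : m ∣ n) : m ∈ Sm z N := by
  rw [DD3_mem] at hn ⊢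
  have hn0 : 0 < n := hn.1.1
  have h1 := Nat.le_of_dvd hn0 hm
  have h2 := Nat.pos_of_dvd_of_pos hm hn0
  exact ⟨⟨h2, h1.trans hn.1.2⟩, fun p hp hpm => hn.2 p hp (hpm.trans hm)⟩

/-- For fixed `m` the quotients `n / m` are different and at most `N / m`. -/
theorem DD3_inner (z : ℝ) (N m : ℕ) (hm : 1 ≤ m) :
    ∑ n ∈ (Sm z N).filter (fun n => m ∣ n), ArithmeticFunction.vonMangoldt (n / m) ≤
      (Real.log 4 + 4) * ((N : ℝ) / m) := by
  have hm0 : 0 < m := hm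
  have h1 : ∑ n ∈ (Sm z N).filter (fun n => m ∣ n), ArithmeticFunction.vonMangoldt (n / m) =
      ∑ d ∈ ((Sm z N).filter (fun n => m ∣ n)).image (fun n => n / m),
        ArithmeticFunction.vonMangoldt d := by
    rw [sum_image]
    intro a ha b hb hab
    rw [mem_coe, mem_filter] at ha hb
    have h2 := Nat.div_mul_cancel ha.2
    have h3 := Nat.div_mul_cancel hb.2
    have hab' : a / m = b / m := hab
    rw [← h2, ← h3, hab']
  have h2 : ((Sm z N).filter (fun n => m ∣ n)).image (fun n => n / m) ⊆ Ioc 0 (N / m) := by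
    intro d hd
    rw [mem_image] at hd
    obtain ⟨n, hn, rfl⟩ := hd
    rw [mem_filter, DD3_mem] at hn
    rw [mem_Ioc]
    exact ⟨Nat.div_pos (Nat.le_of_dvd hn.1.1.1 hn.2) hm0, Nat.div_le_div_right hn.1.1.2⟩
  have h3 : ∑ d ∈ Ioc 0 (N / m), ArithmeticFunction.vonMangoldt d =
      Chebyshev.psi ((N : ℝ) / m) := by
    unfold Chebyshev.psi
    rw [Nat.floor_div_eq_div]
  rw [h1]
  refine (sum_le_sum_of_subset_of_nonneg h2 fun d _ _ =>
    ArithmeticFunction.vonMangoldt_nonneg).trans ?_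
  rw [h3]
  exact Chebyshev.psi_le_const_mul_self (by positivity)

theorem DD3_log (z : ℝ) (N : ℕ) : ∑ n ∈ Sm z N, Real.log n ≤
    (Real.log 4 + 4) * (N * ∑ m ∈ Sm z N, (1 : ℝ) / m) := by
  have h1 : ∀ n ∈ Sm z N, Real.log n = ∑ m ∈ Sm z N,
      if m ∣ n then ArithmeticFunction.vonMangoldt (n / m) else 0 := by
    intro n hn
    have hn0 : n ≠ 0 := by
      have := (DD3_mem.1 hn).1.1
      omega
    rw [← ArithmeticFunction.vonMangoldt_sum,
      ← Nat.sum_div_divisors n (fun d => ArithmeticFunction.vonMangoldt d), ← sum_filter]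
    refine sum_congr ?_ fun _ _ => rfl
    ext m
    rw [Nat.mem_divisors, mem_filter]
    exact ⟨fun h => ⟨DD3_dvd hn h.1, h.1⟩, fun h => ⟨h.2, hn0⟩⟩
  rw [sum_congr rfl h1, sum_comm]
  have h2 : ∀ m ∈ Sm z N, ∑ n ∈ Sm z N,
      (if m ∣ n then ArithmeticFunction.vonMangoldt (n / m) else 0) ≤
      (Real.log 4 + 4) * ((N : ℝ) / m) := by
    intro m hm
    rw [← sum_filter]
    exact DD3_inner z N m (DD3_mem.1 hm).1.1
  refine (sum_le_sum h2).trans (le_of_eq ?_)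
  have h3 : ∀ m ∈ Sm z N, (Real.log 4 + 4) * ((N : ℝ) / m) =
      (Real.log 4 + 4) * N * ((1 : ℝ) / m) := by
    intro m _
    ring
  rw [sum_congr rfl h3, ← mul_sum, mul_assoc]

/-- PROOF. `Psi N z = |Sm z N|`. For `n ∈ Sm z N`, `log n = ∑_{d ∣ n} Λ(d)`
(`ArithmeticFunction.vonMangoldt_sum`); `d ∣ n`, `n = d m` with `m ∈ Sm z (N/d)`. Hence
`∑_{n ∈ Sm z N} log n ≤ ∑_{m ∈ Sm z N} ∑_{d ≤ N/m} Λ(d) = ∑_{m ∈ Sm z N} ψ(N/m) ≤ C₁ N ∑_{m ∈ Sm z N} 1/m`
(`Chebyshev.psi_le_const_mul_self`) `≤ C₂ N log z` (`smooth_recip`, `M58.VP_inv`). The `n ∈ Sm z N` with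
`n > √N` have `log n ≥ (log N)/2`, so there are at most `2 C₂ N log z / log N` of them. -/
theorem smooth_count : ∃ C : ℝ, 0 < C ∧ ∀ (z : ℝ) (N : ℕ), 2 ≤ z → 2 ≤ N →
    ((Sm z N).card : ℝ) ≤ Real.sqrt N + C * (N * (Real.log z / Real.log N)) := by
  obtain ⟨c, C', hc, -, hV⟩ := Pool.Agent.M58.VP_inv
  have hC1 : 0 < Real.log 4 + 4 := by
    have := Real.log_pos (show (1 : ℝ) < 4 by norm_num)
    linarith
  refine ⟨2 * (Real.log 4 + 4) / c, by positivity, fun z N hz hN => ?_⟩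
  have hlz : 0 < Real.log z := Real.log_pos (by linarith)
  have hN2 : (2 : ℝ) ≤ N := by exact_mod_cast hN
  have hlN : 0 < Real.log N := Real.log_pos (by linarith)
  have hN0 : (0 : ℝ) < N := by linarith
  -- the sum of the reciprocals
  have hR : ∑ m ∈ Sm z N, (1 : ℝ) / m ≤ Real.log z / c := by
    have h1 := smooth_recip z hz N
    have h2 := (hV z hz).1
    have h3 : 0 ≤ ∑ m ∈ Sm z N, (1 : ℝ) / m := sum_nonneg fun m _ => by positivity
    have h4 := (mul_le_mul_of_nonneg_left h2 h3).trans h1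
    rw [le_div_iff₀ hc]
    have h5 : (∑ m ∈ Sm z N, (1 : ℝ) / m) * (c / Real.log z) * Real.log z ≤ 1 * Real.log z :=
      mul_le_mul_of_nonneg_right h4 hlz.le
    have h6 : (∑ m ∈ Sm z N, (1 : ℝ) / m) * (c / Real.log z) * Real.log z =
        (∑ m ∈ Sm z N, (1 : ℝ) / m) * c := by
      field_simp
    rw [h6, one_mul] at h5
    exact h5
  have hL : ∑ n ∈ Sm z N, Real.log n ≤ (Real.log 4 + 4) * (N * (Real.log z / c)) :=
    (DD3_log z N).trans (mul_le_mul_of_nonneg_left (mul_le_mul_of_nonneg_left hR hN0.le) hC1.le)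
  -- the small and the large numbers
  have hsplit : (Sm z N).card = ((Sm z N).filter (fun n : ℕ => (n : ℝ) ≤ Real.sqrt N)).card +
      ((Sm z N).filter (fun n : ℕ => ¬ ((n : ℝ) ≤ Real.sqrt N))).card :=
    (card_filter_add_card_filter_not (s := Sm z N) (fun n : ℕ => (n : ℝ) ≤ Real.sqrt N)).symm
  have hs : (((Sm z N).filter (fun n : ℕ => (n : ℝ) ≤ Real.sqrt N)).card : ℝ) ≤ Real.sqrt N := by
    have h1 : (Sm z N).filter (fun n : ℕ => (n : ℝ) ≤ Real.sqrt N) ⊆ Icc 1 ⌊Real.sqrt N⌋₊ := by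
      intro n hn
      rw [mem_filter, DD3_mem] at hn
      rw [mem_Icc]
      exact ⟨hn.1.1.1, Nat.le_floor hn.2⟩
    have h2 := card_le_card h1
    rw [Nat.card_Icc, Nat.add_sub_cancel] at h2
    exact (Nat.cast_le.2 h2).trans (Nat.floor_le (Real.sqrt_nonneg _))
  have hl : (((Sm z N).filter (fun n : ℕ => ¬ ((n : ℝ) ≤ Real.sqrt N))).card : ℝ) *
      (Real.log N / 2) ≤ (Real.log 4 + 4) * (N * (Real.log z / c)) := by
    refine le_trans ?_ hL
    have h1 : (((Sm z N).filter (fun n : ℕ => ¬ ((n : ℝ) ≤ Real.sqrt N))).card : ℝ) *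
        (Real.log N / 2) ≤ ∑ n ∈ (Sm z N).filter (fun n : ℕ => ¬ ((n : ℝ) ≤ Real.sqrt N)),
          Real.log n := by
      rw [← nsmul_eq_mul]
      refine card_nsmul_le_sum _ _ _ fun n hn => ?_
      rw [mem_filter] at hn
      have h2 : Real.sqrt N ≤ n := (not_le.1 hn.2).le
      have h3 := Real.log_le_log (Real.sqrt_pos.2 hN0) h2
      rwa [Real.log_sqrt hN0.le] at h3
    refine h1.trans (sum_le_sum_of_subset_of_nonneg (filter_subset _ _) fun n hn _ => ?_)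
    refine Real.log_nonneg ?_
    exact_mod_cast (DD3_mem.1 hn).1.1
  have hl' : (((Sm z N).filter (fun n : ℕ => ¬ ((n : ℝ) ≤ Real.sqrt N))).card : ℝ) ≤
      2 * (Real.log 4 + 4) / c * (N * (Real.log z / Real.log N)) := by
    have h1 : 2 * (Real.log 4 + 4) / c * (N * (Real.log z / Real.log N)) =
        (Real.log 4 + 4) * (N * (Real.log z / c)) / (Real.log N / 2) := by
      field_simp
    rw [h1, le_div_iff₀ (by positivity)]
    exact hl
  rw [hsplit]
  push_cast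
  exact add_le_add hs hl'

end BG
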