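import Pool.Agent.W_aaa0df_v.DD0

/-!
# Theorem V with Dickman's function, DD4: rough numbers, all ranges; decomposition
-/

set_option autoImplicit false

noncomputable section

open Finset Pool.Agent.Wb58c63

namespace BG

theorem DD4_rh_mono {w z : ℝ} (h : w ≤ z) (n : ℕ) :
    Pool.Agent.M58.rh z n ≤ Pool.Agent.M58.rh w n := by
  by_cases h1 : Pool.Agent.M58.rh z n = 0
  · rw [h1]
    exact Pool.Agent.M58.VC_rh_nonneg w n
  · obtain ⟨-, h2, h3⟩ := Pool.Agent.M58.VC_rh_one h1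
    rw [Pool.Agent.M58.VC_rh_eq_one h2 fun p hp => h.trans (h3 p hp)]
    exact Pool.Agent.M58.VC_rh_le z n

/-- Small `w`. -/
theorem DD4_small : ∃ K : ℝ, 0 < K ∧ ∀ (w : ℝ) (N : ℕ), 2 ≤ w → w ^ 10 ≤ N →
    ∑ n ∈ Icc 1 N, Pool.Agent.M58.rh w n ≤ K * (N / Real.log w) := by
  obtain ⟨C₁, hC₁, h1⟩ := Pool.Agent.M58.rough_upper
  obtain ⟨c, C₂, hc, hC₂, h2⟩ := Pool.Agent.M58.VP_inv
  refine ⟨C₂ * (1 + C₁) + 1, by positivity, fun w N hw hN => ?_⟩
  have hl : 0 < Real.log w := Real.log_pos (by linarith)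
  have hw0 : 0 < w := by linarith
  obtain ⟨h3, h4⟩ := h1 w 1 N hw le_rfl
  have h5 := (h2 w hw).2
  have h6 : w ^ (4 * 1 + 5) ≤ N / Real.log w := by
    rw [le_div_iff₀ hl]
    have h7 : Real.log w ≤ w := by
      have := Real.log_le_sub_one_of_pos hw0
      linarith
    calc w ^ (4 * 1 + 5) * Real.log w ≤ w ^ (4 * 1 + 5) * w :=
          mul_le_mul_of_nonneg_left h7 (by positivity)
      _ = w ^ 10 := by ring
      _ ≤ N := hN
  have h8 : (N : ℝ) * (VP (fun p => 1 / (p : ℝ)) (PI 0 w) * (1 + C₁ * Real.exp (-((1 : ℕ) : ℝ)))) ≤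
      C₂ * (1 + C₁) * (N / Real.log w) := by
    have h9 : Real.exp (-((1 : ℕ) : ℝ)) ≤ 1 := by
      rw [Real.exp_le_one_iff]
      norm_num
    have h10 : 1 + C₁ * Real.exp (-((1 : ℕ) : ℝ)) ≤ 1 + C₁ := by nlinarith
    have h11 : 0 ≤ 1 + C₁ * Real.exp (-((1 : ℕ) : ℝ)) := by positivity
    calc (N : ℝ) * (VP (fun p => 1 / (p : ℝ)) (PI 0 w) * (1 + C₁ * Real.exp (-((1 : ℕ) : ℝ))))
        ≤ N * (C₂ / Real.log w * (1 + C₁)) := by
          refine mul_le_mul_of_nonneg_left ?_ (Nat.cast_nonneg N)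
          exact mul_le_mul h5 h10 h11 (by positivity)
      _ = C₂ * (1 + C₁) * (N / Real.log w) := by ring
  calc _ ≤ _ := h3
    _ ≤ _ := h4
    _ ≤ C₂ * (1 + C₁) * (N / Real.log w) + N / Real.log w := add_le_add h8 h6
    _ = (C₂ * (1 + C₁) + 1) * (N / Real.log w) := by ring

/-- PROOF. `z > N`: only `n = 1` counts. `z ≤ N`, `z ≤ N^(1/10)`: `M58.rough_upper` with `b = 1`:
`≤ N V(z) (1 + C₁) + z^9 ≤ C N / log z + N^(9/10)` (`M58.VP_inv`), `N^(9/10) ≤ C N / log N ≤ C N / log z`.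
`N^(1/10) < z ≤ N`: `rh z n ≤ rh w n` with `w = max 2 (N^(1/10))` if `w ≤ z` (for `N < 2^10` everything is bounded, use
`rh ≤ 1`), `≤ C N / log w ≤ 10 C N / log N ≤ 10 C N / log z`. -/
theorem rough_all : ∃ C : ℝ, 0 < C ∧ ∀ (z : ℝ) (N : ℕ), 2 ≤ z →
    ∑ n ∈ Icc 1 N, Pool.Agent.M58.rh z n ≤ 1 + C * (N / Real.log z) := by
  obtain ⟨K, hK, h⟩ := DD4_small
  refine ⟨10 * K + 7, by positivity, fun z N hz => ?_⟩
  have hlz : 0 < Real.log z := Real.log_pos (by linarith)
  have hq : 0 ≤ (N : ℝ) / Real.log z := by positivity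
  rcases lt_or_ge (N : ℝ) z with hzN | hzN
  · have h1 : ∑ n ∈ Icc 1 N, Pool.Agent.M58.rh z n ≤ ∑ n ∈ Icc 1 N, if n = 1 then (1 : ℝ) else 0 := by
      refine sum_le_sum fun n hn => ?_
      rw [mem_Icc] at hn
      split_ifs with hn1
      · exact Pool.Agent.M58.VC_rh_le z n
      · by_contra hcon
        have h2 : Pool.Agent.M58.rh z n ≠ 0 := fun h3 => hcon (le_of_eq h3)
        obtain ⟨-, h3, h4⟩ := Pool.Agent.M58.VC_rh_one h2
        have h5 := Nat.minFac_prime hn1
        have h6 : n.minFac ∈ n.primeFactors :=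
          Nat.mem_primeFactors.2 ⟨h5, Nat.minFac_dvd n, h3⟩
        have h7 := h4 _ h6
        have h8 : n.minFac ≤ N := (Nat.minFac_le (by omega)).trans hn.2
        have h9 : (n.minFac : ℝ) ≤ N := by exact_mod_cast h8
        linarith
    have h2 : ∑ n ∈ Icc 1 N, (if n = 1 then (1 : ℝ) else 0) ≤ 1 := by
      rw [sum_ite_eq']
      split_ifs <;> norm_num
    have h3 : 0 ≤ (10 * K + 7) * ((N : ℝ) / Real.log z) := by positivity
    linarith
  · have hN0 : (0 : ℝ) < N := by linarith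
    have key : ∑ n ∈ Icc 1 N, Pool.Agent.M58.rh z n ≤ (10 * K + 7) * ((N : ℝ) / Real.log z) := by
      rcases le_or_gt (z ^ 10) (N : ℝ) with h10 | h10
      · have h1 := h z N hz h10
        nlinarith
      · rcases le_or_gt (2 ^ 10 : ℝ) (N : ℝ) with hb | hb
        · obtain ⟨w, hw⟩ : ∃ w : ℝ, w = (N : ℝ) ^ (((10 : ℕ) : ℝ)⁻¹) := ⟨_, rfl⟩
          have hw0 : 0 ≤ w := by
            rw [hw]
            positivity
          have hw10 : w ^ 10 = N := by
            rw [hw]
            exact Real.rpow_inv_natCast_pow hN0.le (by norm_num)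
          have hw2 : 2 ≤ w := by
            by_contra hcon
            push Not at hcon
            have h1 : w ^ 10 < 2 ^ 10 := pow_lt_pow_left₀ hcon hw0 (by norm_num)
            linarith
          have hwz : w ≤ z := by
            by_contra hcon
            push Not at hcon
            have h1 : z ^ 10 < w ^ 10 := pow_lt_pow_left₀ hcon (by linarith) (by norm_num)
            linarith
          have h1 := h w N hw2 (le_of_eq hw10)
          have h2 : ∑ n ∈ Icc 1 N, Pool.Agent.M58.rh z n ≤ ∑ n ∈ Icc 1 N, Pool.Agent.M58.rh w n :=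
            sum_le_sum fun n _ => DD4_rh_mono hwz n
          have hlw : 0 < Real.log w := Real.log_pos (by linarith)
          have h3 : Real.log N = 10 * Real.log w := by
            rw [← hw10, Real.log_pow]
            norm_num
          have h4 : Real.log z ≤ 10 * Real.log w := by
            rw [← h3]
            exact Real.log_le_log (by linarith) hzN
          have h5 : (N : ℝ) / Real.log w ≤ 10 * ((N : ℝ) / Real.log z) := by
            rw [← mul_div_assoc, div_le_div_iff₀ hlw hlz]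
            nlinarith
          nlinarith
        · have h1 : ∑ n ∈ Icc 1 N, Pool.Agent.M58.rh z n ≤ N := by
            calc _ ≤ ∑ n ∈ Icc 1 N, (1 : ℝ) := sum_le_sum fun n _ => Pool.Agent.M58.VC_rh_le z n
              _ = N := by simp
          have h2 : Real.log z ≤ 7 := by
            have h3 : Real.log z ≤ Real.log (2 ^ 10) :=
              Real.log_le_log (by linarith) (hzN.trans hb.le)
            rw [Real.log_pow] at h3
            have := Real.log_two_lt_d9
            push_cast at h3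
            linarith
          have h3 : (N : ℝ) ≤ 7 * ((N : ℝ) / Real.log z) := by
            rw [← mul_div_assoc, le_div_iff₀ hlz]
            nlinarith
          nlinarith
    linarith

open Classical in
/-- the numbers in `[1, N]` all of whose prime factors are in `[z, y)` -/
def SR (z y : ℝ) (N : ℕ) : Finset ℕ :=
  (Icc 1 N).filter (fun n => ∀ p : ℕ, p.Prime → p ∣ n → z ≤ (p : ℝ) ∧ (p : ℝ) < y)

/-- PROOF. Every `n` counted by `Psi N y` is `n = m n'` where `m` is the product of the prime powers of `n`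
with primes `< z` and `n'` the rest; `m ∈ Sm z N` and `n' ∈ SR z y (N / m)`; `n ↦ (m, n')` is injective. -/
theorem psi_decomp (z y : ℝ) (N : ℕ) :
    (Psi N y : ℝ) ≤ ∑ m ∈ Sm z N, ((SR z y (N / m)).card : ℝ) := by
  classical
  have hT : Psi N y = ((Icc 1 N).filter
      (fun n => ∀ p : ℕ, p.Prime → p ∣ n → (p : ℝ) < y)).card := by
    unfold Psi
    rw [Nat.floor_natCast]
  have hsub : (Icc 1 N).filter (fun n => ∀ p : ℕ, p.Prime → p ∣ n → (p : ℝ) < y) ⊆
      (Sm z N).biUnion fun m => (SR z y (N / m)).image fun k => m * k := by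
    intro n hn
    rw [mem_filter, mem_Icc] at hn
    obtain ⟨⟨hn1, hnN⟩, hny⟩ := hn
    have hn0 : n ≠ 0 := by omega
    obtain ⟨m, hm⟩ : ∃ m : ℕ, m = ∏ p ∈ n.primeFactors.filter (fun p : ℕ => (p : ℝ) < z),
      p ^ n.factorization p := ⟨_, rfl⟩
    obtain ⟨k, hk⟩ : ∃ k : ℕ, k = ∏ p ∈ n.primeFactors.filter (fun p : ℕ => ¬ (p : ℝ) < z),
      p ^ n.factorization p := ⟨_, rfl⟩
    have hmk : m * k = n := by
      rw [hm, hk, prod_filter_mul_prod_filter_not]
      exact Nat.prod_factorization_pow_eq_self hn0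
    have hm0 : m ≠ 0 := by
      rintro rfl
      rw [zero_mul] at hmk
      exact hn0 hmk.symm
    have hk0 : k ≠ 0 := by
      rintro rfl
      rw [mul_zero] at hmk
      exact hn0 hmk.symm
    have hmn : m ≤ n := Nat.le_of_dvd hn1 ⟨k, hmk.symm⟩
    rw [mem_biUnion]
    refine ⟨m, ?_, ?_⟩
    · unfold Sm
      rw [mem_filter, mem_Icc]
      refine ⟨⟨Nat.one_le_iff_ne_zero.2 hm0, hmn.trans hnN⟩, fun p hp hpm => ?_⟩
      rw [hm] at hpm
      obtain ⟨q, hq, hpq⟩ := hp.prime.exists_mem_finset_dvd hpm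
      rw [mem_filter, Nat.mem_primeFactors] at hq
      rw [(Nat.prime_dvd_prime_iff_eq hp hq.1.1).1 (hp.dvd_of_dvd_pow hpq)]
      exact hq.2
    · rw [mem_image]
      refine ⟨k, ?_, hmk⟩
      unfold SR
      rw [mem_filter, mem_Icc]
      refine ⟨⟨Nat.one_le_iff_ne_zero.2 hk0, ?_⟩, fun p hp hpk => ⟨?_, ?_⟩⟩
      · rw [Nat.le_div_iff_mul_le (Nat.pos_of_ne_zero hm0), mul_comm, hmk]
        exact hnN
      · rw [hk] at hpk
        obtain ⟨q, hq, hpq⟩ := hp.prime.exists_mem_finset_dvd hpk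
        rw [mem_filter, Nat.mem_primeFactors] at hq
        rw [(Nat.prime_dvd_prime_iff_eq hp hq.1.1).1 (hp.dvd_of_dvd_pow hpq)]
        exact not_lt.1 hq.2
      · exact hny p hp (hpk.trans ⟨m, by rw [mul_comm]; exact hmk.symm⟩)
  rw [hT]
  have h1 := (card_le_card hsub).trans card_biUnion_le
  have h2 : ∑ m ∈ Sm z N, ((SR z y (N / m)).image fun k => m * k).card ≤
      ∑ m ∈ Sm z N, (SR z y (N / m)).card := sum_le_sum fun m _ => card_image_le
  exact_mod_cast h1.trans h2

end BG
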