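import Pool.Agent.W_aaa0df_v.DD1
import Pool.Agent.W_aaa0df_v.DD3
import Pool.Agent.W_aaa0df_v.DD4

/-!
# Theorem V with Dickman's function, DD2: a good scale
-/

set_option autoImplicit false

noncomputable section

open Finset Pool.Agent.Wb58c63

namespace BG

theorem DD2_SR (z y : ℝ) (M : ℕ) :
    ((SR z y M).card : ℝ) ≤ ∑ n ∈ Icc 1 M, Pool.Agent.M58.rh z n := by
  classical
  unfold SR
  rw [Finset.card_filter, Nat.cast_sum]
  refine Finset.sum_le_sum fun n hn => ?_
  split_ifs with h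
  · rw [mem_Icc] at hn
    rw [Pool.Agent.M58.VC_rh_eq_one (by omega) fun p hp =>
      (h p (Nat.prime_of_mem_primeFactors hp) (Nat.dvd_of_mem_primeFactors hp)).1]
    norm_num
  · rw [Nat.cast_zero]
    exact Pool.Agent.M58.VC_rh_nonneg z n

theorem DD2_VP (z : ℝ) : 0 ≤ VP (fun p => 1 / (p : ℝ)) (PI 0 z) := by
  unfold VP
  refine Finset.prod_nonneg fun p hp => ?_
  have h2 : (2 : ℝ) ≤ p := by exact_mod_cast (mem_PI.1 hp).1.two_le
  have h3 : (1 : ℝ) / p ≤ 1 := by
    rw [div_le_one (by linarith)]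
    linarith
  linarith

/-- A GOOD SCALE. PROOF. If `c₁ ≤ κ` take `m = 1` (`VP ≥ 0`: all `p ≥ 2`). Let `c₁ > κ` and suppose that no
`m ∈ [1, z^B]` has the property. `psi_decomp`; the part `m ≤ z^B`, `m ∈ Sm z N` is (strictly, it contains `m = 1`)
less than `∑_m (c₁ - κ) V N/m ≤ (c₁ - κ) N` by `smooth_recip`. For the other `m`: `SR z y M ⊆` rough numbers,
`rough_all`: `|SR z y (N/m)| ≤ 1 + C (N/m)/log z`, so that part is at most
`|Sm z N| + (C N / log z) C' e^(-B/4) log z ≤ √N + C'' N μ + C C' N e^(-B/4)` by `smooth_count`, `smooth_tail`. Choose `B`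
with `C C' e^(-B/4) ≤ κ/3`, `μ` with `C'' μ ≤ κ/3` and `N₀` with `√N ≤ (κ/3) N`, `N ≥ 2`. Together
`Psi N y < c₁ N`, a contradiction. -/
theorem good_scale (κ : ℝ) (hκ : 0 < κ) : ∃ (B : ℕ) (μ N₀ : ℝ), 0 < μ ∧
    ∀ (N : ℕ) (z y c₁ : ℝ), N₀ ≤ N → 2 ≤ z → Real.log z ≤ μ * Real.log N → c₁ * N ≤ Psi N y →
      ∃ m : ℕ, 1 ≤ m ∧ (m : ℝ) ≤ z ^ B ∧
        (c₁ - κ) * VP (fun p => 1 / (p : ℝ)) (PI 0 z) * ((N / m : ℕ) : ℝ) ≤
          ((SR z y (N / m)).card : ℝ) := by
  classical
  obtain ⟨C₁, hC₁, htail⟩ := smooth_tail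
  obtain ⟨C₂, hC₂, hcount⟩ := smooth_count
  obtain ⟨C₃, hC₃, hrough⟩ := rough_all
  obtain ⟨B, hB⟩ := exists_nat_ge (-4 * Real.log (κ / (4 * (C₁ * C₃))))
  have hBe : C₁ * C₃ * Real.exp (-(B : ℝ) / 4) ≤ κ / 4 := by
    have h1 : -(B : ℝ) / 4 ≤ Real.log (κ / (4 * (C₁ * C₃))) := by linarith
    have h2 : Real.exp (-(B : ℝ) / 4) ≤ κ / (4 * (C₁ * C₃)) := by
      refine (Real.exp_le_exp.2 h1).trans ?_
      rw [Real.exp_log (by positivity)]
    have h3 : C₁ * C₃ * Real.exp (-(B : ℝ) / 4) ≤ C₁ * C₃ * (κ / (4 * (C₁ * C₃))) :=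
      mul_le_mul_of_nonneg_left h2 (by positivity)
    refine h3.trans (le_of_eq ?_)
    field_simp
  refine ⟨B, κ / (4 * C₂), max 2 (16 / κ ^ 2), by positivity, ?_⟩
  intro N z y c₁ hN hz hlog hPsi
  have hN2 : (2 : ℝ) ≤ N := (le_max_left _ _).trans hN
  have hNκ : 16 / κ ^ 2 ≤ (N : ℝ) := (le_max_right _ _).trans hN
  have hN0 : (0 : ℝ) < N := by linarith
  have hlogN : 0 < Real.log N := Real.log_pos (by linarith)
  have hlogz : 0 < Real.log z := Real.log_pos (by linarith)
  have hV := DD2_VP z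
  rcases le_or_gt c₁ κ with hc | hc
  · refine ⟨1, le_refl 1, ?_, ?_⟩
    · rw [Nat.cast_one]
      exact one_le_pow₀ (by linarith)
    · have h1 : (c₁ - κ) * VP (fun p => 1 / (p : ℝ)) (PI 0 z) ≤ 0 :=
        mul_nonpos_of_nonpos_of_nonneg (by linarith) hV
      exact (mul_nonpos_of_nonpos_of_nonneg h1 (Nat.cast_nonneg _)).trans (Nat.cast_nonneg _)
  · by_contra hcon
    push Not at hcon
    have hmain := psi_decomp z y N
    rw [← Finset.sum_filter_add_sum_filter_not (Sm z N) (fun m : ℕ => z ^ B < (m : ℝ))] at hmain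
    -- first part
    have hp1 : ∑ m ∈ (Sm z N).filter (fun m : ℕ => ¬ z ^ B < (m : ℝ)),
        ((SR z y (N / m)).card : ℝ) ≤ (c₁ - κ) * N := by
      have h1 : ∀ m ∈ (Sm z N).filter (fun m : ℕ => ¬ z ^ B < (m : ℝ)),
          ((SR z y (N / m)).card : ℝ) ≤
            ((c₁ - κ) * N) * (VP (fun p => 1 / (p : ℝ)) (PI 0 z) * ((1 : ℝ) / m)) := by
        intro m hm
        rw [mem_filter, not_lt] at hm
        have hm1 : 1 ≤ m := by
          have h2 := hm.1
          unfold Sm at h2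
          rw [mem_filter, mem_Icc] at h2
          exact h2.1.1
        refine (hcon m hm1 hm.2).le.trans ?_
        have h3 : ((N / m : ℕ) : ℝ) ≤ (N : ℝ) / m := Nat.cast_div_le
        have h4 : (c₁ - κ) * VP (fun p => 1 / (p : ℝ)) (PI 0 z) * ((N / m : ℕ) : ℝ) ≤
            (c₁ - κ) * VP (fun p => 1 / (p : ℝ)) (PI 0 z) * ((N : ℝ) / m) :=
          mul_le_mul_of_nonneg_left h3 (mul_nonneg (by linarith) hV)
        refine h4.trans (le_of_eq ?_)
        ring
      refine (Finset.sum_le_sum h1).trans ?_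
      rw [← Finset.mul_sum, ← Finset.mul_sum]
      have h2 : VP (fun p => 1 / (p : ℝ)) (PI 0 z) *
          ∑ m ∈ (Sm z N).filter (fun m : ℕ => ¬ z ^ B < (m : ℝ)), (1 : ℝ) / m ≤ 1 := by
        refine le_trans ?_ (smooth_recip z hz N)
        rw [mul_comm]
        refine mul_le_mul_of_nonneg_right ?_ hV
        exact Finset.sum_le_sum_of_subset_of_nonneg (Finset.filter_subset _ _)
          fun m _ _ => by positivity
      have h3 : 0 ≤ (c₁ - κ) * N := mul_nonneg (by linarith) hN0.le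
      calc _ ≤ (c₁ - κ) * N * 1 := mul_le_mul_of_nonneg_left h2 h3
        _ = _ := mul_one _
    -- second part
    have hp2 : ∑ m ∈ (Sm z N).filter (fun m : ℕ => z ^ B < (m : ℝ)),
        ((SR z y (N / m)).card : ℝ) ≤ 3 * κ / 4 * N := by
      have h1 : ∀ m ∈ (Sm z N).filter (fun m : ℕ => z ^ B < (m : ℝ)),
          ((SR z y (N / m)).card : ℝ) ≤ 1 + C₃ * N / Real.log z * ((1 : ℝ) / m) := by
        intro m _
        refine (DD2_SR z y (N / m)).trans ((hrough z (N / m) hz).trans ?_)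
        have h3 : ((N / m : ℕ) : ℝ) ≤ (N : ℝ) / m := Nat.cast_div_le
        have h4 : C₃ * (((N / m : ℕ) : ℝ) / Real.log z) ≤ C₃ * ((N : ℝ) / m / Real.log z) := by
          gcongr
        have h5 : C₃ * ((N : ℝ) / m / Real.log z) = C₃ * N / Real.log z * ((1 : ℝ) / m) := by
          ring
        linarith
      refine (Finset.sum_le_sum h1).trans ?_
      rw [Finset.sum_add_distrib, ← Finset.mul_sum, Finset.sum_const, nsmul_eq_mul, mul_one]
      have h2 : ((((Sm z N).filter (fun m : ℕ => z ^ B < (m : ℝ))).card : ℕ) : ℝ) ≤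
          ((Sm z N).card : ℝ) := by
        exact_mod_cast Finset.card_le_card (Finset.filter_subset _ _)
      have h3 := hcount z N hz (by exact_mod_cast hN2)
      have h4 := htail z B N hz
      have h5 : C₃ * N / Real.log z *
          ∑ m ∈ (Sm z N).filter (fun m : ℕ => z ^ B < (m : ℝ)), (1 : ℝ) / m ≤ κ / 4 * N := by
        refine (mul_le_mul_of_nonneg_left h4 (by positivity)).trans ?_
        have h6 : C₃ * N / Real.log z * (C₁ * Real.exp (-(B : ℝ) / 4) * Real.log z) =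
            C₁ * C₃ * Real.exp (-(B : ℝ) / 4) * N := by
          field_simp
        rw [h6]
        exact mul_le_mul_of_nonneg_right hBe hN0.le
      have h7 : C₂ * (N * (Real.log z / Real.log N)) ≤ κ / 4 * N := by
        have h8 : Real.log z / Real.log N ≤ κ / (4 * C₂) := by
          rw [div_le_iff₀ hlogN]
          exact hlog
        have h9 : C₂ * (N * (Real.log z / Real.log N)) ≤ C₂ * (N * (κ / (4 * C₂))) := by
          gcongr
        refine h9.trans (le_of_eq ?_)
        field_simp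
      have h8 : Real.sqrt N ≤ κ / 4 * N := by
        have hs0 : 0 < Real.sqrt N := Real.sqrt_pos.2 hN0
        have hsq : Real.sqrt N * Real.sqrt N = N := Real.mul_self_sqrt hN0.le
        have h9 : 4 / κ ≤ Real.sqrt N := by
          refine Real.le_sqrt_of_sq_le ?_
          rw [div_pow]
          norm_num
          exact hNκ
        have h10 : 1 ≤ κ / 4 * Real.sqrt N := by
          have h11 : κ / 4 * (4 / κ) ≤ κ / 4 * Real.sqrt N :=
            mul_le_mul_of_nonneg_left h9 (by positivity)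
          have h12 : κ / 4 * (4 / κ) = 1 := by field_simp
          linarith
        have h13 : 1 * Real.sqrt N ≤ κ / 4 * Real.sqrt N * Real.sqrt N :=
          mul_le_mul_of_nonneg_right h10 hs0.le
        rw [one_mul, mul_assoc, hsq] at h13
        exact h13
      linarith
    have hpos : 0 < κ * N := mul_pos hκ hN0
    linarith

end BG
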