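import Pool.Agent.W_aaa0df_v.VG
import Pool.Agent.W_aaa0df_v.DD2

/-!
# Theorem V with Dickman's function, DE: few exceptions from the density of smooth numbers
-/

set_option autoImplicit false

noncomputable section

open Finset MPaaa0df Pool.Agent.Wb58c63

namespace BG

theorem DE_psi_mono (N : ℝ) {y y' : ℝ} (h : y ≤ y') : Psi N y ≤ Psi N y' := by
  classical
  unfold Psi
  apply Finset.card_le_card
  intro n hn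
  rw [Finset.mem_filter] at hn ⊢
  exact ⟨hn.1, fun p hp hpn => (hn.2 p hp hpn).trans_le h⟩

theorem DE_Gd (F : Finset ℤ) (z y : ℝ) (N : ℕ) :
    ((SR z y N).card : ℝ) - ∑ p ∈ Exc F z y, (N : ℝ) / p ≤ ((Gd F z y N).card : ℝ) := by
  classical
  have h1 : SR z y N ⊆ Gd F z y N ∪
      (Exc F z y).biUnion (fun p => (Icc 1 N).filter (fun n => p ∣ n)) := by
    intro n hn
    unfold SR at hn
    rw [mem_filter] at hn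
    rw [mem_union]
    by_cases h : ∃ p ∈ Exc F z y, p ∣ n
    · right
      obtain ⟨p, hp, hpn⟩ := h
      rw [mem_biUnion]
      exact ⟨p, hp, mem_filter.2 ⟨hn.1, hpn⟩⟩
    · left
      push Not at h
      unfold Gd
      rw [mem_filter]
      exact ⟨hn.1, fun p hp hpn =>
        ⟨(hn.2 p hp hpn).1, (hn.2 p hp hpn).2, fun hE => h p hE hpn⟩⟩
  have h2 := (Finset.card_le_card h1).trans
    ((Finset.card_union_le _ _).trans (Nat.add_le_add_left Finset.card_biUnion_le _))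
  have h3 : ((SR z y N).card : ℝ) ≤ ((Gd F z y N).card : ℝ) +
      ∑ p ∈ Exc F z y, (((Icc 1 N).filter (fun n => p ∣ n)).card : ℝ) := by
    exact_mod_cast h2
  have h4 : ∑ p ∈ Exc F z y, (((Icc 1 N).filter (fun n => p ∣ n)).card : ℝ) ≤
      ∑ p ∈ Exc F z y, (N : ℝ) / p := by
    refine sum_le_sum fun p hp => ?_
    rw [VF_mult]
    exact Nat.cast_div_le
  linarith

/-- The range of the correlations. -/
theorem DE_range {X ε c₀ : ℝ} {b B N m : ℕ} (hX : 1 ≤ X) (hε : 0 < ε)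
    (hc : c₀ * (4 * ((b + B : ℕ) : ℝ) + 8) ≤ ε / 2) (hc₀ : 0 < c₀) (g3 : 2 ≤ X ^ c₀)
    (g6 : 3 ≤ X ^ (ε / 2)) (hN : X ^ (1 / 2 + 2 * ε) - 1 < N) (hm : 1 ≤ m)
    (hmz : (m : ℝ) ≤ (X ^ c₀) ^ B) (D : ℕ) (hD1 : 1 ≤ D)
    (hDZ : (D : ℝ) ≤ (X ^ c₀) ^ (4 * b + 5)) :
    X ^ (1 / 2 + ε) ≤ ((N / m / D : ℕ) : ℝ) := by
  have h1 : 1 ≤ m * D := Nat.mul_pos hm hD1
  have h2 : ((m * D : ℕ) : ℝ) ≤ (X ^ c₀) ^ (4 * (b + B) + 5) := by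
    rw [Nat.cast_mul]
    have h3 : (m : ℝ) * D ≤ (X ^ c₀) ^ B * (X ^ c₀) ^ (4 * b + 5) :=
      mul_le_mul hmz hDZ (Nat.cast_nonneg D) (by positivity)
    refine h3.trans ?_
    rw [← pow_add]
    exact pow_le_pow_right₀ (by linarith only [g3]) (by omega)
  have h3 := VG_range hX hε hc hc₀ g6 hN (m * D) h1 h2
  rw [Nat.div_div_eq_div_mul]
  exact h3

/-- The correlations. -/
theorem DE_cor {F : Finset ℤ} {X ε c₀ δ X₁ : ℝ} {b B N m : ℕ} (hX : 1 ≤ X) (hε : 0 < ε)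
    (hcorr : ∀ X : ℝ, X₁ ≤ X → ∀ d d' : ℤ,
      Twist.Fund d → Twist.Fund d' → d ≠ d' → |(d : ℝ)| ≤ X → |(d' : ℝ)| ≤ X → ∀ K : ℕ,
      X ^ (1 / 2 + ε) ≤ K →
      |∑ k ∈ Icc 1 K, (chi d k : ℝ) * (chi d' k : ℝ)| ≤ K * X ^ (-δ)) (hX₁ : X₁ ≤ X)
    (hF : ∀ d ∈ F, Twist.Fund d ∧ |(d : ℝ)| ≤ X)
    (hc : c₀ * (4 * ((b + B : ℕ) : ℝ) + 8) ≤ ε / 2) (hc₀ : 0 < c₀) (g3 : 2 ≤ X ^ c₀)
    (g6 : 3 ≤ X ^ (ε / 2)) (hN : X ^ (1 / 2 + 2 * ε) - 1 < N) (hm : 1 ≤ m)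
    (hmz : (m : ℝ) ≤ (X ^ c₀) ^ B) :
    ∀ d ∈ F, ∀ d' ∈ F, d ≠ d' →
      |∑ n ∈ Icc 1 (N / m), Pool.Agent.M58.tp' (X ^ c₀) b n *
        ((chi d n : ℝ) * (chi d' n : ℝ))| ≤
        (X ^ c₀) ^ (4 * b + 5) * (((N / m : ℕ) : ℝ) * X ^ (-δ)) := by
  intro d hd d' hd' hne
  refine Pool.Agent.M58.tp_corr (X ^ c₀) b (N / m) g3
    (fun n => (chi d n : ℝ) * (chi d' n : ℝ)) ?_ ?_
    (X ^ (-δ)) (Real.rpow_nonneg (by linarith only [hX]) _) (X ^ (1 / 2 + ε)) ?_ ?_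
  · intro k' n
    rw [chi_mul, chi_mul]
    push_cast
    ring
  · intro n
    rw [abs_mul]
    exact mul_le_one₀ (C3_abs d n) (abs_nonneg _) (C3_abs d' n)
  · exact fun D hD1 hDZ => DE_range hX hε hc hc₀ g3 g6 hN hm hmz D hD1 hDZ
  · intro k' hk'
    exact hcorr X hX₁ d d' (hF d hd).1 (hF d' hd').1 hne (hF d hd).2 (hF d' hd').2 k' hk'

/-- The contradiction for fixed large `X`. -/
theorem DE_fix {k : ℕ} (hk : 1 ≤ k) {κ C₁ C₂ cV CV c₀ c₁ X ℓ z y Q A8 B38 Dδ Dδ' : ℝ} {b N : ℕ}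
    {F : Finset ℤ} (hcard : F.card = 2 * k + 1) (hb1 : 1 ≤ b)
    (hκ : 0 < κ) (hc₀ : 0 < c₀) (hcV : 0 < cV) (hC₁ : 1 ≤ C₁) (hC₂ : 1 ≤ C₂)
    (hc₁ : 1 / (2 * (k : ℝ) + 1 + 1) + 20 * κ ≤ c₁)
    (hb : 4 * (C₁ + C₂ + 0) * Real.exp (-(b : ℝ)) ≤ κ)
    (hup : ∀ (z : ℝ) (b N : ℕ), 2 ≤ z → 1 ≤ b →
      ∑ n ∈ Icc 1 N, Pool.Agent.M58.rh z n ≤ ∑ n ∈ Icc 1 N, Pool.Agent.M58.tp' z b n ∧
      ∑ n ∈ Icc 1 N, Pool.Agent.M58.tp' z b n ≤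
        N * (VP (fun p => 1 / (p : ℝ)) (PI 0 z) *
          (1 + C₁ * Real.exp (-b))) + z ^ (4 * b + 5))
    (hlow : ∀ (z : ℝ) (b N : ℕ), 2 ≤ z → 1 ≤ b →
      N * (VP (fun p => 1 / (p : ℝ)) (PI 0 z) *
        (1 - C₂ * Real.exp (-b))) - C₂ * Real.log z * z ^ (4 * b + 5) ≤
          ∑ n ∈ Icc 1 N, Pool.Agent.M58.rh z n)
    (hVP : ∀ z : ℝ, 2 ≤ z → cV / Real.log z ≤
      VP (fun p => 1 / (p : ℝ)) (PI 0 z) ∧
      VP (fun p => 1 / (p : ℝ)) (PI 0 z) ≤ CV / Real.log z)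
    (g2 : 1 ≤ X) (hℓ : ℓ = Real.log X) (hℓ0 : 0 < ℓ) (g3 : 2 ≤ z)
    (hlz : Real.log z = c₀ * ℓ) (hN1 : 1 ≤ (N : ℝ)) (hX48 : A8 * B38 ≤ N)
    (hZ8 : z ^ (4 * b + 5) ≤ A8) (hB0' : 0 < B38) (hZδ : z ^ (4 * b + 5) ≤ Dδ)
    (hDD : Dδ * Dδ' * Dδ = 1) (hD0 : 0 < Dδ) (hD0' : 0 < Dδ') (hQz : Q * Q = z) (hQ0 : 0 < Q)
    (g8 : 8 * c₀ / (κ * cV) * ℓ * (C₂ * (c₀ * ℓ)) ≤ B38)
    (g9 : 8 * c₀ / (κ * cV) * ℓ * 1 ≤ B38)
    (g11 : 2 * ℓ ≤ Q)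
    (g12 : 8 * c₀ / (κ * cV) * ℓ * (2 * (2 * (k : ℝ) + 1)) ≤ Q)
    (g13 : 8 * c₀ / (κ * cV) * ℓ * 1 ≤ Dδ)
    (hF : ∀ d ∈ F, Twist.Fund d ∧ |(d : ℝ)| ≤ X ∧ (splitCount d y : ℝ) < Q)
    (hcor : ∀ d ∈ F, ∀ d' ∈ F, d ≠ d' →
      |∑ n ∈ Icc 1 N, Pool.Agent.M58.tp' z b n * ((chi d n : ℝ) * (chi d' n : ℝ))| ≤
        z ^ (4 * b + 5) * (N * Dδ'))
    (hSR : (c₁ - κ) * VP (fun p => 1 / (p : ℝ)) (PI 0 z) * (N : ℝ) ≤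
      ((SR z y N).card : ℝ)) : False := by
  have hexc : ∀ d ∈ F, Twist.Fund d ∧ |(d : ℝ)| ≤ X ∧ (splitCount d y : ℝ) ≤ Q :=
    fun d hd => ⟨(hF d hd).1, (hF d hd).2.1, (hF d hd).2.2.le⟩
  have hRc := card_Rc F X z N g2 g3 (fun d hd => ⟨(hF d hd).1, (hF d hd).2.1⟩)
  have hN0 : (0 : ℝ) < N := by linarith only [hN1]
  have hcard' : (F.card : ℝ) = 2 * (k : ℝ) + 1 := by rw [hcard]; push_cast; rfl
  have hk1 : (1 : ℝ) ≤ k := by exact_mod_cast hk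
  have hz0 : 0 < z := by linarith only [g3]
  have hG := DE_Gd F z y N
  obtain ⟨hRT, hTp⟩ := hup z b N g3 hb1
  have hR := hlow z b N g3 hb1
  obtain ⟨hV, -⟩ := hVP z g3
  clear hup hlow hVP
  obtain ⟨M, hM⟩ : ∃ M : ℝ, M = 2 * (k : ℝ) + 1 := ⟨_, rfl⟩
  rw [← hℓ] at hRc
  rw [← hM] at hcard' hc₁ g12
  rw [hlz] at hV
  have hM3 : 3 ≤ M := by linarith only [hM, hk1]
  obtain ⟨t, ht⟩ : ∃ t, t = cV / (c₀ * ℓ) := ⟨_, rfl⟩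
  rw [← ht] at hV
  have ht0 : 0 < t := by rw [ht]; positivity
  generalize VP (fun p => 1 / (p : ℝ)) (PI 0 z) = V at hV hTp hR hSR
  have hV0 : 0 < V := by linarith only [hV, ht0]
  obtain ⟨W, hW⟩ : ∃ W : ℝ, W = N * V := ⟨_, rfl⟩
  have hW0 : 0 < W := by rw [hW]; positivity
  have hWt : N * t ≤ W := by rw [hW]; exact mul_le_mul_of_nonneg_left hV hN0.le
  have hZ0 : 0 ≤ z ^ (4 * b + 5) := pow_nonneg hz0.le _
  have q8 := VG_q hκ hcV hc₀ hℓ0 ht g8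
  have q9 := VG_q hκ hcV hc₀ hℓ0 ht g9
  have q12 := VG_q hκ hcV hc₀ hℓ0 ht g12
  have q13 := VG_q hκ hcV hc₀ hℓ0 ht g13
  clear g8 g9 g12 g13
  have e1 : C₂ * Real.log z * z ^ (4 * b + 5) ≤ κ / 8 * W := by
    rw [hlz]
    exact VG_err1 hκ ht0 hWt hZ0 hB0' q8 hZ8 hX48
  have e5 : z ^ (4 * b + 5) ≤ κ / 8 * W := by
    have := VG_err1 hκ ht0 hWt hZ0 hB0' q9 hZ8 hX48
    rwa [one_mul] at this
  have e6 := VG_err6 hκ hN0.le hWt hD0 hD0' hDD hZδ q13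
  have e4 := VG_Ex (y := y) g2 (by linarith only [hM3]) hcard' hexc hκ hN0.le hWt hz0 hQ0 hQz
    (hℓ ▸ g11) q12
  have e9 : M * (2 * ℓ) * ((N : ℝ) / z) ≤ κ / 8 * W := by
    refine VG_err4 hκ hN0.le hWt hz0 hQ0 hQz ?_ q12
    have h1 := mul_le_mul_of_nonneg_left g11 (show (0 : ℝ) ≤ M by linarith only [hM3])
    have h2 : 0 ≤ M * Q := mul_nonneg (by linarith only [hM3]) hQ0.le
    linarith only [h1, h2]
  have hbes := bessel_odd F ⟨k, hcard⟩ z y g3 b N (z ^ (4 * b + 5) * (N * Dδ'))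
    (mul_nonneg hZ0 (mul_nonneg hN0.le hD0'.le)) hcor
  rw [hcard'] at hbes hRc
  have he0 : 0 < Real.exp (-(b : ℝ)) := Real.exp_pos _
  have hTp' : ∑ n ∈ Icc 1 N, Pool.Agent.M58.tp' z b n ≤
      W * (1 + C₁ * Real.exp (-(b : ℝ))) + κ / 8 * W := by
    refine hTp.trans ?_
    have h1 : (N : ℝ) * (V * (1 + C₁ * Real.exp (-(b : ℝ)))) =
        W * (1 + C₁ * Real.exp (-(b : ℝ))) := by rw [hW]; ring
    rw [h1]
    linarith only [e5]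
  generalize Real.exp (-(b : ℝ)) = e at hb hR he0 hTp'
  refine VG_alg (M := M) (W := W) (C1 := C₁) (C2 := C₂) (C3 := 0) (e := e)
    (κ := κ) (lu := 1 - 1 / (M + 1) - 16 * κ) hM3 hW0 hκ he0.le
    (by linarith only [hC₁]) (by linarith only [hC₂])
    le_rfl hb hbes hRc e9 hTp' e6 (R := ∑ n ∈ Icc 1 N, Pool.Agent.M58.rh z n)
    (Far := ∑ n ∈ Icc 1 N, Pool.Agent.M58.rh z n - ((SR z y N).card : ℝ))
    (Near := 0)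
    (Ex := ∑ p ∈ Exc F z y, (N : ℝ) / p) ?_ ?_ ?_ (by positivity) e4 le_rfl
  · linarith only [hG]
  · refine le_trans ?_ hR
    have h1 : (N : ℝ) * (V * (1 - C₂ * e)) = W * (1 - C₂ * e) := by rw [hW]; ring
    rw [h1]
    linarith only [e1]
  · have h1 : (c₁ - κ) * V * (N : ℝ) = W * (c₁ - κ) := by rw [hW]; ring
    rw [h1] at hSR
    have h2 : C₁ * e ≤ κ / 4 := by
      have h3 : 0 ≤ C₂ * e := mul_nonneg (by linarith only [hC₂]) he0.le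
      linarith only [h3, hb]
    have h3 : W * (1 + C₁ * e) + κ / 8 * W - W * (c₁ - κ) ≤
        W * ((1 + 0 * e) * (1 - 1 / (M + 1) - 16 * κ + κ / 8)) + κ / 8 * W := by
      have h4 : W * (1 + C₁ * e - (c₁ - κ)) ≤
          W * (1 - 1 / (M + 1) - 16 * κ + κ / 8) := by
        apply mul_le_mul_of_nonneg_left _ hW0.le
        linarith only [h2, hc₁, hκ]
      linarith only [h4]
    linarith only [h3, hRT, hTp', hSR]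

theorem DE_main (k : ℕ) (hk : 1 ≤ k) (θ θ' c₁ : ℝ) (hθ' : 0 < θ') (hθθ' : θ' < θ)
    (hc : 1 / (2 * (k : ℝ) + 2) < c₁)
    (hΨ : ∃ N₀ : ℝ, ∀ N : ℕ, N₀ ≤ N → c₁ * N ≤ Psi N ((N : ℝ) ^ (2 * θ'))) :
    ∃ c X₀ : ℝ, 0 < c ∧ ∀ X : ℝ, X₀ ≤ X → ∀ F : Finset ℤ,
      (∀ d ∈ F, Twist.Fund d ∧ |(d : ℝ)| ≤ X ∧ (splitCount d (X ^ θ) : ℝ) < X ^ c) →
      F.card = 2 * k + 1 → False := by
  obtain ⟨N₁, hΨ⟩ := hΨ
  obtain ⟨κ, hκdef⟩ : ∃ κ : ℝ, κ = (c₁ - 1 / (2 * (k : ℝ) + 1 + 1)) / 20 := ⟨_, rfl⟩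
  have hκ : 0 < κ := by
    have h1 : 2 * (k : ℝ) + 1 + 1 = 2 * (k : ℝ) + 2 := by ring
    rw [hκdef, h1]
    linarith only [hc]
  have hc₁ : 1 / (2 * (k : ℝ) + 1 + 1) + 20 * κ ≤ c₁ := by
    rw [hκdef]
    linarith only
  obtain ⟨B, μ, N₂, hμ, hgs⟩ := good_scale κ hκ
  obtain ⟨ε, hε, hε'⟩ : ∃ ε : ℝ, 0 < ε ∧ θ' * (1 + 4 * ε) ≤ θ := by
    refine ⟨(θ - θ') / (4 * θ'), div_pos (by linarith) (by linarith), le_of_eq ?_⟩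
    field_simp
    ring
  obtain ⟨δ, X₁, hδ, hcorr⟩ := corr ε hε
  obtain ⟨C₁, hC₁, hup⟩ := Pool.Agent.M58.rough_upper
  obtain ⟨C₂, hC₂, hlow⟩ := Pool.Agent.M58.rough_lower
  obtain ⟨cV, CV, hcV, -, hVP⟩ := Pool.Agent.M58.VP_inv
  obtain ⟨b, hb1, hb⟩ := VG_b (C₁ + C₂ + 0) κ (by linarith only [hC₁, hC₂]) hκ
  obtain ⟨c₀, hc₀, hμ1, hμ2, hμ3, hμ4⟩ := VG_c0 (ε / 2) (δ / 2) (μ / 2)
    (4 * ((b + B : ℕ) : ℝ) + 8) (by positivity) (by positivity) (by positivity) (by positivity)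
  obtain ⟨A, hA⟩ : ∃ A : ℝ, A = 8 * c₀ / (κ * cV) := ⟨_, rfl⟩
  have hA0 : 0 ≤ A := by rw [hA]; positivity
  have hC20 : 0 ≤ C₂ := by linarith only [hC₂]
  have hk0 : (0 : ℝ) ≤ 2 * (2 * (k : ℝ) + 1) := by positivity
  have hev : ∀ᶠ X : ℝ in Filter.atTop, X₁ ≤ X ∧ 1 ≤ X ∧ 2 ≤ X ^ c₀ ∧ N₁ ≤ X ^ (1 / 2 : ℝ) ∧
      2 ≤ X ^ (2 * ε) ∧ 3 ≤ X ^ (ε / 2) ∧
      A * C₂ * c₀ * Real.log X ^ 2 ≤ X ^ (3 / 8 : ℝ) ∧
      A * Real.log X ^ 1 ≤ X ^ (3 / 8 : ℝ) ∧ N₂ ≤ X ^ (1 / 2 : ℝ) ∧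
      2 * Real.log X ^ 1 ≤ X ^ (c₀ / 2) ∧
      A * (2 * (2 * (k : ℝ) + 1)) * Real.log X ^ 1 ≤ X ^ (c₀ / 2) ∧
      A * Real.log X ^ 1 ≤ X ^ (δ / 2) ∧
      1 ≤ Real.log X := by
    filter_upwards [Filter.eventually_ge_atTop X₁, Filter.eventually_ge_atTop (1 : ℝ),
      (tendsto_rpow_atTop hc₀).eventually_ge_atTop 2,
      (tendsto_rpow_atTop (show (0 : ℝ) < 1 / 2 by norm_num)).eventually_ge_atTop N₁,
      (tendsto_rpow_atTop (show 0 < 2 * ε by linarith only [hε])).eventually_ge_atTop 2,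
      (tendsto_rpow_atTop (show 0 < ε / 2 by linarith only [hε])).eventually_ge_atTop 3,
      VG_ev 2 (A * C₂ * c₀) (3 / 8) (mul_nonneg (mul_nonneg hA0 hC20) hc₀.le) (by norm_num),
      VG_ev 1 A (3 / 8) hA0 (by norm_num),
      (tendsto_rpow_atTop (show (0 : ℝ) < 1 / 2 by norm_num)).eventually_ge_atTop N₂,
      VG_ev 1 2 (c₀ / 2) (by norm_num) (by linarith only [hc₀]),
      VG_ev 1 (A * (2 * (2 * (k : ℝ) + 1))) (c₀ / 2) (mul_nonneg hA0 hk0)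
        (by linarith only [hc₀]),
      VG_ev 1 A (δ / 2) hA0 (by linarith only [hδ]),
      Real.tendsto_log_atTop.eventually_ge_atTop 1] with X
      h1 h2 h3 h4 h5 h6 h8 h9 h10 h11 h12 h13 h14
    exact ⟨h1, h2, h3, h4, h5, h6, h8, h9, h10, h11, h12, h13, h14⟩
  obtain ⟨X₀, hX₀⟩ := Filter.eventually_atTop.1 hev
  refine ⟨c₀ / 2, X₀, by linarith only [hc₀], fun X hX F hF hcard => ?_⟩
  obtain ⟨g1, g2, g3, g4, g5, g6, g8, g9, g10, g11, g12, g13, g14⟩ := hX₀ X hX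
  clear hX₀ hev
  rw [pow_one] at g9 g11 g12 g13
  rw [hA] at g8 g9 g12 g13
  have hX0 : 0 < X := by linarith only [g2]
  have hℓ0 : 0 < Real.log X := by linarith only [g14]
  obtain ⟨N, -, hNgt, hN12, hlN, hlN', -, -, -, -, -, -⟩ :=
    VG_sizes X ε c₀ (b + B) g2 hc₀ hμ3 g3 g5
  have hX1 : 1 ≤ X ^ (1 / 2 : ℝ) := Real.one_le_rpow g2 (by norm_num)
  have hN0 : (0 : ℝ) < N := by linarith only [hN12, hX1]
  have hlz : Real.log (X ^ c₀) = c₀ * Real.log X := Real.log_rpow hX0 _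
  -- the good scale
  have hy : (N : ℝ) ^ (2 * θ') ≤ X ^ θ := by
    rw [Real.rpow_def_of_pos hN0, Real.rpow_def_of_pos hX0]
    apply Real.exp_le_exp.2
    have h1 : Real.log N * (2 * θ') ≤ (1 / 2 + 2 * ε) * Real.log X * (2 * θ') :=
      mul_le_mul_of_nonneg_right hlN' (by linarith only [hθ'])
    have h2 : θ' * (1 + 4 * ε) * Real.log X ≤ θ * Real.log X :=
      mul_le_mul_of_nonneg_right hε' hℓ0.le
    linarith only [h1, h2]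
  have hP : c₁ * N ≤ Psi N (X ^ θ) := by
    refine (hΨ N (g4.trans hN12)).trans ?_
    exact_mod_cast DE_psi_mono N hy
  have hlogz : Real.log (X ^ c₀) ≤ μ * Real.log N := by
    rw [hlz]
    have h1 : c₀ ≤ μ / 2 := by
      refine le_trans ?_ hμ4
      have h2 : (1 : ℝ) ≤ 4 * ((b + B : ℕ) : ℝ) + 8 := by
        have h3 : (0 : ℝ) ≤ ((b + B : ℕ) : ℝ) := Nat.cast_nonneg _
        linarith only [h3]
      calc c₀ = c₀ * 1 := (mul_one _).symm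
        _ ≤ _ := mul_le_mul_of_nonneg_left h2 hc₀.le
    have h2 := mul_le_mul_of_nonneg_right h1 hℓ0.le
    have h3 := mul_le_mul_of_nonneg_left hlN hμ.le
    linarith only [h2, h3]
  obtain ⟨m, hm1, hmz, hSR⟩ := hgs N (X ^ c₀) (X ^ θ) c₁ (g10.trans hN12) g3 hlogz hP
  have hcor := DE_cor g2 hε hcorr g1 (fun d hd => ⟨(hF d hd).1, (hF d hd).2.1⟩) hμ1 hc₀ g3 g6
    hNgt hm1 hmz
  have hN' : X ^ (1 / 2 : ℝ) ≤ ((N / m : ℕ) : ℝ) := by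
    have h1 := DE_range g2 hε hμ1 hc₀ g3 g6 hNgt hm1 hmz 1 le_rfl (by
      rw [Nat.cast_one]
      exact one_le_pow₀ (by linarith only [g3]))
    rw [Nat.div_one] at h1
    refine le_trans ?_ h1
    exact Real.rpow_le_rpow_of_exponent_le g2 (by linarith only [hε])
  have hbB : (b : ℝ) ≤ ((b + B : ℕ) : ℝ) := by
    push_cast
    have : (0 : ℝ) ≤ B := Nat.cast_nonneg _
    linarith only [this]
  have hz1 : (X ^ c₀) ^ (4 * b + 5) = X ^ (c₀ * (4 * b + 5)) := by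
    rw [← Real.rpow_natCast, ← Real.rpow_mul hX0.le]
    push_cast
    rfl
  have hle5 : c₀ * (4 * (b : ℝ) + 5) ≤ c₀ * (4 * ((b + B : ℕ) : ℝ) + 8) :=
    mul_le_mul_of_nonneg_left (by linarith only [hbB]) hc₀.le
  refine DE_fix (X := X) (ℓ := Real.log X) (z := X ^ c₀) (y := X ^ θ) (Q := X ^ (c₀ / 2))
    (A8 := X ^ (1 / 8 : ℝ)) (B38 := X ^ (3 / 8 : ℝ)) (Dδ := X ^ (δ / 2)) (Dδ' := X ^ (-δ))
    (N := N / m) hk hcard hb1 hκ hc₀ hcV hC₁ hC₂ hc₁ hb hup hlow hVP g2 rfl hℓ0 g3 hlz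
    (hX1.trans hN') ?_ ?_ (Real.rpow_pos_of_pos hX0 _) ?_ ?_ (Real.rpow_pos_of_pos hX0 _)
    (Real.rpow_pos_of_pos hX0 _) ?_ (Real.rpow_pos_of_pos hX0 _) ?_ ?_ g11 ?_ ?_ hF hcor hSR
  · rw [← Real.rpow_add hX0]
    norm_num
    exact hN'
  · rw [hz1]
    exact Real.rpow_le_rpow_of_exponent_le g2 (hle5.trans hμ3)
  · rw [hz1]
    exact Real.rpow_le_rpow_of_exponent_le g2 (hle5.trans hμ2)
  · rw [← Real.rpow_add hX0, ← Real.rpow_add hX0]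
    have : δ / 2 + -δ + δ / 2 = 0 := by ring
    rw [this, Real.rpow_zero]
  · rw [← Real.rpow_add hX0]
    congr 1
    ring
  · refine le_trans (le_of_eq ?_) g8
    ring
  · rw [mul_one]; exact g9
  · refine le_trans (le_of_eq ?_) g12
    ring
  · rw [mul_one]; exact g13

/-- THEOREM V with the density of smooth numbers.

PROOF. The proof of `few_exceptions_odd` (VG, VG0) with `SR` in place of the far and near parts. `M = 2k+1`,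
`κ = (c₁ - 1/(M+1))/20` (we may assume `c₁ ≤ 1` since `Psi N y ≤ N`; take `N = N₀`-large). `good_scale κ` gives `B₀, μ₀`.
Choose `ε ∈ (0, 1/16]` with `θ' (1 + 4ε) ≤ θ`; `corr ε` gives `δ`; `b` with `C e^(-b)` small against `κ`; `c₀ > 0` with
`c₀ (B₀ + 4b + 8) ≤ min (ε/2) (δ/2) 1/8` and `c₀ ≤ μ₀/4`; `z = X^c₀`, `c = c₀/2`, `y = X^θ`,
`N = ⌊X^(1/2+2ε)⌋₊`: `N^(2θ') ≤ X^((1+4ε)θ') ≤ y`, so `c₁ N ≤ Psi N y` (`Psi` is monotone in `y`) and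
`log z = c₀ log X ≤ μ₀ log N`. `good_scale`: `m ≤ z^B₀` with `(c₁ - κ) V N' ≤ |SR z y N'|`, `N' = N/m`,
`N' ≥ X^(1/2+3ε/2) - 2 ≥ 3 X^(1/2+ε) z^(4b+5)`-type bounds (`z^(B₀+4b+8) ≤ X^(ε/2)`), so all estimates of VG hold at `N'`:
`tp_corr` + `corr` (correlations `≤ z^(4b+5) N' X^(-δ)`), `bessel_odd`, `card_Rc`, `rough_upper`,
`rough_lower`. `SR z y N' \ Gd F z y N'` consists of multiples of primes of `Exc F z y`: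
`|Gd| ≥ |SR| - ∑_{p ∈ Exc} N'/p`. With `W = N' V`: `|Gd| ≥ (c₁ - κ) W - (κ/8) W`, `|Rc| ≥ W (1 - C₂ e^(-b)) - (κ/4) W`,
`∑ tp' ≤ W (1 + C₁ e^(-b)) + (κ/8) W`, so
`(M² - 1)(c₁ - 9κ/8) + 1 - κ ≤ M (1 + κ) + M² κ/8`, hence `c₁ ≤ (M-1)/(M²-1) + 5κ = 1/(M+1) + 5κ`, a contradiction
(use `M ≥ 3`). -/
theorem few_exceptions_smooth (k : ℕ) (hk : 1 ≤ k) (θ θ' c₁ : ℝ) (hθ' : 0 < θ') (hθθ' : θ' < θ)
    (hc : 1 / (2 * (k : ℝ) + 2) < c₁)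
    (hΨ : ∃ N₀ : ℝ, ∀ N : ℕ, N₀ ≤ N → c₁ * N ≤ Psi N ((N : ℝ) ^ (2 * θ'))) :
    ∃ c X₀ : ℝ, 0 < c ∧ ∀ X : ℝ, X₀ ≤ X → ∀ F : Finset ℤ,
      (∀ d ∈ F, Twist.Fund d ∧ |(d : ℝ)| ≤ X ∧ (splitCount d (X ^ θ) : ℝ) < X ^ c) →
      F.card ≤ 2 * k := by
  obtain ⟨c, X₀, hc', h⟩ := DE_main k hk θ θ' c₁ hθ' hθθ' hc hΨ
  refine ⟨c, X₀, hc', fun X hX F hF => ?_⟩
  by_contra hlt
  rw [not_le] at hlt
  obtain ⟨F', hF', hcard⟩ := Finset.exists_subset_card_eq (show 2 * k + 1 ≤ F.card from hlt)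
  exact h X hX F' (fun d hd => hF d (hF' hd)) hcard

end BG
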