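import Pool.Agent.W_aaa0df_v.DE
import Pool.Agent.W_aaa0df_v.DC

/-!
# Theorem V with Dickman's function, DF: final form
-/

set_option autoImplicit false

noncomputable section

open Finset MPaaa0df

namespace BG

/-- THEOREM V, final form. PROOF. `ρ` is continuous, so there is `θ' ∈ (θ/2, θ)` with
`ρ (1/(2θ')) > 1/(2k+2)`. Let `c₁` be the midpoint of the two numbers and `ε = (ρ (1/(2θ')) - c₁)/2`.
`dickman_uniform` with a natural number `K ≥ 1/(2θ')`, `K ≥ 1`, for `x = N`, `y = N^(2θ')` (`≥ 2` for large `N`;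
`log x / log y = 1/(2θ')`): `Psi N y ≥ (ρ (1/(2θ')) - ε) N - C ≥ c₁ N` for large `N`. Then
`few_exceptions_smooth`. -/
theorem few_exceptions_dickman (ρ : ℝ → ℝ) (hρ : IsDickman ρ) (k : ℕ) (hk : 1 ≤ k) (θ : ℝ)
    (hθ : 0 < θ) (h : 1 / (2 * (k : ℝ) + 2) < ρ (1 / (2 * θ))) :
    ∃ c X₀ : ℝ, 0 < c ∧ ∀ X : ℝ, X₀ ≤ X → ∀ F : Finset ℤ,
      (∀ d ∈ F, Twist.Fund d ∧ |(d : ℝ)| ≤ X ∧ (splitCount d (X ^ θ) : ℝ) < X ^ c) →
      F.card ≤ 2 * k := by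
  obtain ⟨θ', hθ'1, hθ'2, hθ'3⟩ : ∃ θ' : ℝ, θ / 2 < θ' ∧ θ' < θ ∧
      1 / (2 * (k : ℝ) + 2) < ρ (1 / (2 * θ')) := by
    have hc : ContinuousAt (fun t : ℝ => ρ (1 / (2 * t))) θ := by
      refine ContinuousAt.comp (g := ρ) hρ.1.continuousAt ?_
      refine ContinuousAt.div continuousAt_const (by fun_prop) ?_
      positivity
    have h1 : ∀ᶠ t in nhds θ, 1 / (2 * (k : ℝ) + 2) < ρ (1 / (2 * t)) :=
      hc.eventually (lt_mem_nhds h)
    have h2 : ∀ᶠ t in nhds θ, θ / 2 < t := lt_mem_nhds (by linarith)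
    have h3 : ∀ᶠ t in nhdsWithin θ (Set.Iio θ), t < θ := self_mem_nhdsWithin
    obtain ⟨t, ⟨ht1, ht2⟩, ht3⟩ :=
      (((h1.and h2).filter_mono nhdsWithin_le_nhds).and h3).exists
    exact ⟨t, ht2, ht3, ht1⟩
  have hθ'0 : 0 < θ' := by linarith
  set R : ℝ := ρ (1 / (2 * θ')) with hR
  set ε : ℝ := (R - 1 / (2 * (k : ℝ) + 2)) / 4 with hε
  have hε0 : 0 < ε := by rw [hε]; linarith
  obtain ⟨C, hC0, hC⟩ := dickman_uniform ρ hρ (⌈1 / (2 * θ')⌉₊ + 1) (by omega) ε hε0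
  refine few_exceptions_smooth k hk θ θ' (1 / (2 * (k : ℝ) + 2) + 2 * ε) hθ'0 hθ'2
    (by linarith) ⟨max ((2 : ℝ) ^ (1 / (2 * θ'))) (C / ε), fun N hN => ?_⟩
  have hN1 : (2 : ℝ) ^ (1 / (2 * θ')) ≤ N := (le_max_left _ _).trans hN
  have hN2 : C / ε ≤ N := (le_max_right _ _).trans hN
  have h2 : (1 : ℝ) < (2 : ℝ) ^ (1 / (2 * θ')) :=
    Real.one_lt_rpow (by norm_num) (by positivity)
  have hN0 : (1 : ℝ) < N := h2.trans_le hN1
  have hlog : 0 < Real.log N := Real.log_pos hN0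
  have hy : (2 : ℝ) ≤ (N : ℝ) ^ (2 * θ') := by
    have h3 := Real.rpow_le_rpow (by positivity) hN1 (by positivity : 0 ≤ 2 * θ')
    rw [← Real.rpow_mul (by norm_num)] at h3
    have h4 : 1 / (2 * θ') * (2 * θ') = 1 := by field_simp
    rw [h4, Real.rpow_one] at h3
    exact h3
  have hly : Real.log ((N : ℝ) ^ (2 * θ')) = 2 * θ' * Real.log N :=
    Real.log_rpow (by linarith) _
  have hK : Real.log N ≤ ((⌈1 / (2 * θ')⌉₊ + 1 : ℕ) : ℝ) * Real.log ((N : ℝ) ^ (2 * θ')) := by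
    rw [hly, ← mul_assoc]
    have h5 : (1 : ℝ) / (2 * θ') ≤ ((⌈1 / (2 * θ')⌉₊ + 1 : ℕ) : ℝ) := by
      push_cast
      have h6 := Nat.le_ceil (1 / (2 * θ'))
      linarith
    have h7 : (1 : ℝ) ≤ ((⌈1 / (2 * θ')⌉₊ + 1 : ℕ) : ℝ) * (2 * θ') := by
      have h8 := mul_le_mul_of_nonneg_right h5 (by positivity : 0 ≤ 2 * θ')
      have h9 : 1 / (2 * θ') * (2 * θ') = 1 := by field_simp
      rw [h9] at h8
      exact h8
    have h10 := mul_le_mul_of_nonneg_right h7 hlog.le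
    linarith
  have hu : Real.log N / Real.log ((N : ℝ) ^ (2 * θ')) = 1 / (2 * θ') := by
    rw [hly]
    field_simp
  have h11 := hC N ((N : ℝ) ^ (2 * θ')) hN0.le hy hK
  rw [hu] at h11
  have h12 := (abs_le.1 h11).1
  have h13 : C ≤ ε * N := by
    rw [div_le_iff₀ hε0] at hN2
    linarith
  have h14 : R = 1 / (2 * (k : ℝ) + 2) + 4 * ε := by rw [hε]; ring
  rw [← hR] at h12
  have h15 : R * N = (1 / (2 * (k : ℝ) + 2)) * N + 4 * (ε * N) := by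
    rw [h14]; ring
  have h16 : (1 / (2 * (k : ℝ) + 2) + 2 * ε) * N =
      (1 / (2 * (k : ℝ) + 2)) * N + 2 * (ε * N) := by ring
  rw [h16]
  linarith

end BG
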