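import Pool.Agent.W_aaa0df_bg.C2
import Pool.Agent.W_aaa0df_bg.C3
import Pool.Agent.W_fd120a_h34.Div

/-!
# Theorem V, VA: correlations of two quadratic characters
-/

set_option autoImplicit false

namespace BG

open Finset MPaaa0df

/-- The squarefree kernel of a fundamental discriminant. -/
theorem VA_ker (d : ℤ) (hd : Twist.Fund d) : ∃ s : ℤ, Squarefree s ∧
    ((s % 4 = 1 ∧ d = s) ∨ ((s % 4 = 2 ∨ s % 4 = 3) ∧ d = 4 * s)) := by
  rcases hd with ⟨h4, hs⟩ | ⟨t, ht, h23, hs⟩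
  · exact ⟨d, hs, Or.inl ⟨h4, rfl⟩⟩
  · exact ⟨t, hs, Or.inr ⟨h23, ht⟩⟩

theorem VA_ndvd {s : ℤ} (hs : Squarefree s) : s % 4 ≠ 0 := by
  intro h
  have h1 : (2 : ℤ) * 2 ∣ s := by omega
  have h2 := hs 2 h1
  rw [Int.isUnit_iff] at h2
  omega

/-- Product of two different squarefree integers. -/
theorem VA_gcd (s s' : ℤ) (hs : Squarefree s) (hs' : Squarefree s') (hne : s ≠ s') :
    ∃ g e : ℤ, g ≠ 0 ∧ g ∣ s ∧ s * s' = g ^ 2 * e ∧ Squarefree e ∧ e ≠ 1 := by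
  have h0 : s ≠ 0 := hs.ne_zero
  obtain ⟨g, a, b, hg, hab, h1, h2⟩ := Int.exists_gcd_one' (Int.gcd_pos_of_ne_zero_left s' h0)
  have hg' : ((g : ℕ) : ℤ) ≠ 0 := by exact_mod_cast hg.ne'
  refine ⟨g, a * b, hg', ⟨a, by rw [h1, mul_comm]⟩, by rw [h1, h2]; ring, ?_, ?_⟩
  · rw [squarefree_mul_iff]
    refine ⟨?_, hs.squarefree_of_dvd ⟨g, h1⟩, hs'.squarefree_of_dvd ⟨g, h2⟩⟩
    exact (Int.isCoprime_iff_gcd_eq_one.2 hab).isRelPrime
  · intro h
    apply hne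
    rcases Int.eq_one_or_neg_one_of_mul_eq_one' h with ⟨ha, hb⟩ | ⟨ha, hb⟩
    · rw [h1, h2, ha, hb]
    · rw [h1, h2, ha, hb]

/-- The value at odd numbers. -/
theorem VA_odd (d s : ℤ) (h : (s % 4 = 1 ∧ d = s) ∨ ((s % 4 = 2 ∨ s % 4 = 3) ∧ d = 4 * s)) (n : ℕ)
    (hn : Odd n) : chi d n = jacobiSym s n := by
  rcases h with ⟨_, h⟩ | ⟨_, h⟩
  · rw [h, chi_odd s n hn]
  · exact C2_four d s h n hn

theorem VA_zero (d : ℤ) (hd : Twist.Fund d) (p : ℕ) (hp : p.Prime) (hpd : p ∣ d.natAbs) :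
    chi d p = 0 := by
  have hdm := (fund_mod d hd).2
  rcases hp.eq_two_or_odd' with rfl | hodd
  · exact C2_even d (by omega) 2 (by decide)
  · rw [chi_odd d p hodd, jacobiSym.eq_zero_iff]
    refine ⟨hp.ne_zero, ?_⟩
    rw [Int.gcd_eq_natAbs, Int.natAbs_natCast, Nat.gcd_eq_right hpd]
    exact hp.ne_one

theorem VA_two (a b e : ℤ) (ha : a % 4 = 1) (hb : b % 4 = 1) (h : ∃ g : ℤ, a * b = g ^ 2 * e) :
    e % 4 = 1 ∧ chi a 2 * chi b 2 = chi e 2 := by
  obtain ⟨g, hg⟩ := h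
  have hodd : g % 2 = 1 := by
    by_contra h2
    have h3 : g % 2 = 0 := by omega
    obtain ⟨k, rfl⟩ : ∃ k, g = 2 * k := ⟨g / 2, by omega⟩
    have h4 : a * b % 2 = 1 := by
      rw [Int.mul_emod, show a % 2 = 1 by omega, show b % 2 = 1 by omega]
      norm_num
    rw [hg, show (2 * k) ^ 2 * e = 2 * (2 * k ^ 2 * e) by ring] at h4
    omega
  have hg8 : g ^ 2 % 8 = 1 := by
    obtain ⟨k, hk⟩ : ∃ k, g = 2 * k + 1 := ⟨g / 2, by omega⟩
    obtain ⟨j, hj⟩ : ∃ j, k * (k + 1) = 2 * j := by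
      rcases Int.even_mul_succ_self k with ⟨j, hj⟩
      exact ⟨j, by omega⟩
    have h5 : g ^ 2 = 8 * j + 1 := by
      rw [hk]
      have : (2 * k + 1) ^ 2 = 4 * (k * (k + 1)) + 1 := by ring
      rw [this, hj]
      ring
    omega
  have he : e % 8 = a * b % 8 := by
    rw [hg, Int.mul_emod, hg8, one_mul, Int.emod_emod_of_dvd _ (dvd_refl 8)]
  rw [C1_two, C1_two, C1_two]
  have ha8 : a % 8 = 1 ∨ a % 8 = 5 := by omega
  have hb8 : b % 8 = 1 ∨ b % 8 = 5 := by omega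
  rw [Int.mul_emod] at he
  rcases ha8 with ha8 | ha8 <;> rcases hb8 with hb8 | hb8 <;> rw [ha8, hb8] at he <;>
    norm_num at he <;> refine ⟨by omega, ?_⟩ <;> simp [ha8, hb8, he]

theorem VA_Icc {M : Type*} [AddCommMonoid M] (f : ℕ → M) (K : ℕ) :
    ∑ i ∈ Icc 1 K, f i = ∑ k ∈ range K, f (k + 1) := by
  refine Finset.sum_nbij' (fun i => i - 1) (fun k => k + 1) ?_ ?_ ?_ ?_ ?_
  · intro i hi
    rw [Finset.mem_Icc] at hi
    rw [Finset.mem_range]
    omega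
  · intro k hk
    rw [Finset.mem_range] at hk
    rw [Finset.mem_Icc]
    omega
  · intro i hi
    rw [Finset.mem_Icc] at hi
    show i - 1 + 1 = i
    omega
  · intro k _
    show k + 1 - 1 = k
    omega
  · intro i hi
    rw [Finset.mem_Icc] at hi
    show f i = f (i - 1 + 1)
    congr 1
    omega

/-- The product of two different quadratic characters.

PROOF. `d d' ≠ 0`. Write `d d' = e f²` with `e` squarefree (`Nat.sq_mul_squarefree` for `|d d'|`, keep the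
sign). `e ≠ 1`: otherwise `d d'` is a square, and two fundamental discriminants whose product is a
square are equal (compare the squarefree parts: `d = s` or `4 s` according to `s mod 4`). `d₁ = e` if
`e % 4 = 1`, else `d₁ = 4 e`; `|d₁| ≤ |d d'|` because if `e % 4 ≠ 1` then `f` is even (if `f` were odd, then
`d d' ≡ e mod 8`, but `d, d' ≡ 0, 1 mod 4`: the product is `≡ 0, 1 mod 4`, so `e ≡ 0` or `1 mod 4`;
`e` squarefree excludes `0`). For `n` coprime to `d d'`: if `n` is odd,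
`chi d n * chi d' n = jacobiSym (d d') n = jacobiSym (e f²) n = jacobiSym e n = chi d₁ n` (`chi_odd`,
`f` coprime to `n`). For even `n` (then `d, d'` odd, `≡ 1 mod 4`, `f` odd, `e ≡ d d' mod 8`, so `d₁ = e`):
by complete multiplicativity (`chi_mul`) only `n = 2` remains, where the values are determined by
`d, d', e mod 8` in `{1, 5}`. If `n` is not coprime to `d d'` one of the two factors vanishes (a common
prime factor `p`: `chi d p = 0` for `p ∣ d`; `chi_mul`). `n = 0`: `chi d 0 = 0`, and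
`Nat.Coprime 0 |d d'|` only if `|d d'| = 1`, i.e. `d = d' = 1` as fundamental discriminants, excluded. -/
theorem product_char (d d' : ℤ) (hd : Twist.Fund d) (hd' : Twist.Fund d') (hne : d ≠ d') :
    ∃ d₁ : ℤ, Twist.Fund d₁ ∧ d₁ ≠ 1 ∧ |(d₁ : ℝ)| ≤ |(d : ℝ)| * |(d' : ℝ)| ∧ ∀ n : ℕ,
      chi d n * chi d' n = if Nat.Coprime n (d * d').natAbs then chi d₁ n else 0 := by
  obtain ⟨s, hs, hds⟩ := VA_ker d hd
  obtain ⟨s', hs', hds'⟩ := VA_ker d' hd'
  have hss : s ≠ s' := by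
    rintro rfl
    rcases hds with ⟨h1, h2⟩ | ⟨h1, h2⟩ <;> rcases hds' with ⟨h3, h4⟩ | ⟨h3, h4⟩
    · exact hne (h2.trans h4.symm)
    · omega
    · omega
    · exact hne (h2.trans h4.symm)
  obtain ⟨g, e, hg0, hgs, hge, hesq, he1⟩ := VA_gcd s s' hs hs' hss
  have he0 : e ≠ 0 := hesq.ne_zero
  have he4 := VA_ndvd hesq
  obtain ⟨d₁, hd₁⟩ : ∃ d₁ : ℤ, (e % 4 = 1 ∧ d₁ = e) ∨ ((e % 4 = 2 ∨ e % 4 = 3) ∧ d₁ = 4 * e) := by
    by_cases h : e % 4 = 1
    · exact ⟨e, Or.inl ⟨h, rfl⟩⟩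
    · exact ⟨4 * e, Or.inr ⟨by omega, rfl⟩⟩
  have hsd : s ∣ d := by
    rcases hds with ⟨_, h⟩ | ⟨_, h⟩
    · rw [h]
    · exact ⟨4, by rw [h, mul_comm]⟩
  have hd0 : d ≠ 0 := (fund_mod d hd).1
  have hd0' : d' ≠ 0 := (fund_mod d' hd').1
  have hg1 : (1 : ℤ) ≤ g ^ 2 := by
    have : 0 < g ^ 2 := by positivity
    omega
  have habs : |e| ≤ |s| * |s'| := by
    rw [← abs_mul, hge, abs_mul, abs_of_nonneg (by positivity : 0 ≤ g ^ 2)]
    nlinarith [abs_nonneg e]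
  refine ⟨d₁, ?_, ?_, ?_, ?_⟩
  · rcases hd₁ with ⟨h1, h2⟩ | ⟨h1, h2⟩
    · rw [h2]
      exact Or.inl ⟨h1, hesq⟩
    · exact Or.inr ⟨e, h2, h1, hesq⟩
  · rcases hd₁ with ⟨h1, h2⟩ | ⟨h1, h2⟩
    · rw [h2]
      exact he1
    · omega
  · have hZ : |d₁| ≤ |d| * |d'| := by
      rcases hd₁ with ⟨h1, h2⟩ | ⟨h1, h2⟩
      · rw [h2]
        refine habs.trans (mul_le_mul ?_ ?_ (abs_nonneg _) (abs_nonneg _))
        · rcases hds with ⟨_, h⟩ | ⟨_, h⟩
          · rw [h]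
          · rw [h, abs_mul]
            have := abs_nonneg s
            norm_num
            linarith
        · rcases hds' with ⟨_, h⟩ | ⟨_, h⟩
          · rw [h]
          · rw [h, abs_mul]
            have := abs_nonneg s'
            norm_num
            linarith
      · have h4 : |d₁| = 4 * |e| := by
          rw [h2, abs_mul]
          norm_num
        rw [h4]
        have a1 := abs_nonneg s
        have a2 := abs_nonneg s'
        have a3 := mul_nonneg a1 a2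
        rcases hds with ⟨h5, h⟩ | ⟨_, h⟩ <;> rcases hds' with ⟨h6, h'⟩ | ⟨_, h'⟩
        · have := (VA_two s s' e h5 h6 ⟨g, hge⟩).1
          omega
        · have h7 : |d'| = 4 * |s'| := by
            rw [h', abs_mul]
            norm_num
          rw [h, h7]
          nlinarith
        · have h7 : |d| = 4 * |s| := by
            rw [h, abs_mul]
            norm_num
          rw [h', h7]
          nlinarith
        · have h7 : |d'| = 4 * |s'| := by
            rw [h', abs_mul]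
            norm_num
          have h8 : |d| = 4 * |s| := by
            rw [h, abs_mul]
            norm_num
          rw [h8, h7]
          nlinarith
    exact_mod_cast hZ
  · intro n
    induction n using Nat.strong_induction_on with
    | _ n ih =>
    rcases Nat.eq_zero_or_pos n with rfl | hn
    · have h0 : ∀ a : ℤ, chi a 0 = 0 := fun a => by simp [chi]
      rw [h0, h0, h0, zero_mul, ite_self]
    by_cases hc : Nat.Coprime n (d * d').natAbs
    · rw [if_pos hc]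
      rcases Nat.even_or_odd n with he | ho
      · obtain ⟨k, hk⟩ := he
        have hk2 : n = 2 * k := by omega
        have hc2 : Nat.Coprime 2 (d * d').natAbs := Nat.Coprime.coprime_dvd_left ⟨k, hk2⟩ hc
        have hck : Nat.Coprime k (d * d').natAbs :=
          Nat.Coprime.coprime_dvd_left ⟨2, by rw [hk2, mul_comm]⟩ hc
        have hodd : (d * d').natAbs % 2 = 1 := Nat.odd_iff.1 (Nat.coprime_two_left.1 hc2)
        have h1 : d % 2 = 1 := by
          by_contra h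
          obtain ⟨c, hc⟩ : ∃ c, d = 2 * c := ⟨d / 2, by omega⟩
          rw [hc, mul_assoc, Int.natAbs_mul] at hodd
          simp at hodd
        have h2 : d' % 2 = 1 := by
          by_contra h
          obtain ⟨c, hc⟩ : ∃ c, d' = 2 * c := ⟨d' / 2, by omega⟩
          rw [hc, show d * (2 * c) = 2 * (d * c) by ring, Int.natAbs_mul] at hodd
          simp at hodd
        have h3 : s % 4 = 1 ∧ d = s := by
          rcases hds with h | ⟨_, h⟩
          · exact h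
          · omega
        have h4 : s' % 4 = 1 ∧ d' = s' := by
          rcases hds' with h | ⟨_, h⟩
          · exact h
          · omega
        have h5 := VA_two s s' e h3.1 h4.1 ⟨g, hge⟩
        have h6 : d₁ = e := by
          rcases hd₁ with ⟨_, h⟩ | ⟨h, _⟩
          · exact h
          · omega
        have h7 := ih k (by omega)
        rw [if_pos hck] at h7
        rw [hk2, chi_mul, chi_mul, chi_mul, ← h7, h6, ← h5.2, h3.2, h4.2]
        ring
      · rw [VA_odd d s hds n ho, VA_odd d' s' hds' n ho, VA_odd d₁ e hd₁ n ho,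
          ← jacobiSym.mul_left, hge, jacobiSym.mul_left]
        have hgn : g.gcd n = 1 := by
          have h1 : g ∣ d * d' := (hgs.trans hsd).mul_right _
          have h2 : g.natAbs ∣ (d * d').natAbs := Int.natAbs_dvd_natAbs.2 h1
          have h3 : Nat.Coprime n g.natAbs := Nat.Coprime.coprime_dvd_right h2 hc
          rw [Int.gcd_eq_natAbs, Int.natAbs_natCast]
          exact h3.symm
        rw [jacobiSym.sq_one' hgn, one_mul]
    · rw [if_neg hc]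
      obtain ⟨p, hp, hpn, hpd⟩ := Nat.Prime.not_coprime_iff_dvd.1 hc
      rw [Int.natAbs_mul] at hpd
      obtain ⟨k, rfl⟩ := hpn
      rcases hp.dvd_mul.1 hpd with h | h
      · rw [chi_mul d, VA_zero d hd p hp h, zero_mul, zero_mul]
      · rw [chi_mul d', VA_zero d' hd' p hp h, zero_mul, mul_zero]

/-- PROOF. `d ≠ 1` fundamental, so `|d| > 1` (`Fund (-1)` is false). `exists_char`, `chi_periodic`: the sum
over a full period `|d|` vanishes (nonprincipal Dirichlet character: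
`DirichletCharacter.sum_eq_zero`/`MulChar.sum_eq_zero_of_ne_one`), the rest has fewer than `|d|` terms of
absolute value `≤ 1`. -/
theorem small_sum (d : ℤ) (hd : Twist.Fund d) (h1 : d ≠ 1) (K : ℕ) :
    |∑ k ∈ Icc 1 K, (chi d k : ℝ)| ≤ |(d : ℝ)| := by
  have hd0 : d ≠ 0 := (fund_mod d hd).1
  have hN : 1 < d.natAbs := by
    have h2 := (fund_mod d hd).2
    omega
  have : NeZero d.natAbs := ⟨by omega⟩
  obtain ⟨χ, hprim, -, hχ⟩ := exists_char d hd hN
  have hχ1 : χ ≠ 1 := by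
    rintro rfl
    have h3 : (1 : DirichletCharacter ℂ d.natAbs).conductor = d.natAbs := hprim
    rw [DirichletCharacter.conductor_one] at h3
    omega
  have h1 := Pool.Agent.Wb58c63.char_sum_le χ hχ1 (K + 1)
  have h2 : ∑ n ∈ range (K + 1), χ (n : ZMod d.natAbs) =
      ((∑ k ∈ Icc 1 K, (chi d k : ℝ) : ℝ) : ℂ) := by
    rw [Finset.sum_range_succ']
    have h3 : χ ((0 : ℕ) : ZMod d.natAbs) = 0 := by
      rw [hχ 0]
      simp [chi]
    rw [h3, add_zero, Complex.ofReal_sum, VA_Icc]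
    exact Finset.sum_congr rfl fun k _ => by rw [hχ (k + 1), Complex.ofReal_intCast]
  rw [h2, Complex.norm_real, Real.norm_eq_abs, Nat.cast_natAbs] at h1
  exact_mod_cast h1

open ArithmeticFunction in
theorem VA_mu (n : ℕ) : ∑ e ∈ n.divisors, (moebius e : ℤ) = if n = 1 then 1 else 0 := by
  have h := congrArg (fun F : ArithmeticFunction ℤ => F n) moebius_mul_coe_zeta
  simp only [coe_mul_zeta_apply, ArithmeticFunction.one_apply] at h
  exact h

theorem VA_mult (f : ℕ → ℝ) (K e : ℕ) (he : 0 < e) :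
    ∑ k ∈ Icc 1 K, (if e ∣ k then f k else 0) = ∑ j ∈ Icc 1 (K / e), f (e * j) := by
  rw [← Finset.sum_filter]
  refine Finset.sum_nbij' (fun k => k / e) (fun j => e * j) ?_ ?_ ?_ ?_ ?_
  · intro k hk
    rw [Finset.mem_filter, Finset.mem_Icc] at hk
    rw [Finset.mem_Icc]
    obtain ⟨⟨h1, h2⟩, h3⟩ := hk
    exact ⟨(Nat.one_le_div_iff he).2 (Nat.le_of_dvd (by omega) h3), Nat.div_le_div_right h2⟩
  · intro j hj
    rw [Finset.mem_Icc] at hj
    rw [Finset.mem_filter, Finset.mem_Icc]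
    refine ⟨⟨Nat.one_le_iff_ne_zero.2 (Nat.mul_ne_zero he.ne' (by omega)), ?_⟩, Dvd.intro _ rfl⟩
    calc e * j ≤ e * (K / e) := Nat.mul_le_mul_left e hj.2
      _ ≤ K := Nat.mul_div_le K e
  · intro k hk
    rw [Finset.mem_filter] at hk
    exact Nat.mul_div_cancel' hk.2
  · intro j _
    exact Nat.mul_div_cancel_left j he
  · intro k hk
    rw [Finset.mem_filter] at hk
    show f k = f (e * (k / e))
    rw [Nat.mul_div_cancel' hk.2]

open ArithmeticFunction in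
/-- Möbius inversion for the coprimality condition. -/
theorem VA_mob (f : ℕ → ℝ) (K M : ℕ) (hM : 0 < M) :
    ∑ k ∈ Icc 1 K, (if Nat.Coprime k M then f k else 0) =
      ∑ e ∈ M.divisors, ((moebius e : ℤ) : ℝ) * ∑ j ∈ Icc 1 (K / e), f (e * j) := by
  have h1 : ∀ k ∈ Icc 1 K, (if Nat.Coprime k M then f k else 0) =
      ∑ e ∈ M.divisors, ((moebius e : ℤ) : ℝ) * (if e ∣ k then f k else 0) := by
    intro k hk
    have h2 := VA_mu (Nat.gcd k M)
    have h3 : (Nat.gcd k M).divisors = M.divisors.filter (fun e => e ∣ k) := by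
      ext e
      rw [Nat.mem_divisors, Finset.mem_filter, Nat.mem_divisors, Nat.dvd_gcd_iff]
      constructor
      · rintro ⟨⟨a, b⟩, c⟩
        exact ⟨⟨b, hM.ne'⟩, a⟩
      · rintro ⟨⟨a, b⟩, c⟩
        exact ⟨⟨c, a⟩, (Nat.gcd_pos_of_pos_right k hM).ne'⟩
    rw [h3, Finset.sum_filter] at h2
    have h4 : ∑ e ∈ M.divisors, ((moebius e : ℤ) : ℝ) * (if e ∣ k then f k else 0) =
        ((∑ e ∈ M.divisors, (if e ∣ k then (moebius e : ℤ) else 0) : ℤ) : ℝ) * f k := by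
      rw [Int.cast_sum, Finset.sum_mul]
      refine Finset.sum_congr rfl fun e _ => ?_
      split_ifs <;> simp
    rw [h4, h2]
    unfold Nat.Coprime
    split_ifs <;> simp
  rw [Finset.sum_congr rfl h1, Finset.sum_comm]
  refine Finset.sum_congr rfl fun e he => ?_
  rw [← Finset.mul_sum, VA_mult f K e (Nat.pos_of_mem_divisors he)]

theorem VA_triv (d : ℤ) (N : ℕ) : |∑ k ∈ Icc 1 N, (chi d k : ℝ)| ≤ N := by
  refine (Finset.abs_sum_le_sum_abs _ _).trans ?_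
  have h1 : ∀ k ∈ Icc 1 N, |(chi d k : ℝ)| ≤ 1 := by
    intro k _
    rcases chi_values d k with h | h | h <;> rw [h] <;> norm_num
  refine (Finset.sum_le_sum h1).trans ?_
  simp

/-- The inner sum. -/
theorem VA_term (ε₁ δ₀ C D η : ℝ) (hε : 0 < ε₁) (hδ₀ : 0 < δ₀) (hδ₁ : δ₀ ≤ 1 / 2) (hC : 0 < C)
    (hη : 0 < η) (hη1 : η ≤ ε₁ / 4) (hη2 : η ≤ δ₀ / 2) (hη3 : η ≤ 1 / 2)
    (hB : ∀ d : ℤ, Twist.Fund d → D ≤ |(d : ℝ)| → ∀ N : ℕ, |(d : ℝ)| ^ (1 / 4 + ε₁ / 4) ≤ N →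
      |∑ n ∈ Icc 1 N, (chi d n : ℝ)| ≤ C * (N : ℝ) ^ (1 - δ₀)) (X : ℝ) (hX1 : 1 ≤ X)
    (h2X : 2 ≤ X ^ (ε₁ / 4)) (d : ℤ) (hd : Twist.Fund d) (hd1 : d ≠ 1) (hdX : |(d : ℝ)| ≤ X ^ (2 : ℝ))
    (K e : ℕ) (he : 0 < e) (hK : X ^ (1 / 2 + ε₁) ≤ K) :
    |∑ j ∈ Icc 1 (K / e), (chi d j : ℝ)| ≤ K * X ^ (-η) * (1 + C + |D|) := by
  have hX0 : 0 < X := by linarith
  have hK0 : 0 ≤ (K : ℝ) := Nat.cast_nonneg K
  have her : (0 : ℝ) < e := by exact_mod_cast he
  have hXη : 0 < X ^ (-η) := Real.rpow_pos_of_pos hX0 _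
  have hP : 0 ≤ (K : ℝ) * X ^ (-η) := mul_nonneg hK0 hXη.le
  have hD := abs_nonneg D
  rcases le_or_gt (X ^ (ε₁ / 4)) e with h | h
  · -- trivial bound
    have h1 : ((K / e : ℕ) : ℝ) ≤ K * X ^ (-η) := by
      refine (Nat.cast_div_le).trans ?_
      rw [div_eq_mul_inv]
      refine mul_le_mul_of_nonneg_left ?_ hK0
      have h2 : ((e : ℝ))⁻¹ ≤ (X ^ (ε₁ / 4))⁻¹ := inv_anti₀ (by linarith) h
      refine h2.trans ?_
      rw [← Real.rpow_neg hX0.le]
      exact Real.rpow_le_rpow_of_exponent_le hX1 (by linarith)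
    refine (VA_triv d _).trans (h1.trans ?_)
    nlinarith
  · -- long sums
    have h1 : X ^ (1 / 2 + 3 * ε₁ / 4) ≤ (K : ℝ) / e := by
      rw [le_div_iff₀ her]
      calc X ^ (1 / 2 + 3 * ε₁ / 4) * e ≤ X ^ (1 / 2 + 3 * ε₁ / 4) * X ^ (ε₁ / 4) :=
            mul_le_mul_of_nonneg_left h.le (Real.rpow_pos_of_pos hX0 _).le
        _ = X ^ (1 / 2 + ε₁) := by
            rw [← Real.rpow_add hX0]
            congr 1
            ring
        _ ≤ K := hK
    have h2 : X ^ (1 / 2 + 3 * ε₁ / 4) = X ^ (1 / 2 + ε₁ / 2) * X ^ (ε₁ / 4) := by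
      rw [← Real.rpow_add hX0]
      congr 1
      ring
    have h3 : 1 ≤ X ^ (1 / 2 + ε₁ / 2) := Real.one_le_rpow hX1 (by linarith)
    have h4 := abs_le.1 (C3_div K e he)
    have h5 : X ^ (1 / 2 + ε₁ / 2) ≤ ((K / e : ℕ) : ℝ) := by
      rw [h2] at h1
      nlinarith [h4.1]
    have hNK : ((K / e : ℕ) : ℝ) ≤ K := by
      exact_mod_cast Nat.div_le_self K e
    have hN0 : (0 : ℝ) < ((K / e : ℕ) : ℝ) := by linarith
    rcases le_or_gt |D| |(d : ℝ)| with h6 | h6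
    · have h7 : |(d : ℝ)| ^ (1 / 4 + ε₁ / 4) ≤ ((K / e : ℕ) : ℝ) := by
        refine le_trans ?_ h5
        calc |(d : ℝ)| ^ (1 / 4 + ε₁ / 4) ≤ (X ^ (2 : ℝ)) ^ (1 / 4 + ε₁ / 4) :=
              Real.rpow_le_rpow (abs_nonneg _) hdX (by linarith)
          _ = X ^ (1 / 2 + ε₁ / 2) := by
              rw [← Real.rpow_mul hX0.le]
              congr 1
              ring
      have h8 := hB d hd ((le_abs_self D).trans h6) (K / e) h7
      have h9 : ((K / e : ℕ) : ℝ) ^ (1 - δ₀) ≤ K * X ^ (-η) := by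
        rw [show (1 : ℝ) - δ₀ = 1 + -δ₀ by ring, Real.rpow_add hN0, Real.rpow_one]
        refine mul_le_mul hNK ?_ (Real.rpow_pos_of_pos hN0 _).le hK0
        have h10 : X ^ (1 / 2 : ℝ) ≤ ((K / e : ℕ) : ℝ) :=
          (Real.rpow_le_rpow_of_exponent_le hX1 (by linarith)).trans h5
        calc ((K / e : ℕ) : ℝ) ^ (-δ₀) ≤ (X ^ (1 / 2 : ℝ)) ^ (-δ₀) :=
              Real.rpow_le_rpow_of_nonpos (Real.rpow_pos_of_pos hX0 _) h10 (by linarith)
          _ = X ^ (1 / 2 * -δ₀) := by rw [← Real.rpow_mul hX0.le]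
          _ ≤ X ^ (-η) := Real.rpow_le_rpow_of_exponent_le hX1 (by linarith)
      have h11 := mul_le_mul_of_nonneg_left h9 hC.le
      nlinarith [h8, h11, mul_nonneg hP hD]
    · have h7 := small_sum d hd hd1 (K / e)
      have h8 : 1 ≤ (K : ℝ) * X ^ (-η) := by
        calc (1 : ℝ) ≤ X ^ (1 / 2 + ε₁ + -η) := Real.one_le_rpow hX1 (by linarith)
          _ = X ^ (1 / 2 + ε₁) * X ^ (-η) := Real.rpow_add hX0 _ _
          _ ≤ K * X ^ (-η) := mul_le_mul_of_nonneg_right hK hXη.le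
      nlinarith [mul_le_mul_of_nonneg_right h8 hD, mul_nonneg hP hC.le]

/-- CORRELATION BOUND.

PROOF. We may assume `ε ≤ 1/8`. `d₁` from `product_char`, `|d₁| ≤ X²`, `M = |d d'| ≤ X²`. Möbius:
`∑_{k ≤ K} chi d k chi d' k = ∑_{e ∣ M, e ≤ K} μ(e) chi d₁ e ∑_{j ≤ K/e} chi d₁ j`
(`chi_mul`; `e` over all divisors of `M`, `∑_{e ∣ gcd(k, M)} μ(e) = 1_{coprime}`). `E = X^(ε/4)`.
* `e ≥ E`: trivial bound `K/e ≤ K/E`, total `≤ K τ(M) X^(-ε/4)`.
* `e < E`, `|d₁| ≥ D` (`D, C, δ₀` from `burgess_chi (ε/4)`): `K/e` (natural division) is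
`≥ X^(1/2 + ε/2) ≥ |d₁|^(1/4 + ε/4)` so the inner sum is `≤ C (K/e)^(1-δ₀) ≤ C K (K/e)^(-δ₀)/e`,
`(K/e)^(-δ₀) ≤ X^(-δ₀/2)`; total `≤ C K τ(M) X^(-δ₀/2)`.
* `e < E`, `|d₁| < D`: `small_sum`: `≤ D`, total `≤ D τ(M) ≤ D τ(M) K X^(-1/2)`.
`divisor_bound` (`FD120.divisor_bound`): `τ(M) ≤ C' M^ε'` with small `ε'`. Take `δ` small and `X` large. -/
theorem corr (ε : ℝ) (hε : 0 < ε) : ∃ (δ X₀ : ℝ), 0 < δ ∧ ∀ X : ℝ, X₀ ≤ X → ∀ d d' : ℤ,
    Twist.Fund d → Twist.Fund d' → d ≠ d' → |(d : ℝ)| ≤ X → |(d' : ℝ)| ≤ X → ∀ K : ℕ,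
      X ^ (1 / 2 + ε) ≤ K →
      |∑ k ∈ Icc 1 K, (chi d k : ℝ) * (chi d' k : ℝ)| ≤ K * X ^ (-δ) := by
  obtain ⟨ε₁, h1, h2, h3⟩ : ∃ ε₁ : ℝ, 0 < ε₁ ∧ ε₁ ≤ ε ∧ ε₁ ≤ 1 / 8 :=
    ⟨min ε (1 / 8), lt_min hε (by norm_num), min_le_left _ _, min_le_right _ _⟩
  obtain ⟨δ₀, C, D, hδ₀, hδ₁, hC, hB⟩ := burgess_chi (ε₁ / 4) (by linarith) (by linarith)
  obtain ⟨η, hη, hη1, hη2⟩ : ∃ η : ℝ, 0 < η ∧ η ≤ ε₁ / 4 ∧ η ≤ δ₀ / 2 :=
    ⟨min (ε₁ / 4) (δ₀ / 2), lt_min (by linarith) (by linarith), min_le_left _ _, min_le_right _ _⟩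
  obtain ⟨C', hC', hdiv⟩ := FD120.divisor_bound (η / 8) (by linarith)
  set A : ℝ := C' * (1 + C + |D|) with hA
  have hD := abs_nonneg D
  have hA0 : 0 < A := by positivity
  refine ⟨η / 4, max (2 ^ (4 / ε₁)) (max 1 (A ^ (2 / η))), by linarith, ?_⟩
  intro X hX d d' hd hd' hne hdX hdX' K hK
  have hX2 : (2 : ℝ) ^ (4 / ε₁) ≤ X := (le_max_left _ _).trans hX
  have hX1 : 1 ≤ X := ((le_max_left _ _).trans (le_max_right _ _)).trans hX
  have hX3 : A ^ (2 / η) ≤ X := ((le_max_right _ _).trans (le_max_right _ _)).trans hX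
  have hX0 : 0 < X := by linarith
  have h2X : 2 ≤ X ^ (ε₁ / 4) := by
    calc (2 : ℝ) = (2 ^ (4 / ε₁)) ^ (ε₁ / 4) := by
          rw [← Real.rpow_mul (by norm_num)]
          rw [show 4 / ε₁ * (ε₁ / 4) = 1 by field_simp, Real.rpow_one]
      _ ≤ X ^ (ε₁ / 4) := Real.rpow_le_rpow (by positivity) hX2 (by linarith)
  have hAX : A ≤ X ^ (η / 2) := by
    calc A = (A ^ (2 / η)) ^ (η / 2) := by
          rw [← Real.rpow_mul hA0.le, show 2 / η * (η / 2) = 1 by field_simp, Real.rpow_one]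
      _ ≤ X ^ (η / 2) := Real.rpow_le_rpow (by positivity) hX3 (by linarith)
  obtain ⟨d₁, hd₁, hd₁1, hd₁X, hval⟩ := product_char d d' hd hd' hne
  have hdd0 : d * d' ≠ 0 := mul_ne_zero (fund_mod d hd).1 (fund_mod d' hd').1
  have hM : 0 < (d * d').natAbs := Int.natAbs_pos.2 hdd0
  have hMX : (((d * d').natAbs : ℕ) : ℝ) ≤ X ^ (2 : ℝ) := by
    rw [Nat.cast_natAbs, Int.cast_abs, Int.cast_mul, abs_mul, Real.rpow_two, pow_two]
    exact mul_le_mul hdX hdX' (abs_nonneg _) hX0.le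
  have hd₁X2 : |(d₁ : ℝ)| ≤ X ^ (2 : ℝ) := by
    refine hd₁X.trans ?_
    rw [Real.rpow_two, pow_two]
    exact mul_le_mul hdX hdX' (abs_nonneg _) hX0.le
  have hK' : X ^ (1 / 2 + ε₁) ≤ K :=
    (Real.rpow_le_rpow_of_exponent_le hX1 (by linarith)).trans hK
  have hK0 : 0 ≤ (K : ℝ) := Nat.cast_nonneg K
  have e1 : ∑ k ∈ Icc 1 K, (chi d k : ℝ) * (chi d' k : ℝ) =
      ∑ k ∈ Icc 1 K, (if Nat.Coprime k (d * d').natAbs then (chi d₁ k : ℝ) else 0) := by
    refine Finset.sum_congr rfl fun k _ => ?_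
    rw [← Int.cast_mul, hval k]
    split_ifs <;> simp
  rw [e1, VA_mob (fun k => (chi d₁ k : ℝ)) K _ hM]
  refine (Finset.abs_sum_le_sum_abs _ _).trans ?_
  have e2 : ∀ e ∈ (d * d').natAbs.divisors,
      |((ArithmeticFunction.moebius e : ℤ) : ℝ) * ∑ j ∈ Icc 1 (K / e), (chi d₁ (e * j) : ℝ)| ≤
        K * X ^ (-η) * (1 + C + |D|) := by
    intro e he
    have e3 : ∑ j ∈ Icc 1 (K / e), (chi d₁ (e * j) : ℝ) =
        (chi d₁ e : ℝ) * ∑ j ∈ Icc 1 (K / e), (chi d₁ j : ℝ) := by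
      rw [Finset.mul_sum]
      refine Finset.sum_congr rfl fun j _ => ?_
      rw [chi_mul, Int.cast_mul]
    have e4 : |((ArithmeticFunction.moebius e : ℤ) : ℝ)| ≤ 1 := by
      have := ArithmeticFunction.abs_moebius_le_one (n := e)
      exact_mod_cast this
    have e5 : |(chi d₁ e : ℝ)| ≤ 1 := by
      rcases chi_values d₁ e with h | h | h <;> rw [h] <;> norm_num
    have e6 := VA_term ε₁ δ₀ C D η h1 hδ₀ hδ₁ hC hη hη1 hη2 (by linarith) hB X hX1 h2X d₁ hd₁ hd₁1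
      hd₁X2 K e (Nat.pos_of_mem_divisors he) hK'
    rw [e3, abs_mul, abs_mul, ← mul_assoc]
    calc |((ArithmeticFunction.moebius e : ℤ) : ℝ)| * |(chi d₁ e : ℝ)| *
          |∑ j ∈ Icc 1 (K / e), (chi d₁ j : ℝ)| ≤ 1 * |∑ j ∈ Icc 1 (K / e), (chi d₁ j : ℝ)| := by
          refine mul_le_mul_of_nonneg_right ?_ (abs_nonneg _)
          calc |((ArithmeticFunction.moebius e : ℤ) : ℝ)| * |(chi d₁ e : ℝ)| ≤ 1 * 1 :=
                mul_le_mul e4 e5 (abs_nonneg _) zero_le_one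
            _ = 1 := one_mul 1
      _ = |∑ j ∈ Icc 1 (K / e), (chi d₁ j : ℝ)| := one_mul _
      _ ≤ _ := e6
  refine (Finset.sum_le_sum e2).trans ?_
  rw [Finset.sum_const, nsmul_eq_mul]
  have e3 : (((d * d').natAbs.divisors.card : ℕ) : ℝ) ≤ C' * X ^ (η / 4) := by
    refine (hdiv _ hM).trans (mul_le_mul_of_nonneg_left ?_ hC'.le)
    calc (((d * d').natAbs : ℕ) : ℝ) ^ (η / 8) ≤ (X ^ (2 : ℝ)) ^ (η / 8) :=
          Real.rpow_le_rpow (Nat.cast_nonneg _) hMX (by linarith)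
      _ = X ^ (η / 4) := by
          rw [← Real.rpow_mul hX0.le]
          congr 1
          ring
  have hP : 0 ≤ (K : ℝ) * X ^ (-η) * (1 + C + |D|) := by positivity
  calc (((d * d').natAbs.divisors.card : ℕ) : ℝ) * (K * X ^ (-η) * (1 + C + |D|))
      ≤ C' * X ^ (η / 4) * (K * X ^ (-η) * (1 + C + |D|)) := mul_le_mul_of_nonneg_right e3 hP
    _ = A * (K * (X ^ (η / 4) * X ^ (-η))) := by rw [hA]; ring
    _ ≤ X ^ (η / 2) * (K * (X ^ (η / 4) * X ^ (-η))) :=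
        mul_le_mul_of_nonneg_right hAX (by positivity)
    _ = K * (X ^ (η / 2) * (X ^ (η / 4) * X ^ (-η))) := by ring
    _ = K * X ^ (-(η / 4)) := by
        rw [← Real.rpow_add hX0, ← Real.rpow_add hX0]
        congr 2
        ring

end BG
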