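import Pool.Agent.W_b58c63_m1.SPlB

/-!
# Theorem V, VB: sums of the sieve weights and of rough numbers

`rh z n` is the indicator of the `n ≥ 1` without prime factors `< z`, `tp' z b` the upper bound sieve,
`tm' z b` the lower bound sieve (fundamental lemma `FL`).
-/

set_option autoImplicit false

noncomputable section

open Finset

namespace Pool.Agent.M58

theorem VB_dvd (P : Finset ℕ) (hP : ∀ p ∈ P, p.Prime) (n : ℕ) (S : Finset ℕ) :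
    S ∈ (P.filter (· ∣ n)).powerset ↔ S ∈ P.powerset ∧ (∏ p ∈ S, p) ∣ n := by
  rw [mem_powerset, mem_powerset]
  constructor
  · intro h
    refine ⟨fun p hp => (mem_filter.1 (h hp)).1, ?_⟩
    exact Finset.prod_primes_dvd n (fun p hp => (hP p (mem_filter.1 (h hp)).1).prime)
      fun p hp => (mem_filter.1 (h hp)).2
  · rintro ⟨h1, h2⟩ p hp
    exact mem_filter.2 ⟨h1 hp, (Finset.dvd_prod_of_mem (fun p => p) hp).trans h2⟩

theorem VB_sub (D N : ℕ) (hD : 0 < D) (f : ℕ → ℝ) (hf : ∀ m n, f (m * n) = f m * f n) :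
    ∑ n ∈ (Icc 1 N).filter (D ∣ ·), f n = f D * ∑ k ∈ Icc 1 (N / D), f k := by
  rw [mul_sum]
  refine Finset.sum_nbij' (fun n => n / D) (fun k => D * k) ?_ ?_ ?_ ?_ ?_
  · intro n hn
    rw [mem_filter, mem_Icc] at hn
    obtain ⟨⟨h1, h2⟩, k, rfl⟩ := hn
    simp only [mem_Icc]
    rw [Nat.mul_div_cancel_left k hD]
    constructor
    · rcases Nat.eq_zero_or_pos k with h | h
      · rw [h] at h1
        omega
      · exact h
    · rw [Nat.le_div_iff_mul_le hD]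
      linarith [mul_comm D k]
  · intro k hk
    rw [mem_Icc] at hk
    rw [mem_filter, mem_Icc]
    refine ⟨⟨Nat.mul_pos hD hk.1, ?_⟩, dvd_mul_right D k⟩
    have h := (Nat.le_div_iff_mul_le hD).1 hk.2
    linarith [mul_comm D k]
  · intro n hn
    rw [mem_filter] at hn
    exact Nat.mul_div_cancel' hn.2
  · intro k _
    exact Nat.mul_div_cancel_left k hD
  · intro n hn
    rw [mem_filter] at hn
    rw [← hf]
    congr 1
    exact (Nat.mul_div_cancel' hn.2).symm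

theorem VB_prod_pos (P : Finset ℕ) (hP : ∀ p ∈ P, p.Prime) (S : Finset ℕ) (hS : S ∈ P.powerset) :
    0 < ∏ p ∈ S, p :=
  Finset.prod_pos fun p hp => (hP p (mem_powerset.1 hS hp)).pos

theorem VB_twist (P : Finset ℕ) (hP : ∀ p ∈ P, p.Prime) (N : ℕ) (w : Finset ℕ → ℝ) (f : ℕ → ℝ)
    (hf : ∀ m n, f (m * n) = f m * f n) :
    ∑ n ∈ Icc 1 N, (∑ S ∈ (P.filter (· ∣ n)).powerset, w S) * f n =
      ∑ S ∈ P.powerset, w S * (f (∏ p ∈ S, p) * ∑ k ∈ Icc 1 (N / ∏ p ∈ S, p), f k) := by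
  have h1 : ∀ n ∈ Icc 1 N, (∑ S ∈ (P.filter (· ∣ n)).powerset, w S) * f n =
      ∑ S ∈ P.powerset, if (∏ p ∈ S, p) ∣ n then w S * f n else 0 := by
    intro n _
    rw [sum_mul, ← sum_filter]
    refine sum_congr ?_ fun _ _ => rfl
    ext S
    rw [VB_dvd P hP, mem_filter]
  rw [sum_congr rfl h1, sum_comm]
  refine sum_congr rfl fun S hS => ?_
  rw [← VB_sub _ N (VB_prod_pos P hP S hS) f hf, mul_sum, sum_filter]

theorem VB_PI (z : ℝ) : ∀ p ∈ PI 0 z, p.Prime := fun p hp => (mem_PI.1 hp).1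

/-- PROOF. `tp_eq`; exchange the sums: for `S ⊆ PI 0 z` the condition `S ⊆ (PI 0 z).filter (· ∣ n)` means
`D = ∏ p ∈ S, p ∣ n` (distinct primes); substitute `n = D k`, `f (D k) = f D f k`. -/
theorem tp_twist (z : ℝ) (hz : 2 ≤ z) (b N : ℕ) (f : ℕ → ℝ) (hf : ∀ m n, f (m * n) = f m * f n) :
    ∑ n ∈ Icc 1 N, tp' z b n * f n =
      ∑ S ∈ (PI 0 z).powerset, lp' z b S * (f (∏ p ∈ S, p) *
        ∑ k ∈ Icc 1 (N / ∏ p ∈ S, p), f k) := by
  rw [← VB_twist (PI 0 z) (VB_PI z) N (lp' z b) f hf]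
  refine sum_congr rfl fun n _ => ?_
  rw [tp_eq z hz]

theorem VB_one (N D : ℕ) : (1 : ℝ) * ∑ _k ∈ Icc 1 (N / D), (1 : ℝ) = ((N / D : ℕ) : ℝ) := by
  rw [one_mul, sum_const, Nat.card_Icc, nsmul_eq_mul, mul_one, Nat.add_sub_cancel]

theorem VB_tp_sum (z : ℝ) (hz : 2 ≤ z) (b N : ℕ) :
    ∑ n ∈ Icc 1 N, tp' z b n =
      ∑ S ∈ (PI 0 z).powerset, lp' z b S * ((N / ∏ p ∈ S, p : ℕ) : ℝ) := by
  have h := tp_twist z hz b N (fun _ => 1) fun _ _ => (mul_one 1).symm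
  simp only [VB_one] at h
  simpa using h

/-- The same for the lower bound sieve, `f = 1`. -/
theorem tm_sum (z : ℝ) (hz : 2 ≤ z) (b N : ℕ) :
    ∑ n ∈ Icc 1 N, tm' z b n =
      ∑ S ∈ (PI 0 z).powerset, lm' z b S * ((N / ∏ p ∈ S, p : ℕ) : ℝ) := by
  have h := VB_twist (PI 0 z) (VB_PI z) N (lm' z b) (fun _ => 1) fun _ _ => (mul_one 1).symm
  simp only [VB_one] at h
  rw [← h]
  refine sum_congr rfl fun n _ => ?_
  rw [tm_eq z hz, mul_one]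

/-- PROOF. The sets `S ⊆ PI 0 z` of primes with `∏ p ∈ S, p ≤ Y` inject into `[1, Y]`. -/
theorem count_supp (z Y : ℝ) (hY : 0 ≤ Y) :
    ((((PI 0 z).powerset.filter (fun S => ((∏ p ∈ S, p : ℕ) : ℝ) ≤ Y)).card : ℕ) : ℝ) ≤ Y := by
  have h1 : ((PI 0 z).powerset.filter (fun S => ((∏ p ∈ S, p : ℕ) : ℝ) ≤ Y)).card ≤
      (Icc 1 ⌊Y⌋₊).card := by
    refine card_le_card_of_injOn (fun S => ∏ p ∈ S, p) ?_ ?_
    · intro S hS
      rw [mem_coe, mem_filter] at hS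
      rw [mem_coe, mem_Icc]
      exact ⟨VB_prod_pos _ (VB_PI z) S hS.1, Nat.le_floor hS.2⟩
    · intro S hS T hT h
      rw [mem_coe, mem_filter, mem_powerset] at hS hT
      have h2 := Nat.primeFactors_prod (s := S) fun p hp => VB_PI z p (hS.1 hp)
      have h3 := Nat.primeFactors_prod (s := T) fun p hp => VB_PI z p (hT.1 hp)
      have h4 : ∏ p ∈ S, p = ∏ p ∈ T, p := h
      rw [← h2, ← h3, h4]
  rw [Nat.card_Icc, Nat.add_sub_cancel] at h1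
  calc _ ≤ ((⌊Y⌋₊ : ℕ) : ℝ) := by exact_mod_cast h1
    _ ≤ Y := Nat.floor_le hY

/-- The conditions of `FL` for `1 / p`. -/
theorem VB_g (p : ℕ) (hp : p.Prime) :
    0 ≤ 1 / (p : ℝ) ∧ 1 / (p : ℝ) ≤ 3 / 4 ∧ 1 / (p : ℝ) ≤ 4 / p := by
  have h2 : (2 : ℝ) ≤ p := by exact_mod_cast hp.two_le
  have h0 : (0 : ℝ) < p := by linarith
  refine ⟨by positivity, ?_, ?_⟩
  · rw [div_le_iff₀ h0]
    linarith
  · exact div_le_div_of_nonneg_right (by norm_num) h0.le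

/-- The floor: `N / D = N ∏ 1/p - θ`. -/
theorem VB_floor (P : Finset ℕ) (hP : ∀ p ∈ P, p.Prime) (N : ℕ) (S : Finset ℕ)
    (hS : S ∈ P.powerset) :
    |((N / ∏ p ∈ S, p : ℕ) : ℝ) - N * ∏ p ∈ S, 1 / (p : ℝ)| ≤ 1 := by
  have hD := VB_prod_pos P hP S hS
  have h1 : ∏ p ∈ S, 1 / (p : ℝ) = 1 / ((∏ p ∈ S, p : ℕ) : ℝ) := by
    rw [prod_div_distrib, prod_const_one]
    push_cast
    rfl
  rw [h1, mul_one_div]
  set D := ∏ p ∈ S, p with hDd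
  have hD' : (0 : ℝ) < D := by exact_mod_cast hD
  have h2 : ((N / D : ℕ) : ℝ) ≤ (N : ℝ) / D := Nat.cast_div_le
  have h3 : (N : ℝ) / D < ((N / D : ℕ) : ℝ) + 1 := by
    rw [div_lt_iff₀ hD']
    have h4 : N < (N / D + 1) * D := by
      have h5 := Nat.div_add_mod N D
      have h6 := Nat.mod_lt N hD
      nlinarith
    exact_mod_cast h4
  rw [abs_le]
  constructor <;> linarith

/-- The main term and the error term. -/
theorem VB_main (z : ℝ) (N : ℕ) (w : Finset ℕ → ℝ) (Y B : ℝ) (hY : 0 ≤ Y) (hB : 0 ≤ B)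
    (hw : ∀ S ∈ (PI 0 z).powerset, w S ≠ 0 → ((∏ p ∈ S, p : ℕ) : ℝ) ≤ Y) (hwB : ∀ S, |w S| ≤ B) :
    |∑ S ∈ (PI 0 z).powerset, w S * ((N / ∏ p ∈ S, p : ℕ) : ℝ) -
      N * ∑ S ∈ (PI 0 z).powerset, w S * ∏ p ∈ S, 1 / (p : ℝ)| ≤ B * Y := by
  rw [mul_sum, ← sum_sub_distrib]
  refine (abs_sum_le_sum_abs _ _).trans ?_
  have h1 : ∀ S ∈ (PI 0 z).powerset, |w S * ((N / ∏ p ∈ S, p : ℕ) : ℝ) -
      N * (w S * ∏ p ∈ S, 1 / (p : ℝ))| ≤ if ((∏ p ∈ S, p : ℕ) : ℝ) ≤ Y then B else 0 := by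
    intro S hS
    have h2 : w S * ((N / ∏ p ∈ S, p : ℕ) : ℝ) - N * (w S * ∏ p ∈ S, 1 / (p : ℝ)) =
        w S * (((N / ∏ p ∈ S, p : ℕ) : ℝ) - N * ∏ p ∈ S, 1 / (p : ℝ)) := by ring
    rw [h2, abs_mul]
    have h3 := VB_floor (PI 0 z) (VB_PI z) N S hS
    split_ifs with h
    · calc _ ≤ B * 1 := mul_le_mul (hwB S) h3 (abs_nonneg _) hB
        _ = B := mul_one B
    · have h4 : w S = 0 := by
        by_contra h5
        exact h (hw S hS h5)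
      rw [h4, abs_zero, zero_mul]
  refine (sum_le_sum h1).trans ?_
  rw [← sum_filter, sum_const, nsmul_eq_mul, mul_comm]
  exact mul_le_mul_of_nonneg_left (count_supp z Y hY) hB

/-- Upper bounds. PROOF. `rh_bounds` (termwise, `n ≥ 1`), `tp_twist` with `f = 1`, `FL` with
`g p = 1/p` (`≤ 1/2`), `N / D = N * (1/D) + O(1)`, error at most the number of `S` with `lp' ≠ 0`
(`lp_supp`, `count_supp`, `|lp'| ≤ 1` from `lm_bound`). -/
theorem rough_upper : ∃ C : ℝ, 1 ≤ C ∧ ∀ (z : ℝ) (b N : ℕ), 2 ≤ z → 1 ≤ b →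
    ∑ n ∈ Icc 1 N, rh z n ≤ ∑ n ∈ Icc 1 N, tp' z b n ∧
    ∑ n ∈ Icc 1 N, tp' z b n ≤ N * (VP (fun p => 1 / (p : ℝ)) (PI 0 z) * (1 + C * Real.exp (-b))) +
      z ^ (4 * b + 5) := by
  obtain ⟨C, hC, h⟩ := FL
  obtain ⟨C', _, h'⟩ := lm_bound
  refine ⟨C, hC, fun z b N hz hb => ⟨?_, ?_⟩⟩
  · refine sum_le_sum fun n hn => ?_
    rw [mem_Icc] at hn
    exact (rh_bounds z hz b n hn.1).2.1
  · rw [VB_tp_sum z hz]
    have hY : (0 : ℝ) ≤ z ^ (4 * b + 5) := by positivity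
    have h1 := VB_main z N (lp' z b) (z ^ (4 * b + 5)) 1 hY zero_le_one
      (fun S hS hn => lp_supp z hz b S (mem_powerset.1 hS) hn) fun S => (h' z b S hz).1
    have h2 := (h z b (fun p => 1 / (p : ℝ)) hz hb VB_g).2.1
    have h3 := mul_le_mul_of_nonneg_left h2 (Nat.cast_nonneg (α := ℝ) N)
    have h4 := (abs_le.1 h1).2
    rw [one_mul] at h4
    linarith

/-- Lower bound. PROOF. `rh_bounds`, `tm_sum`, `FL`, `lm_supp`, `|lm'| ≤ C log z`. -/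
theorem rough_lower : ∃ C : ℝ, 1 ≤ C ∧ ∀ (z : ℝ) (b N : ℕ), 2 ≤ z → 1 ≤ b →
    N * (VP (fun p => 1 / (p : ℝ)) (PI 0 z) * (1 - C * Real.exp (-b))) -
      C * Real.log z * z ^ (4 * b + 5) ≤ ∑ n ∈ Icc 1 N, rh z n := by
  obtain ⟨C₁, hC₁, h⟩ := FL
  obtain ⟨C₂, hC₂, h'⟩ := lm_bound
  refine ⟨max C₁ C₂, hC₁.trans (le_max_left _ _), fun z b N hz hb => ?_⟩
  have hY : (0 : ℝ) ≤ z ^ (4 * b + 5) := by positivity
  have hl : 0 ≤ Real.log z := Real.log_nonneg (by linarith)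
  have h0 : ∑ n ∈ Icc 1 N, tm' z b n ≤ ∑ n ∈ Icc 1 N, rh z n := by
    refine sum_le_sum fun n hn => ?_
    rw [mem_Icc] at hn
    exact (rh_bounds z hz b n hn.1).1
  refine le_trans ?_ h0
  rw [tm_sum z hz]
  have h1 := VB_main z N (lm' z b) (z ^ (4 * b + 5)) (C₂ * Real.log z) hY (by positivity)
    (fun S hS hn => lm_supp z hz b S (mem_powerset.1 hS) hn) fun S => (h' z b S hz).2
  have h2 := (h z b (fun p => 1 / (p : ℝ)) hz hb VB_g).2.2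
  have h3 := mul_le_mul_of_nonneg_left h2 (Nat.cast_nonneg (α := ℝ) N)
  have h4 := (abs_le.1 h1).1
  have hV : 0 ≤ VP (fun p => 1 / (p : ℝ)) (PI 0 z) := by
    refine prod_nonneg fun p hp => ?_
    have := (VB_g p (VB_PI z p hp)).2.1
    linarith
  have h5 : (N : ℝ) * (VP (fun p => 1 / (p : ℝ)) (PI 0 z) * (1 - max C₁ C₂ * Real.exp (-b))) ≤
      N * (VP (fun p => 1 / (p : ℝ)) (PI 0 z) * (1 - C₁ * Real.exp (-b))) := by
    refine mul_le_mul_of_nonneg_left ?_ (Nat.cast_nonneg N)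
    refine mul_le_mul_of_nonneg_left ?_ hV
    have := mul_le_mul_of_nonneg_right (le_max_left C₁ C₂) (Real.exp_pos (-(b : ℝ))).le
    linarith
  have h6 : C₂ * Real.log z * z ^ (4 * b + 5) ≤ max C₁ C₂ * Real.log z * z ^ (4 * b + 5) :=
    mul_le_mul_of_nonneg_right (mul_le_mul_of_nonneg_right (le_max_right C₁ C₂) hl) hY
  linarith

/-- A twisted sum: `f` completely multiplicative, `|f| ≤ 1`, with small sums from `K₀` on.

PROOF. `tp_twist`; the `S` with `lp' ≠ 0` have `D = ∏ p ∈ S, p ≤ z^(4b+5)`, so `N / D ≥ K₀` and the inner sum is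
at most `(N/D) ρ ≤ N ρ / D`; `∑_D 1/D` over `D ≤ Y = z^(4b+5)` is at most the number `Y` of these `D`
(crude), `|lp'| ≤ 1`, `|f D| ≤ 1`. -/
theorem tp_corr (z : ℝ) (b N : ℕ) (hz : 2 ≤ z) (f : ℕ → ℝ)
    (hf : ∀ m n, f (m * n) = f m * f n) (hf1 : ∀ n, |f n| ≤ 1) (ρ : ℝ) (hρ : 0 ≤ ρ) (K₀ : ℝ)
    (hK : ∀ D : ℕ, 1 ≤ D → (D : ℝ) ≤ z ^ (4 * b + 5) → K₀ ≤ ((N / D : ℕ) : ℝ))
    (hs : ∀ K : ℕ, K₀ ≤ K → |∑ k ∈ Icc 1 K, f k| ≤ K * ρ) :
    |∑ n ∈ Icc 1 N, tp' z b n * f n| ≤ z ^ (4 * b + 5) * (N * ρ) := by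
  obtain ⟨C', _, h'⟩ := lm_bound
  have hY : (0 : ℝ) ≤ z ^ (4 * b + 5) := by positivity
  have hN : 0 ≤ (N : ℝ) * ρ := by positivity
  rw [tp_twist z hz b N f hf]
  refine (abs_sum_le_sum_abs _ _).trans ?_
  have h1 : ∀ S ∈ (PI 0 z).powerset, |lp' z b S * (f (∏ p ∈ S, p) *
      ∑ k ∈ Icc 1 (N / ∏ p ∈ S, p), f k)| ≤
      if ((∏ p ∈ S, p : ℕ) : ℝ) ≤ z ^ (4 * b + 5) then (N : ℝ) * ρ else 0 := by
    intro S hS
    split_ifs with h
    · rw [abs_mul, abs_mul]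
      have h2 := hK _ (VB_prod_pos _ (VB_PI z) S hS) h
      have h3 := hs _ h2
      have h4 : ((N / ∏ p ∈ S, p : ℕ) : ℝ) ≤ N := by exact_mod_cast Nat.div_le_self _ _
      have h5 : ((N / ∏ p ∈ S, p : ℕ) : ℝ) * ρ ≤ N * ρ := mul_le_mul_of_nonneg_right h4 hρ
      calc _ ≤ 1 * (1 * ((N : ℝ) * ρ)) := by
            refine mul_le_mul (h' z b S hz).1 ?_ (by positivity) zero_le_one
            exact mul_le_mul (hf1 _) (h3.trans h5) (abs_nonneg _) zero_le_one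
        _ = _ := by ring
    · have h4 : lp' z b S = 0 := by
        by_contra h5
        exact h (lp_supp z hz b S (mem_powerset.1 hS) h5)
      rw [h4, zero_mul, abs_zero]
  refine (sum_le_sum h1).trans ?_
  rw [← sum_filter, sum_const, nsmul_eq_mul]
  exact mul_le_mul_of_nonneg_right (count_supp z _ hY) hN

end Pool.Agent.M58
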