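import Pool.Agent.W_aaa0df_v.VB

/-!
# Theorem V, VC: rough numbers with a large prime factor
-/

set_option autoImplicit false

noncomputable section

open Finset

namespace Pool.Agent.M58

/-- The prime counting bound. -/
theorem VC_pi (N : ℕ) (hN : 2 ≤ N) :
    (((Icc 1 N).filter Nat.Prime).card : ℝ) ≤ 6 * (N / Real.log N) := by
  have hN' : (2 : ℝ) ≤ N := by exact_mod_cast hN
  have hN0 : (0 : ℝ) < N := by linarith
  have h1 := Chebyshev.pi_le_log4_mul_div (x := (N : ℝ)) (by linarith)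
  rw [Nat.floor_natCast] at h1
  have h2 : (((Icc 1 N).filter Nat.Prime).card : ℝ) ≤ (Nat.primeCounting N : ℝ) := by
    have : ((Icc 1 N).filter Nat.Prime).card ≤ Nat.primeCounting N := by
      rw [Nat.primeCounting, Nat.primeCounting', Nat.count_eq_card_filter_range]
      refine Finset.card_le_card fun p hp => ?_
      rw [mem_filter, mem_Icc] at hp
      rw [mem_filter, mem_range]
      exact ⟨by omega, hp.2⟩
    exact_mod_cast this
  have hlog : 0 < Real.log N := Real.log_pos (by linarith)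
  have hs : Real.log (Real.sqrt N) = Real.log N / 2 := Real.log_sqrt hN0.le
  have hsq : Real.sqrt N * Real.sqrt N = N := Real.mul_self_sqrt hN0.le
  have hs0 : 0 < Real.sqrt N := Real.sqrt_pos.2 hN0
  have h3 : Real.log (Real.sqrt N) ≤ Real.sqrt N := by
    have := Real.log_le_sub_one_of_pos hs0
    linarith
  rw [hs] at h3 h1
  have h4 : Real.sqrt N ≤ 2 * (N / Real.log N) := by
    rw [← mul_div_assoc, le_div_iff₀ hlog]
    nlinarith
  have h5 : Real.log 4 ≤ 2 := by
    have : Real.log 4 = 2 * Real.log 2 := by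
      rw [show (4 : ℝ) = 2 ^ 2 by norm_num, Real.log_pow]; norm_num
    rw [this]
    linarith [Real.log_two_lt_d9]
  have h6 : Real.log 4 * N / (Real.log N / 2) = 2 * Real.log 4 * (N / Real.log N) := by
    field_simp
  rw [h6] at h1
  have h7 : 0 < N / Real.log N := div_pos hN0 hlog
  nlinarith

theorem VC_rh_one {z : ℝ} {n : ℕ} (h : rh z n ≠ 0) :
    rh z n = 1 ∧ n ≠ 0 ∧ ∀ p ∈ n.primeFactors, z ≤ (p : ℝ) := by
  unfold rh at h ⊢
  by_cases h1 : n ≠ 0 ∧ ∀ p ∈ n.primeFactors, z ≤ (p : ℝ)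
  · rw [if_pos h1]
    exact ⟨rfl, h1.1, h1.2⟩
  · rw [if_neg h1] at h
    exact absurd rfl h

theorem VC_rh_nonneg (z : ℝ) (n : ℕ) : 0 ≤ rh z n := by
  unfold rh
  split_ifs <;> norm_num

theorem VC_rh_le (z : ℝ) (n : ℕ) : rh z n ≤ 1 := by
  unfold rh
  split_ifs <;> norm_num

theorem VC_rh_eq_one {z : ℝ} {n : ℕ} (h0 : n ≠ 0) (h : ∀ p ∈ n.primeFactors, z ≤ (p : ℝ)) :
    rh z n = 1 := by
  unfold rh
  rw [if_pos ⟨h0, h⟩]

/-- The map `n ↦ 1 / n`. -/
def VC_inv : ℕ →* ℝ where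
  toFun n := (n : ℝ)⁻¹
  map_one' := by simp
  map_mul' m n := by push_cast; rw [mul_inv]

theorem VC_inv_apply (n : ℕ) : VC_inv n = (n : ℝ)⁻¹ := rfl

/-- PROOF. `∑_{k ≤ K} rh z k / k ≤ ∏_{z ≤ p ≤ K} (1 - 1/p)^(-1) ≤ exp(∑_{z ≤ p ≤ K} (1/p + 2/p²)) ≤ C log K / log z`
(`Wb58c63.mertens_two`; every `k ≤ K` with `rh z k = 1` is a product of primes in `[z, K]`). For instance by
`Nat.smoothNumbers`/`EulerProduct`, or by induction over the primes. -/
theorem rough_recip : ∃ C : ℝ, 0 < C ∧ ∀ (z : ℝ) (K : ℕ), 2 ≤ z → z ≤ K →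
    ∑ k ∈ Icc 1 K, rh z k / k ≤ C * (Real.log K / Real.log z) := by
  classical
  obtain ⟨C, hC, h⟩ := Pool.Agent.Wb58c63.mertens_two'
  refine ⟨2 * Real.exp (C / Real.log 2), by positivity, fun z K hz hzK => ?_⟩
  have hK2 : (2 : ℝ) ≤ K := hz.trans hzK
  have hlz : 0 < Real.log z := Real.log_pos (by linarith)
  have hl2 : 0 < Real.log 2 := Real.log_pos (by norm_num)
  have hlK : 0 < Real.log K := Real.log_pos (by linarith)
  set P := Pool.Agent.Wb58c63.PI z ((K : ℝ) + 1) with hP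
  have hPp : ∀ p ∈ P, p.Prime := fun p hp => (Pool.Agent.Wb58c63.mem_PI.1 hp).1
  have hlt : ∀ {p : ℕ}, p.Prime → ‖VC_inv p‖ < 1 := by
    intro p hp
    have h2 : (2 : ℝ) ≤ p := by exact_mod_cast hp.two_le
    rw [VC_inv_apply, Real.norm_of_nonneg (by positivity)]
    exact inv_lt_one_of_one_lt₀ (by linarith)
  have H := (EulerProduct.summable_and_hasSum_factoredNumbers_prod_filter_prime_geometric
    (f := VC_inv) hlt P).2
  rw [Finset.filter_true_of_mem hPp] at H
  set T := (Icc 1 K).filter (fun k => rh z k ≠ 0) with hT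
  have hTmem : ∀ k ∈ T, k ∈ Nat.factoredNumbers P := by
    intro k hk
    rw [hT, mem_filter, mem_Icc] at hk
    obtain ⟨_, hk0, hkz⟩ := VC_rh_one hk.2
    refine Nat.mem_factoredNumbers_of_primeFactors_subset hk0 fun p hp => ?_
    rw [hP, Pool.Agent.Wb58c63.mem_PI]
    refine ⟨Nat.prime_of_mem_primeFactors hp, hkz p hp, ?_⟩
    have h1 : p ≤ k := Nat.le_of_mem_primeFactors hp
    have h2 : (p : ℝ) ≤ K := by exact_mod_cast h1.trans hk.1.2
    linarith
  have h1 : ∑ k ∈ Icc 1 K, rh z k / k = ∑ k ∈ T, VC_inv k := by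
    rw [hT, Finset.sum_filter]
    refine Finset.sum_congr rfl fun k _ => ?_
    by_cases hk : rh z k = 0
    · rw [hk, zero_div, if_neg (by simp)]
    · rw [if_pos hk, (VC_rh_one hk).1, VC_inv_apply, one_div]
  have h2 : ∑ k ∈ T, VC_inv k ≤ ∏ p ∈ P, (1 - VC_inv p)⁻¹ := by
    rw [← Finset.sum_subtype_of_mem (p := fun k => k ∈ Nat.factoredNumbers P) (fun k => VC_inv k)
      hTmem]
    exact sum_le_hasSum _ (fun m _ => by rw [VC_inv_apply]; positivity) H
  have h3 : ∏ p ∈ P, (1 - VC_inv p)⁻¹ ≤ Real.exp (∑ p ∈ P, (1 : ℝ) / ((p : ℝ) - 1)) := by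
    rw [Real.exp_sum]
    refine Finset.prod_le_prod (fun p hp => ?_) fun p hp => ?_
    · have := hlt (hPp p hp)
      rw [Real.norm_eq_abs, abs_lt] at this
      exact inv_nonneg.2 (by linarith [this.2])
    · have hp2 : (2 : ℝ) ≤ p := by exact_mod_cast (hPp p hp).two_le
      have e : (1 - VC_inv p)⁻¹ = 1 / ((p : ℝ) - 1) + 1 := by
        rw [VC_inv_apply]
        have h5 : (p : ℝ) - 1 ≠ 0 := by linarith
        have h6 : (p : ℝ) ≠ 0 := by linarith
        have h7 : (1 : ℝ) - (p : ℝ)⁻¹ ≠ 0 := by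
          intro h8
          apply h5
          field_simp at h8
          linarith
        field_simp
        ring
      rw [e]
      exact Real.add_one_le_exp _
  have h4 := h z ((K : ℝ) + 1) hz (by linarith)
  rw [← hP] at h4
  have hK1 : 0 < Real.log ((K : ℝ) + 1) := Real.log_pos (by linarith)
  have h5 : Real.log ((K : ℝ) + 1) ≤ 2 * Real.log K := by
    have e : 2 * Real.log K = Real.log ((K : ℝ) ^ 2) := by
      rw [Real.log_pow]; norm_num
    rw [e]
    exact Real.log_le_log (by linarith) (by nlinarith)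
  have h6 : C / Real.log z ≤ C / Real.log 2 :=
    div_le_div_of_nonneg_left hC.le hl2 (Real.log_le_log (by norm_num) hz)
  calc ∑ k ∈ Icc 1 K, rh z k / k ≤ Real.exp (∑ p ∈ P, (1 : ℝ) / ((p : ℝ) - 1)) := by
        rw [h1]; exact h2.trans h3
    _ ≤ Real.exp (Real.log (Real.log ((K : ℝ) + 1) / Real.log z) + C / Real.log 2) :=
        Real.exp_le_exp.2 (h4.trans (by linarith))
    _ = (Real.log ((K : ℝ) + 1) / Real.log z) * Real.exp (C / Real.log 2) := by
        rw [Real.exp_add, Real.exp_log (div_pos hK1 hlz)]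
    _ ≤ (2 * Real.log K / Real.log z) * Real.exp (C / Real.log 2) :=
        mul_le_mul_of_nonneg_right (div_le_div_of_nonneg_right h5 hlz.le) (Real.exp_pos _).le
    _ = 2 * Real.exp (C / Real.log 2) * (Real.log K / Real.log z) := by ring

/-- The primes `p ∈ (N/K, N]`.

PROOF. `∑_{p} ∑_{n ≤ N/p} rh z n = ∑_{n ≤ K} rh z n #{p : N/K < p ≤ N/n}` (for `p > N/K`, natural division,
`N / p < K` or `≤ K`), at most `∑_{n ≤ K} rh z n π(N/n)`, and `π(t) ≤ C t / log t ≤ 2 C (N/n)/log N` for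
`t = N / n ≥ √N` (Chebyshev, e.g. `Chebyshev` in Mathlib or `cheb_upper` in `W_aaa0df_t9/P1`);
`rough_recip`. -/
theorem near_part : ∃ C : ℝ, 0 < C ∧ ∀ (z : ℝ) (K N : ℕ), 2 ≤ z → z ≤ K → K * K ≤ N →
    ∑ p ∈ (Ioc (N / K) N).filter Nat.Prime, ∑ n ∈ Icc 1 (N / p), rh z n ≤
      C * (N / Real.log N * (Real.log K / Real.log z)) := by
  classical
  obtain ⟨C₁, hC₁, hr⟩ := rough_recip
  refine ⟨12 * C₁, by positivity, fun z K N hz hzK hKN => ?_⟩
  have hK2 : (2 : ℝ) ≤ K := hz.trans hzK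
  have hK2' : 2 ≤ K := by exact_mod_cast hK2
  have hN4 : 4 ≤ N := by nlinarith
  have hN0 : (0 : ℝ) < N := by
    have : 0 < N := by omega
    exact_mod_cast this
  have hlN : 0 < Real.log N := Real.log_pos (by
    have : (4 : ℝ) ≤ N := by exact_mod_cast hN4
    linarith)
  set F := (Ioc (N / K) N).filter Nat.Prime with hF
  -- exchange of the sums
  have h1 : ∑ p ∈ F, ∑ n ∈ Icc 1 (N / p), rh z n ≤
      ∑ n ∈ Icc 1 (K - 1), rh z n * (((Icc 1 (N / n)).filter Nat.Prime).card : ℝ) := by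
    have e1 : ∀ p ∈ F, ∑ n ∈ Icc 1 (N / p), rh z n =
        ∑ n ∈ Icc 1 (K - 1), if n ≤ N / p then rh z n else 0 := by
      intro p hp
      rw [hF, mem_filter, mem_Ioc] at hp
      have hp1 : N / p < K := by
        have h2 : N < p * K := (Nat.div_lt_iff_lt_mul (by omega)).1 hp.1.1
        exact (Nat.div_lt_iff_lt_mul hp.2.pos).2 (by rw [mul_comm]; exact h2)
      rw [← Finset.sum_filter]
      refine Finset.sum_congr ?_ fun _ _ => rfl
      ext n
      rw [mem_filter, mem_Icc, mem_Icc]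
      omega
    rw [Finset.sum_congr rfl e1, Finset.sum_comm]
    refine Finset.sum_le_sum fun n hn => ?_
    rw [mem_Icc] at hn
    rw [← Finset.sum_filter, Finset.sum_const, nsmul_eq_mul, mul_comm]
    refine mul_le_mul_of_nonneg_left ?_ (VC_rh_nonneg z n)
    have : (F.filter fun p => n ≤ N / p).card ≤ ((Icc 1 (N / n)).filter Nat.Prime).card := by
      refine Finset.card_le_card fun p hp => ?_
      rw [mem_filter, hF, mem_filter, mem_Ioc] at hp
      rw [mem_filter, mem_Icc]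
      refine ⟨⟨hp.1.2.one_lt.le, ?_⟩, hp.1.2⟩
      have h2 := (Nat.le_div_iff_mul_le hp.1.2.pos).1 hp.2
      exact (Nat.le_div_iff_mul_le (by omega)).2 (by rw [mul_comm]; exact h2)
    exact_mod_cast this
  have h2 : ∀ n ∈ Icc 1 (K - 1), (((Icc 1 (N / n)).filter Nat.Prime).card : ℝ) ≤
      12 * (N / Real.log N) * (1 / n) := by
    intro n hn
    rw [mem_Icc] at hn
    have hn0 : (0 : ℝ) < n := by
      have : 0 < n := by omega
      exact_mod_cast this
    set m := Nat.sqrt N with hm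
    have hKm : K ≤ m := Nat.le_sqrt.2 hKN
    have hmN : m * m ≤ N := Nat.sqrt_le N
    have hNm : N < (m + 1) * (m + 1) := Nat.lt_succ_sqrt N
    set t := N / n with ht
    have htm : m + 1 ≤ t := by
      rw [ht, Nat.le_div_iff_mul_le (by omega)]
      obtain ⟨k, hk⟩ : ∃ k, m = k + 1 := ⟨m - 1, by omega⟩
      have h3 : n ≤ k := by omega
      have h4 : (m + 1) * n ≤ (m + 1) * k := Nat.mul_le_mul_left _ h3
      have h5 : (m + 1) * k ≤ m * m := by rw [hk]; nlinarith
      omega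
    have ht2 : 2 ≤ t := by omega
    have htN : N ≤ t * t := by nlinarith
    have htr : (t : ℝ) ≤ N / n := Nat.cast_div_le
    have ht2r : (2 : ℝ) ≤ t := by exact_mod_cast ht2
    have hlt : Real.log N / 2 ≤ Real.log t := by
      have h3 : Real.log N ≤ Real.log ((t : ℝ) * t) := by
        refine Real.log_le_log hN0 ?_
        exact_mod_cast htN
      rw [Real.log_mul (by linarith) (by linarith)] at h3
      linarith
    refine (VC_pi t ht2).trans ?_
    have h4 : (t : ℝ) / Real.log t ≤ (N / n) / (Real.log N / 2) :=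
      div_le_div₀ (by positivity) htr (by positivity) hlt
    have h5 : (N / n : ℝ) / (Real.log N / 2) = 2 * (N / Real.log N) * (1 / n) := by
      field_simp
    rw [h5] at h4
    linarith
  have h3 : ∑ n ∈ Icc 1 (K - 1), rh z n * (((Icc 1 (N / n)).filter Nat.Prime).card : ℝ) ≤
      12 * (N / Real.log N) * ∑ n ∈ Icc 1 K, rh z n / n := by
    have h4 : ∑ n ∈ Icc 1 (K - 1), rh z n * (((Icc 1 (N / n)).filter Nat.Prime).card : ℝ) ≤
        ∑ n ∈ Icc 1 (K - 1), 12 * (N / Real.log N) * (rh z n / n) := by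
      refine Finset.sum_le_sum fun n hn => ?_
      refine (mul_le_mul_of_nonneg_left (h2 n hn) (VC_rh_nonneg z n)).trans (le_of_eq ?_)
      ring
    refine h4.trans ?_
    rw [← Finset.mul_sum]
    refine mul_le_mul_of_nonneg_left ?_ (by positivity)
    refine Finset.sum_le_sum_of_subset_of_nonneg (Finset.Icc_subset_Icc_right (by omega)) ?_
    intro n _ _
    exact div_nonneg (VC_rh_nonneg z n) (Nat.cast_nonneg n)
  have h4 := hr z K hz hzK
  calc ∑ p ∈ F, ∑ n ∈ Icc 1 (N / p), rh z n ≤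
      12 * (N / Real.log N) * ∑ n ∈ Icc 1 K, rh z n / n := h1.trans h3
    _ ≤ 12 * (N / Real.log N) * (C₁ * (Real.log K / Real.log z)) :=
        mul_le_mul_of_nonneg_left h4 (by positivity)
    _ = 12 * C₁ * (N / Real.log N * (Real.log K / Real.log z)) := by ring

/-- The primes `p ∈ [y, N/K]`.

PROOF. `rough_upper` for `N / p`: `∑_{n ≤ N/p} rh z n ≤ (N/p) V (1 + C e^(-b)) + z^(4b+5)`; sum over
`y ≤ p ≤ N/K` with `Wb58c63.mertens_two` (`PI y (N/K + 1)`; `log (N/K+1) ≤ log N` as `K ≥ 2`): the number of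
these primes is at most `N / K`. -/
theorem far_part : ∃ C : ℝ, 1 ≤ C ∧ ∀ (z y : ℝ) (b K N : ℕ), 2 ≤ z → 1 ≤ b → 2 ≤ y → y ≤ N → 2 ≤ K →
    K ≤ N →
    ∑ p ∈ (Icc 1 (N / K)).filter (fun p : ℕ => p.Prime ∧ y ≤ p), ∑ n ∈ Icc 1 (N / p), rh z n ≤
      N * (VP (fun p => 1 / (p : ℝ)) (PI 0 z) * (1 + C * Real.exp (-b)) *
        (Real.log (Real.log N / Real.log y) + C / Real.log y)) + N / K * z ^ (4 * b + 5) := by
  classical
  obtain ⟨C₁, hC₁, h1⟩ := rough_upper
  obtain ⟨C₂, hC₂, h2⟩ := Pool.Agent.Wb58c63.mertens_two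
  refine ⟨max C₁ C₂, hC₁.trans (le_max_left _ _), fun z y b K N hz hb hy hyN hK hKN => ?_⟩
  set C := max C₁ C₂ with hC
  have hC1 : C₁ ≤ C := le_max_left _ _
  have hC2 : C₂ ≤ C := le_max_right _ _
  have hC0 : 0 < C := by linarith
  set V := VP (fun p => 1 / (p : ℝ)) (PI 0 z) with hV
  have hV0 : 0 ≤ V := by
    rw [hV]
    unfold VP
    refine Finset.prod_nonneg fun p hp => ?_
    have hp2 : (2 : ℝ) ≤ p := by exact_mod_cast (mem_PI.1 hp).1.two_le
    have : 1 / (p : ℝ) ≤ 1 := by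
      rw [div_le_one (by linarith)]; linarith
    linarith
  set W := V * (1 + C * Real.exp (-b)) with hW
  have hW0 : 0 ≤ W := by positivity
  have hN2 : 2 ≤ N := by omega
  have hN0 : (0 : ℝ) ≤ N := Nat.cast_nonneg N
  have hz0 : (0 : ℝ) ≤ z := by linarith
  set F := (Icc 1 (N / K)).filter (fun p : ℕ => p.Prime ∧ y ≤ p) with hF
  have hterm : ∀ p ∈ F, ∑ n ∈ Icc 1 (N / p), rh z n ≤ N * W * (1 / p) + z ^ (4 * b + 5) := by
    intro p hp
    obtain ⟨ha, hb'⟩ := h1 z b (N / p) hz hb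
    refine ha.trans (hb'.trans (add_le_add_left ?_ _))
    have h3 : ((N / p : ℕ) : ℝ) ≤ N / p := Nat.cast_div_le
    have h4 : VP (fun p => 1 / (p : ℝ)) (PI 0 z) * (1 + C₁ * Real.exp (-b)) ≤ W := by
      rw [hW, ← hV]
      refine mul_le_mul_of_nonneg_left ?_ hV0
      have := mul_le_mul_of_nonneg_right hC1 (Real.exp_pos (-(b : ℝ))).le
      linarith
    calc ((N / p : ℕ) : ℝ) * (VP (fun p => 1 / (p : ℝ)) (PI 0 z) * (1 + C₁ * Real.exp (-b))) ≤
        ((N / p : ℕ) : ℝ) * W := mul_le_mul_of_nonneg_left h4 (Nat.cast_nonneg _)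
      _ ≤ N / p * W := mul_le_mul_of_nonneg_right h3 hW0
      _ = N * W * (1 / p) := by ring
  have hly : 0 < Real.log y := Real.log_pos (by linarith)
  have hyN' : Real.log y ≤ Real.log N := Real.log_le_log (by linarith) hyN
  have hS : ∑ p ∈ F, (1 : ℝ) / p ≤ Real.log (Real.log N / Real.log y) + C / Real.log y := by
    by_cases hc : y ≤ ((N / K : ℕ) : ℝ) + 1
    · have h3 := h2 y (((N / K : ℕ) : ℝ) + 1) hy hc
      have h4 : ∑ p ∈ F, (1 : ℝ) / p ≤
          ∑ p ∈ Pool.Agent.Wb58c63.PI y (((N / K : ℕ) : ℝ) + 1), (1 : ℝ) / p := by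
        refine Finset.sum_le_sum_of_subset_of_nonneg (fun p hp => ?_) fun p _ _ => by positivity
        rw [hF, mem_filter, mem_Icc] at hp
        rw [Pool.Agent.Wb58c63.mem_PI]
        refine ⟨hp.2.1, hp.2.2, ?_⟩
        have : (p : ℝ) ≤ ((N / K : ℕ) : ℝ) := by exact_mod_cast hp.1.2
        linarith
      have h5 : ((N / K : ℕ) : ℝ) + 1 ≤ N := by
        have : N / K + 1 ≤ N := by
          have h6 : N / K ≤ N / 2 := Nat.div_le_div_left hK (by norm_num)
          omega
        exact_mod_cast this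
      have h6 : 0 < Real.log (((N / K : ℕ) : ℝ) + 1) := lt_of_lt_of_le hly
        (Real.log_le_log (by linarith) hc)
      have h7 : Real.log (Real.log (((N / K : ℕ) : ℝ) + 1) / Real.log y) ≤
          Real.log (Real.log N / Real.log y) := by
        refine Real.log_le_log (div_pos h6 hly) (div_le_div_of_nonneg_right ?_ hly.le)
        exact Real.log_le_log (by positivity) h5
      have h8 : C₂ / Real.log y ≤ C / Real.log y := div_le_div_of_nonneg_right hC2 hly.le
      linarith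
    · have hFe : F = ∅ := by
        rw [hF, Finset.filter_eq_empty_iff]
        intro p hp hp2
        rw [mem_Icc] at hp
        have : (p : ℝ) ≤ ((N / K : ℕ) : ℝ) := by exact_mod_cast hp.2
        apply hc
        linarith [hp2.2]
      rw [hFe, Finset.sum_empty]
      have h3 : 0 ≤ Real.log (Real.log N / Real.log y) :=
        Real.log_nonneg (by rw [le_div_iff₀ hly]; linarith)
      positivity
  have hcard : (F.card : ℝ) ≤ N / K := by
    have h3 : F.card ≤ N / K := by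
      calc F.card ≤ (Icc 1 (N / K)).card := Finset.card_filter_le _ _
        _ = N / K := by rw [Nat.card_Icc, Nat.add_sub_cancel]
    have h4 : (F.card : ℝ) ≤ ((N / K : ℕ) : ℝ) := by exact_mod_cast h3
    exact h4.trans Nat.cast_div_le
  calc ∑ p ∈ F, ∑ n ∈ Icc 1 (N / p), rh z n ≤
      ∑ p ∈ F, (N * W * (1 / p) + z ^ (4 * b + 5)) := Finset.sum_le_sum hterm
    _ = N * W * ∑ p ∈ F, (1 : ℝ) / p + F.card * z ^ (4 * b + 5) := by
        rw [Finset.sum_add_distrib, ← Finset.mul_sum, Finset.sum_const, nsmul_eq_mul]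
    _ ≤ N * W * (Real.log (Real.log N / Real.log y) + C / Real.log y) +
        N / K * z ^ (4 * b + 5) :=
        add_le_add (mul_le_mul_of_nonneg_left hS (by positivity))
          (mul_le_mul_of_nonneg_right hcard (by positivity))
    _ = N * (W * (Real.log (Real.log N / Real.log y) + C / Real.log y)) +
        N / K * z ^ (4 * b + 5) := by ring

open Classical in
/-- Lower bound for the number of `n ≤ N` all of whose prime factors are in `[z, y)` and not in `S'`.

PROOF. A rough `n` (`rh z n = 1`) not counted has a prime factor `p ≥ y` or `p ∈ S'`; in the first case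
`n = p k`, `k ≤ N/p`, `rh z k = 1` (`k ≥ 1`, its prime factors divide `n`); in the second there are at most
`N / p` such `n`. -/
theorem good_lower (z y : ℝ) (N : ℕ) (S' : Finset ℕ) (hS : ∀ p ∈ S', p.Prime) :
    ∑ n ∈ Icc 1 N, rh z n -
        ∑ p ∈ (Icc 1 N).filter (fun p : ℕ => p.Prime ∧ y ≤ p), ∑ n ∈ Icc 1 (N / p), rh z n -
        ∑ p ∈ S', (N : ℝ) / p ≤
      (((Icc 1 N).filter (fun n => ∀ p : ℕ, p.Prime → p ∣ n →
        z ≤ p ∧ (p : ℝ) < y ∧ p ∉ S')).card : ℝ) := by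
  have hrh0 := fun n => VC_rh_nonneg z n
  -- termwise
  have hterm : ∀ n ∈ Icc 1 N, rh z n ≤
      (if (∀ p : ℕ, p.Prime → p ∣ n → z ≤ p ∧ (p : ℝ) < y ∧ p ∉ S') then (1 : ℝ) else 0) +
      (∑ p ∈ (Icc 1 N).filter (fun p : ℕ => p.Prime ∧ y ≤ p), if p ∣ n then rh z (n / p) else 0) +
      ∑ p ∈ S', if p ∣ n then (1 : ℝ) else 0 := by
    intro n hn
    rw [mem_Icc] at hn
    have hA : 0 ≤ ∑ p ∈ (Icc 1 N).filter (fun p : ℕ => p.Prime ∧ y ≤ p),
        if p ∣ n then rh z (n / p) else 0 :=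
      Finset.sum_nonneg fun p _ => by split_ifs; exacts [hrh0 _, le_refl _]
    have hB : 0 ≤ ∑ p ∈ S', if p ∣ n then (1 : ℝ) else 0 :=
      Finset.sum_nonneg fun p _ => by split_ifs <;> norm_num
    have hG : (0 : ℝ) ≤ (if (∀ p : ℕ, p.Prime → p ∣ n → z ≤ p ∧ (p : ℝ) < y ∧ p ∉ S') then
        (1 : ℝ) else 0) := by split_ifs <;> norm_num
    by_cases h0 : rh z n = 0
    · rw [h0]; positivity
    obtain ⟨h1, hn0, hnz⟩ := VC_rh_one h0
    rw [h1]
    by_cases hg : ∀ p : ℕ, p.Prime → p ∣ n → z ≤ p ∧ (p : ℝ) < y ∧ p ∉ S'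
    · rw [if_pos hg]; linarith
    · push Not at hg
      obtain ⟨p, hp, hpn, hpz⟩ := hg
      have hpmem : p ∈ n.primeFactors := Nat.mem_primeFactors.2 ⟨hp, hpn, hn0⟩
      have hzp := hnz p hpmem
      by_cases hpy : y ≤ p
      · have hpn' : p ≤ n := Nat.le_of_dvd (by omega) hpn
        have hnp0 : n / p ≠ 0 := (Nat.div_pos hpn' hp.pos).ne'
        have hdvd : n / p ∣ n := Nat.div_dvd_of_dvd hpn
        have h2 : rh z (n / p) = 1 := VC_rh_eq_one hnp0 fun r hr =>
          hnz r (Nat.primeFactors_mono hdvd hn0 hr)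
        have h3 : (if p ∣ n then rh z (n / p) else 0) ≤
            ∑ p ∈ (Icc 1 N).filter (fun p : ℕ => p.Prime ∧ y ≤ p),
              if p ∣ n then rh z (n / p) else 0 := by
          refine Finset.single_le_sum (f := fun p => if p ∣ n then rh z (n / p) else 0)
            (fun q _ => ?_) ?_
          · change 0 ≤ (if q ∣ n then rh z (n / q) else 0)
            split_ifs; exacts [hrh0 _, le_refl _]
          · rw [mem_filter, mem_Icc]
            exact ⟨⟨hp.one_lt.le, hpn'.trans hn.2⟩, hp, hpy⟩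
        rw [if_pos hpn, h2] at h3
        linarith
      · have hpS : p ∈ S' := by
          by_contra hcon
          exact hcon (hpz hzp (not_le.1 hpy))
        have h3 : (if p ∣ n then (1 : ℝ) else 0) ≤ ∑ p ∈ S', if p ∣ n then (1 : ℝ) else 0 := by
          refine Finset.single_le_sum (f := fun p => if p ∣ n then (1 : ℝ) else 0)
            (fun q _ => ?_) hpS
          change (0 : ℝ) ≤ (if q ∣ n then (1 : ℝ) else 0)
          split_ifs <;> norm_num
        rw [if_pos hpn] at h3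
        linarith
  have hsum := Finset.sum_le_sum hterm
  rw [Finset.sum_add_distrib, Finset.sum_add_distrib] at hsum
  -- the multiples of `p`
  have hmul : ∀ (p : ℕ) (f : ℕ → ℝ), 1 ≤ p →
      ∑ n ∈ Icc 1 N, (if p ∣ n then f (n / p) else 0) = ∑ k ∈ Icc 1 (N / p), f k := by
    intro p f hp
    rw [← Finset.sum_filter]
    symm
    refine Finset.sum_bij' (fun k _ => p * k) (fun n _ => n / p) ?_ ?_ ?_ ?_ ?_
    · intro k hk
      rw [mem_Icc] at hk
      rw [mem_filter, mem_Icc]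
      have h2 := (Nat.le_div_iff_mul_le (by omega : 0 < p)).1 hk.2
      refine ⟨⟨?_, by rw [mul_comm]; exact h2⟩, dvd_mul_right _ _⟩
      exact Nat.one_le_iff_ne_zero.2 (Nat.mul_ne_zero (by omega) (by omega))
    · intro n hn
      rw [mem_filter, mem_Icc] at hn
      rw [mem_Icc]
      refine ⟨Nat.div_pos (Nat.le_of_dvd (by omega) hn.2) (by omega), Nat.div_le_div_right hn.1.2⟩
    · intro k _
      exact Nat.mul_div_cancel_left k (by omega)
    · intro n hn
      rw [mem_filter] at hn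
      exact Nat.mul_div_cancel' hn.2
    · intro k _
      rw [Nat.mul_div_cancel_left k (by omega)]
  have e1 : ∑ n ∈ Icc 1 N, (if (∀ p : ℕ, p.Prime → p ∣ n → z ≤ p ∧ (p : ℝ) < y ∧ p ∉ S') then
      (1 : ℝ) else 0) = (((Icc 1 N).filter (fun n => ∀ p : ℕ, p.Prime → p ∣ n →
        z ≤ p ∧ (p : ℝ) < y ∧ p ∉ S')).card : ℝ) := by
    rw [Finset.card_filter]
    push_cast
    rfl
  have e2 : ∑ n ∈ Icc 1 N, (∑ p ∈ (Icc 1 N).filter (fun p : ℕ => p.Prime ∧ y ≤ p),
      if p ∣ n then rh z (n / p) else 0) =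
      ∑ p ∈ (Icc 1 N).filter (fun p : ℕ => p.Prime ∧ y ≤ p), ∑ n ∈ Icc 1 (N / p), rh z n := by
    rw [Finset.sum_comm]
    refine Finset.sum_congr rfl fun p hp => ?_
    rw [mem_filter, mem_Icc] at hp
    exact hmul p (rh z) hp.1.1
  have e3 : ∑ n ∈ Icc 1 N, (∑ p ∈ S', if p ∣ n then (1 : ℝ) else 0) ≤
      ∑ p ∈ S', (N : ℝ) / p := by
    rw [Finset.sum_comm]
    refine Finset.sum_le_sum fun p hp => ?_
    have h2 := hmul p (fun _ => 1) (hS p hp).one_lt.le
    rw [h2, Finset.sum_const, Nat.card_Icc, nsmul_eq_mul, mul_one, Nat.add_sub_cancel]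
    exact Nat.cast_div_le
  rw [e1, e2] at hsum
  linarith

end Pool.Agent.M58
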