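import Pool.Agent.W_aaa0df_v.VA
import Pool.Agent.W_aaa0df_v.VC

/-!
# Theorem V, VD: the Bessel type inequality
-/

set_option autoImplicit false

noncomputable section

open Finset MPaaa0df

namespace BG

open Classical in
/-- the primes in `[z, y)` at which some character of the family is not `-1` -/
def Exc (F : Finset ℤ) (z y : ℝ) : Finset ℕ :=
  (range ⌈y⌉₊).filter (fun p => p.Prime ∧ z ≤ p ∧ (p : ℝ) < y ∧ ∃ d ∈ F, chi d p ≠ -1)

theorem VD_primeFactors (d : ℤ) (hd : d ≠ 0) (X : ℝ) (hX : |(d : ℝ)| ≤ X) :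
    (d.natAbs.primeFactors.card : ℝ) ≤ 2 * Real.log X := by
  have h0 : d.natAbs ≠ 0 := Int.natAbs_ne_zero.2 hd
  have h1 : 2 ^ d.natAbs.primeFactors.card ≤ d.natAbs := by
    calc 2 ^ d.natAbs.primeFactors.card ≤ ∏ p ∈ d.natAbs.primeFactors, p :=
          Finset.pow_card_le_prod _ _ _ fun p hp => (Nat.prime_of_mem_primeFactors hp).two_le
      _ ≤ d.natAbs := Nat.le_of_dvd (Nat.pos_of_ne_zero h0) (Nat.prod_primeFactors_dvd _)
  have h2 : (2 : ℝ) ^ d.natAbs.primeFactors.card ≤ X := by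
    have h3 : ((2 ^ d.natAbs.primeFactors.card : ℕ) : ℝ) ≤ (d.natAbs : ℝ) := by exact_mod_cast h1
    rw [Nat.cast_natAbs, Int.cast_abs] at h3
    push_cast at h3
    exact h3.trans hX
  have h3 : Real.log ((2 : ℝ) ^ d.natAbs.primeFactors.card) ≤ Real.log X :=
    Real.log_le_log (by positivity) h2
  rw [Real.log_pow] at h3
  have h4 := Real.log_two_gt_d9
  have h5 : (0 : ℝ) ≤ d.natAbs.primeFactors.card := Nat.cast_nonneg _
  nlinarith

open Classical in
theorem VD_one (d : ℤ) (X W y : ℝ) (hd : Twist.Fund d) (hX : |(d : ℝ)| ≤ X)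
    (hW : (splitCount d y : ℝ) ≤ W) :
    (((range ⌈y⌉₊).filter (fun p : ℕ => p.Prime ∧ (p : ℝ) < y ∧ chi d p ≠ -1)).card : ℝ) ≤
      W + 2 * Real.log X := by
  obtain ⟨hd0, hd4⟩ := fund_mod d hd
  have h1 : (range ⌈y⌉₊).filter (fun p : ℕ => p.Prime ∧ (p : ℝ) < y ∧ chi d p ≠ -1) ⊆
      (range ⌈y⌉₊).filter (fun p : ℕ => p.Prime ∧ (p : ℝ) < y ∧ chi d p = 1) ∪
        d.natAbs.primeFactors := by
    intro p hp
    rw [mem_filter] at hp
    obtain ⟨hr, hp1, hp2, hp3⟩ := hp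
    rw [mem_union, mem_filter]
    rcases chi_values d p with h | h | h
    · right
      rw [Nat.mem_primeFactors]
      exact ⟨hp1, Int.natCast_dvd.1 (chi_zero d hd4 p hp1 h), Int.natAbs_ne_zero.2 hd0⟩
    · left
      exact ⟨hr, hp1, hp2, h⟩
    · exact absurd h hp3
  have h2 : ((range ⌈y⌉₊).filter (fun p : ℕ => p.Prime ∧ (p : ℝ) < y ∧ chi d p = 1)).card =
      splitCount d y := by
    unfold splitCount
    rw [← Set.ncard_coe_finset]
    congr 1
    ext p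
    rw [Finset.mem_coe, mem_filter, mem_range, Set.mem_ofPred_eq, Nat.lt_ceil]
    constructor
    · rintro ⟨-, h3, h4, h5⟩
      have h6 := (chi_split d hd4 p h3).2 h5
      exact ⟨h3, h4, h6.1, h6.2⟩
    · rintro ⟨h3, h4, h5, h6⟩
      exact ⟨h4, h3, h4, (chi_split d hd4 p h3).1 ⟨h5, h6⟩⟩
  have h3 := (Finset.card_le_card h1).trans (Finset.card_union_le _ _)
  rw [h2] at h3
  have h4 := VD_primeFactors d hd0 X hX
  have h5 : (((range ⌈y⌉₊).filter (fun p : ℕ => p.Prime ∧ (p : ℝ) < y ∧ chi d p ≠ -1)).card : ℝ) ≤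
      (splitCount d y : ℝ) + (d.natAbs.primeFactors.card : ℝ) := by exact_mod_cast h3
  linarith

/-- PROOF. For each `d ∈ F`: the primes `p < y` with `chi d p = 1` are counted by `splitCount d y`
(`chi_split`), those with `chi d p = 0` divide `d ≠ 0` (`chi_zero`), at most `log |d| / log 2 ≤ 2 log X`. -/
theorem card_Exc (F : Finset ℤ) (X W z y : ℝ) (hX : 1 ≤ X)
    (hF : ∀ d ∈ F, Twist.Fund d ∧ |(d : ℝ)| ≤ X ∧ (splitCount d y : ℝ) ≤ W) :
    ((Exc F z y).card : ℝ) ≤ F.card * (W + 2 * Real.log X) := by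
  classical
  have h1 : Exc F z y ⊆ F.biUnion (fun d =>
      (range ⌈y⌉₊).filter (fun p : ℕ => p.Prime ∧ (p : ℝ) < y ∧ chi d p ≠ -1)) := by
    intro p hp
    unfold Exc at hp
    rw [mem_filter] at hp
    obtain ⟨hr, hp1, -, hp2, d, hdF, hd⟩ := hp
    rw [mem_biUnion]
    exact ⟨d, hdF, mem_filter.2 ⟨hr, hp1, hp2, hd⟩⟩
  have h2 := (Finset.card_le_card h1).trans Finset.card_biUnion_le
  have h3 : ((Exc F z y).card : ℝ) ≤ ∑ d ∈ F,
      (((range ⌈y⌉₊).filter (fun p : ℕ => p.Prime ∧ (p : ℝ) < y ∧ chi d p ≠ -1)).card : ℝ) := by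
    exact_mod_cast h2
  refine h3.trans ?_
  refine (Finset.sum_le_sum (g := fun _ => W + 2 * Real.log X) fun d hd => ?_).trans ?_
  · obtain ⟨a, b, c⟩ := hF d hd
    convert VD_one d X W y a b c
  · rw [Finset.sum_const, nsmul_eq_mul]

theorem VD_neg (d : ℤ) (n : ℕ) : n ≠ 0 → (∀ p : ℕ, p.Prime → p ∣ n → chi d p = -1) →
    chi d n = (-1) ^ (ArithmeticFunction.cardFactors n) := by
  induction n using induction_on_primes with
  | zero => intro h; exact absurd rfl h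
  | one =>
    intro _ _
    simp [chi]
  | prime_mul p a hp ih =>
    intro h0 h
    have ha : a ≠ 0 := right_ne_zero_of_mul h0
    rw [chi_mul, ih ha (fun q hq hqa => h q hq (hqa.mul_left p)), h p hp (dvd_mul_right p a),
      ArithmeticFunction.cardFactors_mul hp.ne_zero ha,
      ArithmeticFunction.cardFactors_apply_prime hp, pow_add, pow_one]

open Classical in
/-- The set of good numbers. -/
def Gd (F : Finset ℤ) (z y : ℝ) (N : ℕ) : Finset ℕ :=
  (Icc 1 N).filter (fun n => ∀ p : ℕ, p.Prime → p ∣ n → z ≤ p ∧ (p : ℝ) < y ∧ p ∉ Exc F z y)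

/-- On the good numbers all characters of the family agree.

PROOF. Every prime factor `p` of `n` has `chi d p = -1` for all `d ∈ F` (otherwise `p ∈ Exc`), so
`chi d n = (-1)^Ω(n)` by complete multiplicativity (induction on `n`, `Nat.recOnMul` or on the factor
list); hence `(∑ d ∈ F, chi d n)² = |F|²`. -/
theorem sum_good (F : Finset ℤ) (z y : ℝ) (N : ℕ) (n : ℕ) (hn : n ∈ Gd F z y N) :
    (∑ d ∈ F, (chi d n : ℝ)) ^ 2 = (F.card : ℝ) ^ 2 := by
  classical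
  unfold Gd at hn
  rw [mem_filter, mem_Icc] at hn
  obtain ⟨⟨hn1, -⟩, hn2⟩ := hn
  have h1 : ∀ d ∈ F, (chi d n : ℝ) = (-1) ^ (ArithmeticFunction.cardFactors n) := by
    intro d hd
    have h2 := VD_neg d n (by omega) fun p hp hpn => by
      obtain ⟨a, b, c⟩ := hn2 p hp hpn
      by_contra hne
      apply c
      unfold Exc
      rw [mem_filter, mem_range, Nat.lt_ceil]
      exact ⟨b, hp, a, b, d, hd, hne⟩
    rw [h2]
    push_cast
    rfl
  rw [Finset.sum_congr rfl h1, Finset.sum_const, nsmul_eq_mul, mul_pow, ← pow_mul, mul_comm _ 2,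
    pow_mul, neg_one_sq, one_pow, mul_one]

/-- BESSEL. PROOF. For `n ∈ Gd`: `rh z n = 1`, so `1 ≤ tp' z b n` (`rh_bounds`); `tp' ≥ 0`. Hence
`|F|² |Gd| ≤ ∑_{n ≤ N} tp'(n) (∑_{d ∈ F} chi d n)² = ∑_{d, d'} ∑_n tp'(n) chi d n chi d' n`; for `d = d'` the
inner sum is at most `∑ tp'`, for `d ≠ d'` at most `ρ'` by hypothesis. -/
theorem bessel (F : Finset ℤ) (z y : ℝ) (hz : 2 ≤ z) (b N : ℕ) (ρ' : ℝ) (hρ0 : 0 ≤ ρ')
    (hρ : ∀ d ∈ F, ∀ d' ∈ F, d ≠ d' →
      |∑ n ∈ Icc 1 N, Pool.Agent.M58.tp' z b n * ((chi d n : ℝ) * (chi d' n : ℝ))| ≤ ρ') :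
    (F.card : ℝ) ^ 2 * (Gd F z y N).card ≤
      F.card * ∑ n ∈ Icc 1 N, Pool.Agent.M58.tp' z b n + (F.card : ℝ) ^ 2 * ρ' := by
  classical
  have htp : ∀ n ∈ Icc 1 N, 0 ≤ Pool.Agent.M58.tp' z b n := fun n hn =>
    (Pool.Agent.M58.rh_bounds z hz b n (mem_Icc.1 hn).1).2.2
  have h1 : (F.card : ℝ) ^ 2 * (Gd F z y N).card ≤
      ∑ n ∈ Icc 1 N, Pool.Agent.M58.tp' z b n * (∑ d ∈ F, (chi d n : ℝ)) ^ 2 := by
    have h2 : (F.card : ℝ) ^ 2 * (Gd F z y N).card ≤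
        ∑ n ∈ Gd F z y N, Pool.Agent.M58.tp' z b n * (∑ d ∈ F, (chi d n : ℝ)) ^ 2 := by
      have h3 : (F.card : ℝ) ^ 2 * (Gd F z y N).card = ∑ n ∈ Gd F z y N, (F.card : ℝ) ^ 2 := by
        rw [Finset.sum_const, nsmul_eq_mul, mul_comm]
      rw [h3]
      refine Finset.sum_le_sum fun n hn => ?_
      rw [sum_good F z y N n hn]
      have h4 : 1 ≤ Pool.Agent.M58.tp' z b n := by
        unfold Gd at hn
        rw [mem_filter, mem_Icc] at hn
        obtain ⟨⟨hn1, -⟩, hn2⟩ := hn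
        have h5 := (Pool.Agent.M58.rh_bounds z hz b n hn1).2.1
        rwa [Pool.Agent.M58.VC_rh_eq_one (by omega) fun p hp =>
          (hn2 p (Nat.prime_of_mem_primeFactors hp) (Nat.dvd_of_mem_primeFactors hp)).1] at h5
      have h5 : 0 ≤ (F.card : ℝ) ^ 2 := by positivity
      nlinarith
    refine h2.trans (Finset.sum_le_sum_of_subset_of_nonneg ?_ ?_)
    · unfold Gd
      exact Finset.filter_subset _ _
    · intro n hn _
      exact mul_nonneg (htp n hn) (sq_nonneg _)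
  have h2 : ∑ n ∈ Icc 1 N, Pool.Agent.M58.tp' z b n * (∑ d ∈ F, (chi d n : ℝ)) ^ 2 =
      ∑ d ∈ F, ∑ d' ∈ F, ∑ n ∈ Icc 1 N,
        Pool.Agent.M58.tp' z b n * ((chi d n : ℝ) * (chi d' n : ℝ)) := by
    have h3 : ∀ n ∈ Icc 1 N, Pool.Agent.M58.tp' z b n * (∑ d ∈ F, (chi d n : ℝ)) ^ 2 =
        ∑ d ∈ F, ∑ d' ∈ F, Pool.Agent.M58.tp' z b n * ((chi d n : ℝ) * (chi d' n : ℝ)) := by
      intro n _
      rw [sq, Finset.sum_mul_sum, Finset.mul_sum]
      refine Finset.sum_congr rfl fun d _ => ?_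
      rw [Finset.mul_sum]
    rw [Finset.sum_congr rfl h3, Finset.sum_comm]
    refine Finset.sum_congr rfl fun d _ => ?_
    rw [Finset.sum_comm]
  rw [h2] at h1
  refine h1.trans ?_
  have h3 : ∀ d ∈ F, ∀ d' ∈ F, ∑ n ∈ Icc 1 N,
        Pool.Agent.M58.tp' z b n * ((chi d n : ℝ) * (chi d' n : ℝ)) ≤
      (if d = d' then ∑ n ∈ Icc 1 N, Pool.Agent.M58.tp' z b n else 0) + ρ' := by
    intro d hd d' hd'
    by_cases h : d = d'
    · rw [if_pos h, ← h]
      have h4 : ∑ n ∈ Icc 1 N, Pool.Agent.M58.tp' z b n * ((chi d n : ℝ) * (chi d n : ℝ)) ≤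
          ∑ n ∈ Icc 1 N, Pool.Agent.M58.tp' z b n := by
        refine Finset.sum_le_sum fun n hn => ?_
        have h5 : ((chi d n : ℝ) * (chi d n : ℝ)) ≤ 1 := by
          rcases chi_values d n with h | h | h <;> rw [h] <;> norm_num
        have h6 := htp n hn
        nlinarith
      linarith
    · rw [if_neg h, zero_add]
      exact (le_abs_self _).trans (hρ d hd d' hd' h)
  refine (Finset.sum_le_sum fun d hd => Finset.sum_le_sum fun d' hd' => h3 d hd d' hd').trans ?_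
  apply le_of_eq
  have h4 : ∀ d ∈ F, ∑ d' ∈ F, ((if d = d' then ∑ n ∈ Icc 1 N, Pool.Agent.M58.tp' z b n else 0) + ρ') =
      (∑ n ∈ Icc 1 N, Pool.Agent.M58.tp' z b n) + F.card * ρ' := by
    intro d hd
    rw [Finset.sum_add_distrib, Finset.sum_ite_eq, if_pos hd, Finset.sum_const, nsmul_eq_mul]
  rw [Finset.sum_congr rfl h4, Finset.sum_const, nsmul_eq_mul]
  ring

end BG
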