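import Pool.Agent.W_aaa0df_v.VD

/-!
# Theorem V, VE: at most `m` exceptional quadratic fields
-/

set_option autoImplicit false

noncomputable section

open Finset MPaaa0df

namespace BG

theorem VE_ev (m : ℕ) (C s : ℝ) (hC : 0 ≤ C) (hs : 0 < s) :
    ∀ᶠ Q : ℝ in Filter.atTop, C * (Real.log Q) ^ m ≤ Q ^ s := by
  have h1 := (isLittleO_log_rpow_rpow_atTop (m : ℝ) hs).def
    (show 0 < 1 / (C + 1) by positivity)
  filter_upwards [h1, Filter.eventually_ge_atTop (1 : ℝ)] with Q hQ hQ1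
  have h0 : 0 ≤ Real.log Q := Real.log_nonneg hQ1
  rw [Real.rpow_natCast, Real.norm_of_nonneg (pow_nonneg h0 m),
    Real.norm_of_nonneg (Real.rpow_nonneg (by linarith) s)] at hQ
  have h2 : 0 ≤ Q ^ s := Real.rpow_nonneg (by linarith) s
  calc C * (Real.log Q) ^ m ≤ C * (1 / (C + 1) * Q ^ s) := mul_le_mul_of_nonneg_left hQ hC
    _ = (C / (C + 1)) * Q ^ s := by field_simp
    _ ≤ 1 * Q ^ s := by
      apply mul_le_mul_of_nonneg_right _ h2
      rw [div_le_one (by positivity)]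
      linarith
    _ = Q ^ s := one_mul _

theorem VE_mono (d : ℤ) (y y' : ℝ) (h : y ≤ y') : splitCount d y ≤ splitCount d y' := by
  unfold splitCount
  apply Set.ncard_le_ncard
  · rintro p ⟨h1, h2, h3, h4⟩
    exact ⟨h1, h2.trans_le h, h3, h4⟩
  · refine (Set.finite_lt_nat (⌈y'⌉₊)).subset ?_
    rintro p ⟨_, hp, _⟩
    exact Nat.lt_ceil.2 hp

/-- The final contradiction. -/
theorem VE_alg {M W G Tp ρ R Far Near Ex C1 C2 C3 e κ lu : ℝ} (hM : 1 ≤ M) (hW : 0 < W)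
    (hκ : 0 < κ) (hκ1 : κ ≤ 1) (he : 0 ≤ e) (hC1 : 0 ≤ C1) (hC2 : 0 ≤ C2) (hC3 : 0 ≤ C3)
    (hCe : 4 * (C1 + C2 + C3) * e ≤ κ)
    (h1 : M ^ 2 * G ≤ M * Tp + M ^ 2 * ρ) (h2 : Tp ≤ W * (1 + C1 * e) + κ / 8 * W)
    (h3 : ρ ≤ κ / 8 * W) (h4 : R - Far - Near - Ex ≤ G)
    (h5 : W * (1 - C2 * e) - κ / 8 * W ≤ R)
    (h6 : Far ≤ W * ((1 + C3 * e) * (lu + κ / 8)) + κ / 8 * W) (h7 : Near ≤ κ * W)
    (h8 : Ex ≤ κ / 8 * W) (hlu : lu ≤ 1 - 1 / M - 4 * κ) : False := by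
  have hM0 : 0 < M := by linarith
  have hiM : 0 < 1 / M := by positivity
  have hiM1 : 1 / M ≤ 1 := by
    rw [div_le_one hM0]
    exact hM
  have hC1e : 0 ≤ C1 * e := mul_nonneg hC1 he
  have hC3e : 0 ≤ C3 * e := mul_nonneg hC3 he
  have hC2e : 0 ≤ C2 * e := mul_nonneg hC2 he
  have a1 : C3 * e * (lu + κ / 8) ≤ C3 * e * 2 := by
    apply mul_le_mul_of_nonneg_left _ hC3e
    linarith
  set g : ℝ := 1 - C2 * e - κ / 8 - (lu + κ / 8) - C3 * e * 2 - κ / 8 - κ - κ / 8 with hg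
  have a2 : W * g ≤ G := by
    have b1 : W * ((1 + C3 * e) * (lu + κ / 8)) ≤ W * ((lu + κ / 8) + C3 * e * 2) := by
      apply mul_le_mul_of_nonneg_left _ hW.le
      linarith
    have b2 : W * g = W * (1 - C2 * e) - κ / 8 * W - (W * ((lu + κ / 8) + C3 * e * 2) +
        κ / 8 * W) - κ * W - κ / 8 * W := by
      rw [hg]
      ring
    linarith
  have a3 : (M * W) * (M * g) ≤ (M * W) * ((1 + C1 * e + κ / 8) + M * (κ / 8)) := by
    have b1 : M ^ 2 * (W * g) ≤ M ^ 2 * G := mul_le_mul_of_nonneg_left a2 (by positivity)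
    have b2 : M * Tp ≤ M * (W * (1 + C1 * e) + κ / 8 * W) := mul_le_mul_of_nonneg_left h2 hM0.le
    have b3 : M ^ 2 * ρ ≤ M ^ 2 * (κ / 8 * W) := mul_le_mul_of_nonneg_left h3 (by positivity)
    have b4 : (M * W) * (M * g) = M ^ 2 * (W * g) := by ring
    have b5 : (M * W) * ((1 + C1 * e + κ / 8) + M * (κ / 8)) =
        M * (W * (1 + C1 * e) + κ / 8 * W) + M ^ 2 * (κ / 8 * W) := by ring
    linarith
  have a4 : M * g ≤ (1 + C1 * e + κ / 8) + M * (κ / 8) :=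
    le_of_mul_le_mul_left a3 (by positivity)
  have a5 : g ≤ 1 / M + C1 * e + κ / 8 + κ / 8 := by
    have b1 : (1 / M) * (M * g) ≤ (1 / M) * ((1 + C1 * e + κ / 8) + M * (κ / 8)) :=
      mul_le_mul_of_nonneg_left a4 hiM.le
    have b2 : (1 / M) * (M * g) = g := by field_simp
    have b3 : (1 / M) * ((1 + C1 * e + κ / 8) + M * (κ / 8)) =
        1 / M + (1 / M) * (C1 * e + κ / 8) + κ / 8 := by
      field_simp
      ring
    have b4 : (1 / M) * (C1 * e + κ / 8) ≤ 1 * (C1 * e + κ / 8) :=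
      mul_le_mul_of_nonneg_right hiM1 (by positivity)
    linarith
  have a6 : 4 * (C1 + C2 + C3) * e = 4 * (C1 * e) + 4 * (C2 * e) + 4 * (C3 * e) := by ring
  rw [hg] at a5
  linarith

theorem VE_rh (z : ℝ) (n : ℕ) : 0 ≤ Pool.Agent.M58.rh z n := by
  unfold Pool.Agent.M58.rh
  split_ifs
  · exact zero_le_one
  · exact le_rfl

/-- Splitting the primes at `N / K`. -/
theorem VE_split (z y : ℝ) (N K : ℕ) :
    ∑ p ∈ (Icc 1 N).filter (fun p : ℕ => p.Prime ∧ y ≤ p),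
        ∑ n ∈ Icc 1 (N / p), Pool.Agent.M58.rh z n ≤
      ∑ p ∈ (Icc 1 (N / K)).filter (fun p : ℕ => p.Prime ∧ y ≤ p),
        ∑ n ∈ Icc 1 (N / p), Pool.Agent.M58.rh z n +
      ∑ p ∈ (Ioc (N / K) N).filter Nat.Prime, ∑ n ∈ Icc 1 (N / p), Pool.Agent.M58.rh z n := by
  have h0 : ∀ p : ℕ, 0 ≤ ∑ n ∈ Icc 1 (N / p), Pool.Agent.M58.rh z n := fun p =>
    sum_nonneg fun n _ => VE_rh z n
  rw [← sum_union_inter]
  have h1 : (Icc 1 N).filter (fun p : ℕ => p.Prime ∧ y ≤ p) ⊆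
      (Icc 1 (N / K)).filter (fun p : ℕ => p.Prime ∧ y ≤ p) ∪
        (Ioc (N / K) N).filter Nat.Prime := by
    intro p hp
    rw [mem_filter, mem_Icc] at hp
    rw [mem_union, mem_filter, mem_filter, mem_Icc, mem_Ioc]
    by_cases h : p ≤ N / K
    · exact Or.inl ⟨⟨hp.1.1, h⟩, hp.2⟩
    · exact Or.inr ⟨⟨by omega, hp.1.2⟩, hp.2.1⟩
  have h2 := sum_le_sum_of_subset_of_nonneg h1 (fun p _ _ => h0 p)
  have h3 : 0 ≤ ∑ p ∈ (Icc 1 (N / K)).filter (fun p : ℕ => p.Prime ∧ y ≤ p) ∩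
      (Ioc (N / K) N).filter Nat.Prime, ∑ n ∈ Icc 1 (N / p), Pool.Agent.M58.rh z n :=
    sum_nonneg fun p _ => h0 p
  linarith

/-- The case `θ ≤ 2/5`. -/
theorem VE_main (m : ℕ) (θ : ℝ)
    (hθ : Real.exp (-((m : ℝ) / (m + 1))) / 2 < θ) (hθ2 : θ ≤ 2 / 5) :
    ∃ c X₀ : ℝ, 0 < c ∧ ∀ X : ℝ, X₀ ≤ X → 1 ≤ X ∧ ∀ F : Finset ℤ,
      (∀ d ∈ F, Twist.Fund d ∧ |(d : ℝ)| ≤ X ∧ (splitCount d (X ^ θ) : ℝ) < X ^ c) →
      F.card = m + 1 → False := by
  have hexp0 : 0 < Real.exp (-((m : ℝ) / (m + 1))) := Real.exp_pos _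
  have hθ0 : 0 < θ := by linarith
  set M : ℝ := (m : ℝ) + 1 with hMdef
  have hm0 : (0 : ℝ) ≤ m := Nat.cast_nonneg m
  have hM1 : 1 ≤ M := by rw [hMdef]; linarith
  have hM0 : 0 < M := by linarith
  set Lm : ℝ := (m : ℝ) / M with hLdef
  have hLM : Lm = 1 - 1 / M := by
    rw [hLdef]
    field_simp
    rw [hMdef]
    ring
  have hL1 : Lm ≤ 1 := by
    have : 0 < 1 / M := by positivity
    linarith
  have hlog2θ : -Lm < Real.log (2 * θ) := by
    rw [Real.lt_log_iff_exp_lt (by positivity)]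
    linarith
  have hlog2θ' : Real.log (2 * θ) ≤ 0 := Real.log_nonpos (by positivity) (by linarith)
  set κ : ℝ := (Lm + Real.log (2 * θ)) / 5 with hκdef
  have hκ : 0 < κ := by rw [hκdef]; linarith
  have hκ1 : κ ≤ 1 := by rw [hκdef]; linarith
  set ε : ℝ := κ / 4 with hεdef
  have hε : 0 < ε := by rw [hεdef]; linarith
  set u : ℝ := (1 / 2 + 2 * ε) / θ with hudef
  have hu0 : 0 < u := by positivity
  have hlu : Real.log u ≤ 1 - 1 / M - 4 * κ := by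
    have h1 : u = (1 + 4 * ε) / (2 * θ) := by
      rw [hudef]
      field_simp
      ring
    rw [h1, Real.log_div (by positivity) (by positivity)]
    have h2 := Real.log_le_sub_one_of_pos (show 0 < 1 + 4 * ε by positivity)
    linarith
  obtain ⟨δ, X₁, hδ, hcorr⟩ := corr ε hε
  obtain ⟨C₁, hC₁, hup⟩ := Pool.Agent.M58.rough_upper
  obtain ⟨C₂, hC₂, hlow⟩ := Pool.Agent.M58.rough_lower
  obtain ⟨C₄, hC₄, hnear⟩ := Pool.Agent.M58.near_part
  obtain ⟨C₃, hC₃, hfar⟩ := Pool.Agent.M58.far_part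
  obtain ⟨cV, CV, hcV, -, hVP⟩ := Pool.Agent.M58.VP_inv
  -- the parameter `b`
  obtain ⟨b, hb1, hb⟩ : ∃ b : ℕ, 1 ≤ b ∧ 4 * (C₁ + C₂ + C₃) * Real.exp (-(b : ℝ)) ≤ κ := by
    refine ⟨⌈4 * (C₁ + C₂ + C₃) / κ⌉₊ + 1, Nat.le_add_left _ _, ?_⟩
    set b : ℕ := ⌈4 * (C₁ + C₂ + C₃) / κ⌉₊ + 1 with hbdef
    have h1 : 4 * (C₁ + C₂ + C₃) / κ ≤ b := by
      rw [hbdef]
      push_cast
      have := Nat.le_ceil (4 * (C₁ + C₂ + C₃) / κ)
      linarith
    have h2 : (b : ℝ) ≤ Real.exp b := by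
      have := Real.add_one_le_exp (b : ℝ)
      linarith
    rw [Real.exp_neg, ← div_eq_mul_inv, div_le_iff₀ (Real.exp_pos _)]
    rw [div_le_iff₀ hκ] at h1
    have h3 := mul_le_mul_of_nonneg_right h2 hκ.le
    linarith
  set B : ℝ := 4 * (b : ℝ) + 8 with hBdef
  have hB0 : 0 < B := by positivity
  set μ : ℝ := min (min (ε / 2) (δ / 2)) (min (1 / 8) (κ * cV / (2 * C₄))) with hμdef
  have hμ : 0 < μ := lt_min (lt_min (by positivity) (by positivity))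
    (lt_min (by norm_num) (by positivity))
  have hμ1 : μ ≤ ε / 2 := (min_le_left _ _).trans (min_le_left _ _)
  have hμ2 : μ ≤ δ / 2 := (min_le_left _ _).trans (min_le_right _ _)
  have hμ3 : μ ≤ 1 / 8 := (min_le_right _ _).trans (min_le_left _ _)
  have hμ4 : μ ≤ κ * cV / (2 * C₄) := (min_le_right _ _).trans (min_le_right _ _)
  set c₀ : ℝ := μ / B with hc₀def
  have hc₀ : 0 < c₀ := by positivity
  have hcB : c₀ * B = μ := by
    rw [hc₀def]
    field_simp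
  have hκc : 0 < κ * cV := by positivity
  have hev : ∀ᶠ X : ℝ in Filter.atTop, X₁ ≤ X ∧ 1 ≤ X ∧ 2 ≤ X ^ c₀ ∧ 2 ≤ X ^ θ ∧
      2 ≤ X ^ (2 * ε) ∧ 3 ≤ X ^ (ε / 2) ∧ 2 ≤ X ^ (1 / 8 : ℝ) ∧
      (8 * C₂ * c₀ ^ 2 / (κ * cV)) * Real.log X ^ 2 ≤ X ^ (3 / 8 : ℝ) ∧
      (8 * c₀ / (κ * cV)) * Real.log X ^ 1 ≤ X ^ (3 / 8 : ℝ) ∧
      (8 * c₀ / (κ * cV)) * Real.log X ^ 1 ≤ X ^ (2 * c₀) ∧
      2 * Real.log X ^ 1 ≤ X ^ (c₀ / 2) ∧
      (16 * M * c₀ / (κ * cV)) * Real.log X ^ 1 ≤ X ^ (c₀ / 2) ∧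
      (8 * c₀ / (κ * cV)) * Real.log X ^ 1 ≤ X ^ (δ / 2) ∧
      8 * C₃ / (κ * θ) + 1 ≤ Real.log X := by
    filter_upwards [Filter.eventually_ge_atTop X₁, Filter.eventually_ge_atTop (1 : ℝ),
      (tendsto_rpow_atTop hc₀).eventually_ge_atTop 2,
      (tendsto_rpow_atTop hθ0).eventually_ge_atTop 2,
      (tendsto_rpow_atTop (show 0 < 2 * ε by positivity)).eventually_ge_atTop 2,
      (tendsto_rpow_atTop (show 0 < ε / 2 by positivity)).eventually_ge_atTop 3,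
      (tendsto_rpow_atTop (show (0 : ℝ) < 1 / 8 by norm_num)).eventually_ge_atTop 2,
      VE_ev 2 (8 * C₂ * c₀ ^ 2 / (κ * cV)) (3 / 8) (by positivity) (by norm_num),
      VE_ev 1 (8 * c₀ / (κ * cV)) (3 / 8) (by positivity) (by norm_num),
      VE_ev 1 (8 * c₀ / (κ * cV)) (2 * c₀) (by positivity) (by positivity),
      VE_ev 1 2 (c₀ / 2) (by norm_num) (by positivity),
      VE_ev 1 (16 * M * c₀ / (κ * cV)) (c₀ / 2) (by positivity) (by positivity),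
      VE_ev 1 (8 * c₀ / (κ * cV)) (δ / 2) (by positivity) (by positivity),
      Real.tendsto_log_atTop.eventually_ge_atTop (8 * C₃ / (κ * θ) + 1)] with X
      h1 h2 h3 h4 h5 h6 h7 h8 h9 h10 h11 h12 h13 h14
    exact ⟨h1, h2, h3, h4, h5, h6, h7, h8, h9, h10, h11, h12, h13, h14⟩
  obtain ⟨X₀, hX₀⟩ := Filter.eventually_atTop.1 hev
  refine ⟨c₀ / 2, X₀, by positivity, fun X hX => ⟨(hX₀ X hX).2.1, fun F hF hcard => ?_⟩⟩
  obtain ⟨g1, g2, g3, g4, g5, g6, g7, g8, g9, g10, g11, g12, g13, g14⟩ := hX₀ X hX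
  simp only [pow_one] at g9 g10 g11 g12 g13
  have hX0 : 0 < X := by linarith
  set ℓ : ℝ := Real.log X with hℓdef
  have hC3κ : 0 < 8 * C₃ / (κ * θ) := by positivity
  have hℓ1 : 1 ≤ ℓ := by linarith
  have hℓ0 : 0 < ℓ := by linarith
  set z : ℝ := X ^ c₀ with hzdef
  have hz0 : 0 < z := by linarith
  have hlz : Real.log z = c₀ * ℓ := by rw [hzdef, Real.log_rpow hX0]
  have hlz0 : 0 < Real.log z := by rw [hlz]; positivity
  have hzp : ∀ n : ℕ, z ^ n = X ^ (c₀ * n) := by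
    intro n
    rw [hzdef, ← Real.rpow_natCast, ← Real.rpow_mul hX0.le]
  have hXmono : ∀ s t : ℝ, s ≤ t → X ^ s ≤ X ^ t := fun s t h =>
    Real.rpow_le_rpow_of_exponent_le g2 h
  set y : ℝ := X ^ θ with hydef
  have hly : Real.log y = θ * ℓ := by rw [hydef, Real.log_rpow hX0]
  have hly0 : 0 < Real.log y := by rw [hly]; positivity
  set Z : ℝ := z ^ (4 * b + 5) with hZdef
  have hZ0 : 0 < Z := by positivity
  have hZμ : Z ≤ X ^ μ := by
    rw [hZdef, hzp]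
    apply hXmono
    rw [← hcB]
    apply mul_le_mul_of_nonneg_left _ hc₀.le
    push_cast
    linarith
  -- `N`
  set N : ℕ := ⌊X ^ (1 / 2 + 2 * ε)⌋₊ with hNdef
  have hNle : (N : ℝ) ≤ X ^ (1 / 2 + 2 * ε) := Nat.floor_le (Real.rpow_nonneg hX0.le _)
  have hNgt : X ^ (1 / 2 + 2 * ε) - 1 < N := by
    have := Nat.lt_floor_add_one (X ^ (1 / 2 + 2 * ε))
    linarith
  have hX12 : 1 ≤ X ^ (1 / 2 : ℝ) := Real.one_le_rpow g2 (by norm_num)
  have hN12 : X ^ (1 / 2 : ℝ) ≤ N := by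
    have h1 : X ^ (1 / 2 + 2 * ε) = X ^ (1 / 2 : ℝ) * X ^ (2 * ε) := Real.rpow_add hX0 _ _
    have h2 : X ^ (1 / 2 : ℝ) * 2 ≤ X ^ (1 / 2 : ℝ) * X ^ (2 * ε) :=
      mul_le_mul_of_nonneg_left g5 (by linarith)
    linarith
  have hN0 : (0 : ℝ) < N := by linarith
  have hlN : 1 / 2 * ℓ ≤ Real.log N := by
    rw [hℓdef, ← Real.log_rpow hX0]
    exact Real.log_le_log (by linarith) hN12
  have hlN' : Real.log N ≤ (1 / 2 + 2 * ε) * ℓ := by
    rw [hℓdef, ← Real.log_rpow hX0]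
    exact Real.log_le_log hN0 hNle
  have hlN0 : 0 < Real.log N := by linarith
  -- `K`
  set K : ℕ := ⌈z ^ (4 * b + 7)⌉₊ with hKdef
  have hKge : z ^ (4 * b + 7) ≤ K := Nat.le_ceil _
  have hz1 : 1 ≤ z := by linarith
  have hz7 : 1 ≤ z ^ (4 * b + 7) := one_le_pow₀ hz1
  have hKle : (K : ℝ) ≤ z ^ (4 * b + 8) := by
    have h1 := Nat.ceil_lt_add_one (show 0 ≤ z ^ (4 * b + 7) by positivity)
    have h2 : z ^ (4 * b + 8) = z ^ (4 * b + 7) * z := pow_succ z _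
    have h3 : z ^ (4 * b + 7) * 2 ≤ z ^ (4 * b + 7) * z :=
      mul_le_mul_of_nonneg_left g3 (by positivity)
    linarith
  have hKX : (K : ℝ) ≤ X ^ (1 / 8 : ℝ) := by
    refine hKle.trans ?_
    rw [hzp]
    apply hXmono
    have h1 : c₀ * ((4 * b + 8 : ℕ) : ℝ) = c₀ * B := by
      rw [hBdef]
      push_cast
      ring
    rw [h1, hcB]
    exact hμ3
  have hzK : z ≤ K := by
    refine le_trans ?_ hKge
    calc z = z ^ 1 := (pow_one z).symm
      _ ≤ z ^ (4 * b + 7) := pow_le_pow_right₀ hz1 (by omega)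
  have hK2r : (2 : ℝ) ≤ K := g3.trans hzK
  have hK2 : 2 ≤ K := by exact_mod_cast hK2r
  have hK0 : (0 : ℝ) < K := by linarith
  have hKK : K * K ≤ N := by
    have h1 : (K : ℝ) * K ≤ N := by
      calc (K : ℝ) * K ≤ X ^ (1 / 8 : ℝ) * X ^ (1 / 8 : ℝ) :=
            mul_le_mul hKX hKX hK0.le (by positivity)
        _ = X ^ (1 / 4 : ℝ) := by
          rw [← Real.rpow_add hX0]
          norm_num
        _ ≤ X ^ (1 / 2 : ℝ) := hXmono _ _ (by norm_num)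
        _ ≤ N := hN12
    exact_mod_cast h1
  have hKN : K ≤ N := (Nat.le_mul_of_pos_left K (by omega)).trans hKK
  have hyN : y ≤ N := (hXmono θ (1 / 2) (by linarith)).trans hN12
  have hlK : Real.log K ≤ B * Real.log z := by
    have h1 := Real.log_le_log hK0 hKle
    rw [Real.log_pow] at h1
    have h2 : ((4 * b + 8 : ℕ) : ℝ) = B := by
      rw [hBdef]
      push_cast
      ring
    rwa [h2] at h1
  -- `V`
  obtain ⟨hV, -⟩ := hVP z g3
  set V : ℝ := Pool.Agent.Wb58c63.VP (fun p => 1 / (p : ℝ)) (Pool.Agent.Wb58c63.PI 0 z) with hVdef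
  set t : ℝ := cV / (c₀ * ℓ) with htdef
  have ht0 : 0 < t := by positivity
  have hVt : t ≤ V := by rwa [hlz] at hV
  have hV0 : 0 < V := by linarith
  set W : ℝ := N * V with hWdef
  have hW0 : 0 < W := by positivity
  have hWt : N * t ≤ W := mul_le_mul_of_nonneg_left hVt hN0.le
  have q8 : C₂ * (c₀ * ℓ) ≤ κ / 8 * t * X ^ (3 / 8 : ℝ) := by
    have h1 : C₂ * (c₀ * ℓ) = κ / 8 * t * ((8 * C₂ * c₀ ^ 2 / (κ * cV)) * ℓ ^ 2) := by
      rw [htdef]
      field_simp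
    rw [h1]
    exact mul_le_mul_of_nonneg_left g8 (by positivity)
  have hone : κ / 8 * t * ((8 * c₀ / (κ * cV)) * ℓ) = 1 := by
    rw [htdef]
    field_simp
  have q9 : 1 ≤ κ / 8 * t * X ^ (3 / 8 : ℝ) := by
    rw [← hone]
    exact mul_le_mul_of_nonneg_left g9 (by positivity)
  have q10 : 1 ≤ κ / 8 * t * X ^ (2 * c₀) := by
    rw [← hone]
    exact mul_le_mul_of_nonneg_left g10 (by positivity)
  have q13 : 1 ≤ κ / 8 * t * X ^ (δ / 2) := by
    rw [← hone]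
    exact mul_le_mul_of_nonneg_left g13 (by positivity)
  have q12 : 2 * M ≤ κ / 8 * t * X ^ (c₀ / 2) := by
    have h1 : 2 * M = κ / 8 * t * ((16 * M * c₀ / (κ * cV)) * ℓ) := by
      rw [htdef]
      field_simp
      ring
    rw [h1]
    exact mul_le_mul_of_nonneg_left g12 (by positivity)
  have hκt : 0 < κ / 8 * t := by positivity
  have hZ8 : Z ≤ X ^ (1 / 8 : ℝ) := hZμ.trans (hXmono _ _ hμ3)
  have hX18 : 0 < X ^ (1 / 8 : ℝ) := Real.rpow_pos_of_pos hX0 _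
  have hX48 : X ^ (1 / 8 : ℝ) * X ^ (3 / 8 : ℝ) = X ^ (1 / 2 : ℝ) := by
    rw [← Real.rpow_add hX0]
    norm_num
  -- the error terms
  have e1 : C₂ * Real.log z * Z ≤ κ / 8 * W := by
    rw [hlz]
    calc C₂ * (c₀ * ℓ) * Z ≤ (κ / 8 * t * X ^ (3 / 8 : ℝ)) * X ^ (1 / 8 : ℝ) :=
          mul_le_mul q8 hZ8 hZ0.le (by positivity)
      _ = κ / 8 * t * X ^ (1 / 2 : ℝ) := by rw [← hX48]; ring
      _ ≤ κ / 8 * t * N := mul_le_mul_of_nonneg_left hN12 hκt.le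
      _ = κ / 8 * (N * t) := by ring
      _ ≤ κ / 8 * W := mul_le_mul_of_nonneg_left hWt (by positivity)
  have e5 : Z ≤ κ / 8 * W := by
    calc Z ≤ 1 * X ^ (1 / 8 : ℝ) := by rw [one_mul]; exact hZ8
      _ ≤ (κ / 8 * t * X ^ (3 / 8 : ℝ)) * X ^ (1 / 8 : ℝ) :=
          mul_le_mul_of_nonneg_right q9 hX18.le
      _ = κ / 8 * t * X ^ (1 / 2 : ℝ) := by rw [← hX48]; ring
      _ ≤ κ / 8 * t * N := mul_le_mul_of_nonneg_left hN12 hκt.le
      _ = κ / 8 * (N * t) := by ring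
      _ ≤ κ / 8 * W := mul_le_mul_of_nonneg_left hWt (by positivity)
  have e2 : (N : ℝ) / K * Z ≤ κ / 8 * W := by
    have h1 : z ^ (4 * b + 7) = Z * X ^ (2 * c₀) := by
      rw [hZdef, hzp, hzp, ← Real.rpow_add hX0]
      congr 1
      push_cast
      ring
    have h2 : Z ≤ κ / 8 * t * K := by
      calc Z = Z * 1 := (mul_one Z).symm
        _ ≤ Z * (κ / 8 * t * X ^ (2 * c₀)) := mul_le_mul_of_nonneg_left q10 hZ0.le
        _ = κ / 8 * t * z ^ (4 * b + 7) := by rw [h1]; ring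
        _ ≤ κ / 8 * t * K := mul_le_mul_of_nonneg_left hKge hκt.le
    calc (N : ℝ) / K * Z ≤ (N : ℝ) / K * (κ / 8 * t * K) :=
          mul_le_mul_of_nonneg_left h2 (by positivity)
      _ = κ / 8 * (N * t) := by field_simp
      _ ≤ κ / 8 * W := mul_le_mul_of_nonneg_left hWt (by positivity)
  have e3 : C₄ * (N / Real.log N * (Real.log K / Real.log z)) ≤ κ * W := by
    have h1 : Real.log K / Real.log z ≤ B := by
      rw [div_le_iff₀ hlz0]
      exact hlK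
    have h2 : (N : ℝ) / Real.log N ≤ N * (2 / ℓ) := by
      rw [mul_div_assoc', div_le_div_iff₀ hlN0 hℓ0]
      have := mul_le_mul_of_nonneg_left hlN hN0.le
      linarith
    have h3 : C₄ * (2 / ℓ * B) ≤ κ * t := by
      have h4 : c₀ * B ≤ κ * cV / (2 * C₄) := by rw [hcB]; exact hμ4
      rw [le_div_iff₀ (by positivity)] at h4
      rw [htdef]
      have h5 : C₄ * (2 / ℓ * B) = (c₀ * B * (2 * C₄)) / (c₀ * ℓ) := by field_simp
      rw [h5, mul_div_assoc']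
      exact div_le_div_of_nonneg_right h4 (by positivity)
    have hlK0 : 0 ≤ Real.log K / Real.log z := div_nonneg (Real.log_nonneg (by linarith)) hlz0.le
    calc C₄ * (N / Real.log N * (Real.log K / Real.log z)) ≤ C₄ * (N * (2 / ℓ) * B) := by
          apply mul_le_mul_of_nonneg_left _ hC₄.le
          exact mul_le_mul h2 h1 hlK0 (by positivity)
      _ = N * (C₄ * (2 / ℓ * B)) := by ring
      _ ≤ N * (κ * t) := mul_le_mul_of_nonneg_left h3 hN0.le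
      _ = κ * (N * t) := by ring
      _ ≤ κ * W := mul_le_mul_of_nonneg_left hWt hκ.le
  have e6 : Z * (N * X ^ (-δ)) ≤ κ / 8 * W := by
    have h1 : Z ≤ X ^ (δ / 2) := hZμ.trans (hXmono _ _ hμ2)
    have h2 : X ^ (δ / 2) * X ^ (-δ) * X ^ (δ / 2) = 1 := by
      rw [← Real.rpow_add hX0, ← Real.rpow_add hX0]
      have : δ / 2 + -δ + δ / 2 = 0 := by ring
      rw [this, Real.rpow_zero]
    have h3 : 0 < X ^ (-δ) := Real.rpow_pos_of_pos hX0 _
    have h4 : 0 < X ^ (δ / 2) := Real.rpow_pos_of_pos hX0 _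
    have h5 : Z * X ^ (-δ) ≤ κ / 8 * t := by
      calc Z * X ^ (-δ) ≤ X ^ (δ / 2) * X ^ (-δ) := mul_le_mul_of_nonneg_right h1 h3.le
        _ = X ^ (δ / 2) * X ^ (-δ) * 1 := (mul_one _).symm
        _ ≤ X ^ (δ / 2) * X ^ (-δ) * (κ / 8 * t * X ^ (δ / 2)) :=
          mul_le_mul_of_nonneg_left q13 (by positivity)
        _ = κ / 8 * t * (X ^ (δ / 2) * X ^ (-δ) * X ^ (δ / 2)) := by ring
        _ = κ / 8 * t := by rw [h2, mul_one]
    calc Z * (N * X ^ (-δ)) = N * (Z * X ^ (-δ)) := by ring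
      _ ≤ N * (κ / 8 * t) := mul_le_mul_of_nonneg_left h5 hN0.le
      _ = κ / 8 * (N * t) := by ring
      _ ≤ κ / 8 * W := mul_le_mul_of_nonneg_left hWt (by positivity)
  have e7 : C₃ / Real.log y ≤ κ / 8 := by
    rw [hly, div_le_iff₀ (by positivity)]
    have h1 : 8 * C₃ / (κ * θ) ≤ ℓ := by linarith
    rw [div_le_iff₀ (by positivity)] at h1
    linarith
  -- the exceptional primes
  have hcardR : (F.card : ℝ) = M := by rw [hcard, hMdef]; push_cast; ring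
  have hExc := card_Exc F X (X ^ (c₀ / 2)) z y g2
    (fun d hd => ⟨(hF d hd).1, (hF d hd).2.1, (hF d hd).2.2.le⟩)
  rw [hcardR] at hExc
  have hExmem : ∀ p ∈ Exc F z y, p.Prime ∧ z ≤ p := by
    intro p hp
    unfold Exc at hp
    rw [mem_filter] at hp
    exact ⟨hp.2.1, hp.2.2.1⟩
  have e4 : ∑ p ∈ Exc F z y, (N : ℝ) / p ≤ κ / 8 * W := by
    have h1 : ∑ p ∈ Exc F z y, (N : ℝ) / p ≤ ∑ _p ∈ Exc F z y, (N : ℝ) / z :=
      sum_le_sum fun p hp => div_le_div_of_nonneg_left hN0.le hz0 (hExmem p hp).2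
    rw [sum_const, nsmul_eq_mul] at h1
    have hq : 0 < X ^ (c₀ / 2) := Real.rpow_pos_of_pos hX0 _
    have h2 : ((Exc F z y).card : ℝ) ≤ 2 * M * X ^ (c₀ / 2) := by
      refine hExc.trans ?_
      have h3 : M * (X ^ (c₀ / 2) + 2 * ℓ) ≤ M * (X ^ (c₀ / 2) + X ^ (c₀ / 2)) :=
        mul_le_mul_of_nonneg_left (by linarith) hM0.le
      linarith
    have h4 : 2 * M * X ^ (c₀ / 2) ≤ κ / 8 * t * z := by
      have h5 : X ^ (c₀ / 2) * X ^ (c₀ / 2) = z := by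
        rw [hzdef, ← Real.rpow_add hX0]
        congr 1
        ring
      calc 2 * M * X ^ (c₀ / 2) ≤ κ / 8 * t * X ^ (c₀ / 2) * X ^ (c₀ / 2) :=
            mul_le_mul_of_nonneg_right q12 hq.le
        _ = κ / 8 * t * z := by rw [← h5]; ring
    calc ∑ p ∈ Exc F z y, (N : ℝ) / p ≤ (Exc F z y).card * ((N : ℝ) / z) := h1
      _ ≤ (κ / 8 * t * z) * ((N : ℝ) / z) :=
        mul_le_mul_of_nonneg_right (h2.trans h4) (by positivity)
      _ = κ / 8 * (N * t) := by field_simp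
      _ ≤ κ / 8 * W := mul_le_mul_of_nonneg_left hWt (by positivity)
  -- the correlations
  have hcor : ∀ d ∈ F, ∀ d' ∈ F, d ≠ d' →
      |∑ n ∈ Icc 1 N, Pool.Agent.M58.tp' z b n * ((chi d n : ℝ) * (chi d' n : ℝ))| ≤
        Z * (N * X ^ (-δ)) := by
    intro d hd d' hd' hne
    refine Pool.Agent.M58.tp_corr z b N g3 (fun n => (chi d n : ℝ) * (chi d' n : ℝ)) ?_ ?_
      (X ^ (-δ)) (Real.rpow_nonneg hX0.le _) (X ^ (1 / 2 + ε)) ?_ ?_
    · intro k n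
      rw [chi_mul, chi_mul]
      push_cast
      ring
    · intro n
      rw [abs_mul]
      exact mul_le_one₀ (C3_abs d n) (abs_nonneg _) (C3_abs d' n)
    · intro D hD1 hDZ
      have hD0 : (0 : ℝ) < D := by exact_mod_cast hD1
      have h1 : (N : ℝ) / D - 1 ≤ ((N / D : ℕ) : ℝ) := by
        have h2 := Nat.lt_floor_add_one ((N : ℝ) / D)
        rw [Nat.floor_div_eq_div] at h2
        linarith
      have hDε : (D : ℝ) ≤ X ^ (ε / 2) := hDZ.trans (hZμ.trans (hXmono _ _ hμ1))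
      have hD1' : (1 : ℝ) ≤ D := by exact_mod_cast hD1
      have h3 : X ^ (1 / 2 + ε) + 2 ≤ (X ^ (1 / 2 + 2 * ε)) / D := by
        rw [le_div_iff₀ hD0]
        have h4 : X ^ (1 / 2 + 2 * ε) = X ^ (1 / 2 + ε) * X ^ (ε / 2) * X ^ (ε / 2) := by
          rw [← Real.rpow_add hX0, ← Real.rpow_add hX0]
          congr 1
          ring
        rw [h4]
        have h5 : 1 ≤ X ^ (1 / 2 + ε) := Real.one_le_rpow g2 (by positivity)
        have h6 : X ^ (1 / 2 + ε) + 2 ≤ X ^ (1 / 2 + ε) * X ^ (ε / 2) := by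
          have h7 : X ^ (1 / 2 + ε) * 3 ≤ X ^ (1 / 2 + ε) * X ^ (ε / 2) :=
            mul_le_mul_of_nonneg_left g6 (by linarith)
          linarith
        exact mul_le_mul h6 hDε hD0.le (by positivity)
      have h8 : (X ^ (1 / 2 + 2 * ε)) / D - 1 ≤ (N : ℝ) / D := by
        rw [sub_le_iff_le_add, div_le_iff₀ hD0, add_mul, div_mul_cancel₀ _ hD0.ne', one_mul]
        linarith
      linarith
    · intro k hk
      exact hcorr X g1 d d' (hF d hd).1 (hF d' hd').1 hne (hF d hd).2.1 (hF d' hd').2.1 k hk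
  have hbes := bessel F z y g3 b N (Z * (N * X ^ (-δ))) (by positivity) hcor
  rw [hcardR] at hbes
  obtain ⟨-, hTp⟩ := hup z b N g3 hb1
  have hR := hlow z b N g3 hb1
  have hFar := hfar z y b K N g3 hb1 g4 hyN hK2 hKN
  have hNear := hnear z K N g3 hzK hKK
  have hgood := Pool.Agent.M58.good_lower z y N (Exc F z y) (fun p hp => (hExmem p hp).1)
  have hsplit := VE_split z y N K
  have hllu : Real.log (Real.log N / Real.log y) ≤ Real.log u := by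
    apply Real.log_le_log (by positivity)
    rw [div_le_iff₀ hly0, hly, hudef]
    have h1 : (1 / 2 + 2 * ε) / θ * (θ * ℓ) = (1 / 2 + 2 * ε) * ℓ := by field_simp
    rw [h1]
    exact hlN'
  have he0 : 0 < Real.exp (-(b : ℝ)) := Real.exp_pos _
  refine VE_alg (M := M) (W := W) (C1 := C₁) (C2 := C₂) (C3 := C₃) (e := Real.exp (-(b : ℝ)))
    (κ := κ) (lu := Real.log u) hM1 hW0 hκ hκ1 he0.le (by linarith) (by linarith)
    (by linarith) hb hbes ?_ e6 (R := ∑ n ∈ Icc 1 N, Pool.Agent.M58.rh z n)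
    (Far := ∑ p ∈ (Icc 1 (N / K)).filter (fun p : ℕ => p.Prime ∧ y ≤ p),
        ∑ n ∈ Icc 1 (N / p), Pool.Agent.M58.rh z n)
    (Near := ∑ p ∈ (Ioc (N / K) N).filter Nat.Prime,
      ∑ n ∈ Icc 1 (N / p), Pool.Agent.M58.rh z n)
    (Ex := ∑ p ∈ Exc F z y, (N : ℝ) / p) ?_ ?_ ?_ (hNear.trans e3) e4 hlu
  · refine hTp.trans ?_
    have h1 : (N : ℝ) * (V * (1 + C₁ * Real.exp (-(b : ℝ)))) =
        W * (1 + C₁ * Real.exp (-(b : ℝ))) := by rw [hWdef]; ring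
    rw [h1]
    linarith
  · have hG : ∑ n ∈ Icc 1 N, Pool.Agent.M58.rh z n -
        ∑ p ∈ (Icc 1 N).filter (fun p : ℕ => p.Prime ∧ y ≤ p),
          ∑ n ∈ Icc 1 (N / p), Pool.Agent.M58.rh z n -
        ∑ p ∈ Exc F z y, (N : ℝ) / p ≤ ((Gd F z y N).card : ℝ) := hgood
    linarith
  · refine le_trans ?_ hR
    have h1 : (N : ℝ) * (V * (1 - C₂ * Real.exp (-(b : ℝ)))) =
        W * (1 - C₂ * Real.exp (-(b : ℝ))) := by rw [hWdef]; ring
    rw [h1]
    linarith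
  · refine hFar.trans ?_
    have h1 : (N : ℝ) * (V * (1 + C₃ * Real.exp (-(b : ℝ))) *
        (Real.log (Real.log N / Real.log y) + C₃ / Real.log y)) ≤
        W * ((1 + C₃ * Real.exp (-(b : ℝ))) * (Real.log u + κ / 8)) := by
      have h2 : 0 ≤ 1 + C₃ * Real.exp (-(b : ℝ)) := by positivity
      have h3 : (1 + C₃ * Real.exp (-(b : ℝ))) *
          (Real.log (Real.log N / Real.log y) + C₃ / Real.log y) ≤
          (1 + C₃ * Real.exp (-(b : ℝ))) * (Real.log u + κ / 8) :=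
        mul_le_mul_of_nonneg_left (by linarith) h2
      calc (N : ℝ) * (V * (1 + C₃ * Real.exp (-(b : ℝ))) *
          (Real.log (Real.log N / Real.log y) + C₃ / Real.log y)) =
          W * ((1 + C₃ * Real.exp (-(b : ℝ))) *
            (Real.log (Real.log N / Real.log y) + C₃ / Real.log y)) := by rw [hWdef]; ring
        _ ≤ _ := mul_le_mul_of_nonneg_left h3 hW0.le
    exact add_le_add h1 e2

/-- THEOREM V. For `m ≥ 1` and `θ > ½ e^(-m/(m+1))` there are `c > 0`, `X₀` such that for `X ≥ X₀` at most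
`m` fundamental discriminants `d`, `|d| ≤ X`, have fewer than `X^c` split primes `p < X^θ`.
(`m = 1`: `θ > 0.3033`, `m = 2`: `0.2568`, `m = 3`: `0.2362 < 1/4`.)

PROOF. `splitCount` is monotone in `y`, so we may assume `θ < 2/5`. Choose `ε > 0` with
`u = (1/2 + 2ε)/θ`, `log u < m/(m+1) - 4κ`, `κ > 0`. `M = m + 1`. Suppose `F₀` has more than `m` such
discriminants; take `F ⊆ F₀` with exactly `M` elements. `corr ε` gives `δ`. Let `C` be the largest of the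
absolute constants of `rough_upper`, `rough_lower`, `near_part`, `far_part`, `VP_inv`; choose the natural
number `b` with `C e^(-b)` tiny (in terms of `κ, m, C`), then `c₀ > 0` with
`c₀ (4b+8) ≤ min (ε/2) (δ/2) 1/8` and `C' (4b+8) c₀` tiny; `z = X^c₀`, `c = c₀/2`, `y = X^θ`,
`N = ⌊X^(1/2+2ε)⌋₊`, `K = ⌈z^(4b+7)⌉₊`, `V = VP (1/p) (PI 0 z)`, `c₂/log z ≤ V ≤ C/log z`.
* `tp_corr` with `f = chi d * chi d'`, `K₀ = X^(1/2+ε)`, `ρ = X^(-δ)`: `ρ' = z^(4b+5) N X^(-δ) ≤ N X^(-δ/2)`.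
* `bessel`: `M² |Gd| ≤ M (N V (1 + C e^(-b)) + z^(4b+5)) + M² N X^(-δ/2)`.
* `good_lower` (`S' = Exc`), the sum over primes `p ≥ y` split at `N/K` into `far_part` and `near_part`,
`card_Exc`: `∑_{p ∈ Exc} N/p ≤ N M (X^c + 2 log X)/z ≤ N X^(-c₀/4)`:
`|Gd| ≥ N V (1 - C e^(-b)) - C log z z^(4b+5) - N V (1 + C e^(-b)) (log (log N/log y) + C/log y) - (N/K) z^(4b+5)
 - C (N/log N)(log K/log z) - N X^(-c₀/4)`; `log N / log y ≤ u`; the term
`C (N / log N)(log K/log z) ≤ C N (4b+8)/(½ log X) ≤ N V · C'' (4b+8) c₀`, small.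
* Dividing by `N V` (`V ≥ c₂/(c₀ log X)`, so all power savings are negligible for large `X`):
`M² (1 - log u - small) ≤ M (1 + small)`, i.e. `1 - log u ≤ 1/M + small`, contradicting
`log u < m/(m+1) - 4κ = 1 - 1/M - 4κ`. -/
theorem few_exceptions (m : ℕ) (hm : 1 ≤ m) (θ : ℝ)
    (hθ : Real.exp (-((m : ℝ) / (m + 1))) / 2 < θ) :
    ∃ c X₀ : ℝ, 0 < c ∧ ∀ X : ℝ, X₀ ≤ X → ∀ F : Finset ℤ,
      (∀ d ∈ F, Twist.Fund d ∧ |(d : ℝ)| ≤ X ∧ (splitCount d (X ^ θ) : ℝ) < X ^ c) →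
      F.card ≤ m := by
  have h25 : Real.exp (-((m : ℝ) / (m + 1))) / 2 < 2 / 5 := by
    have hm1 : (1 : ℝ) ≤ m := by exact_mod_cast hm
    have h1 : (1 : ℝ) / 2 ≤ (m : ℝ) / (m + 1) := by
      rw [div_le_div_iff₀ (by norm_num) (by positivity)]
      linarith
    have h2 : Real.exp (-((m : ℝ) / (m + 1))) ≤ Real.exp (-(1 / 2 : ℝ)) :=
      Real.exp_le_exp.2 (by linarith)
    have h3 : Real.exp (-(1 / 2 : ℝ)) ≤ 2 / 3 := by
      rw [Real.exp_neg, inv_le_comm₀ (Real.exp_pos _) (by norm_num)]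
      have := Real.add_one_le_exp (1 / 2 : ℝ)
      norm_num at this ⊢
      linarith
    linarith
  obtain ⟨c, X₀, hc, h⟩ := VE_main m (min θ (2 / 5)) (lt_min hθ h25) (min_le_right _ _)
  refine ⟨c, X₀, hc, fun X hX F hF => ?_⟩
  obtain ⟨hX1, h2⟩ := h X hX
  by_contra hlt
  rw [not_le] at hlt
  obtain ⟨F', hF', hcard⟩ := Finset.exists_subset_card_eq (show m + 1 ≤ F.card from hlt)
  refine h2 F' (fun d hd => ?_) hcard
  obtain ⟨a1, a2, a3⟩ := hF d (hF' hd)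
  refine ⟨a1, a2, lt_of_le_of_lt ?_ a3⟩
  exact_mod_cast VE_mono d _ _ (Real.rpow_le_rpow_of_exponent_le hX1 (min_le_left _ _))

end BG
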