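import Pool.Agent.W_aaa0df_v.VD

/-!
# Theorem V, VF: odd families and the sharp number of exceptions
-/

set_option autoImplicit false

noncomputable section

open Finset MPaaa0df

namespace BG

open Classical in
/-- the `z`-rough numbers `n ≤ N` which are coprime to all discriminants of the family -/
def Rc (F : Finset ℤ) (z : ℝ) (N : ℕ) : Finset ℕ :=
  (Icc 1 N).filter (fun n => (∀ p : ℕ, p.Prime → p ∣ n → z ≤ p) ∧ ∀ d ∈ F, chi d n ≠ 0)

theorem VF_zero (d : ℤ) (z : ℝ) (n : ℕ) : n ≠ 0 →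
    (∀ p : ℕ, p.Prime → p ∣ n → z ≤ p) → chi d n = 0 →
      ∃ p : ℕ, p.Prime ∧ p ∣ n ∧ z ≤ p ∧ chi d p = 0 := by
  induction n using induction_on_primes with
  | zero => intro h; exact absurd rfl h
  | one =>
    intro _ _ h
    rw [chi_one] at h
    exact absurd h one_ne_zero
  | prime_mul p a hp ih =>
    intro h0 h hz
    have ha : a ≠ 0 := right_ne_zero_of_mul h0
    rw [chi_mul, mul_eq_zero] at hz
    rcases hz with hz | hz
    · exact ⟨p, hp, dvd_mul_right p a, h p hp (dvd_mul_right p a), hz⟩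
    · obtain ⟨q, hq, hqa, hqz, hq0⟩ := ih ha (fun q hq hqa => h q hq (hqa.mul_left p)) hz
      exact ⟨q, hq, hqa.mul_left p, hqz, hq0⟩

theorem VF_mult (N p : ℕ) : ((Icc 1 N).filter (fun n => p ∣ n)).card = N / p := by
  have h1 : (Icc 1 N).filter (fun n => p ∣ n) = (Ioc 0 N).filter (fun n => p ∣ n) := by
    ext n
    simp only [mem_filter, mem_Icc, mem_Ioc]
    constructor
    · rintro ⟨h, h'⟩
      exact ⟨by omega, h'⟩
    · rintro ⟨h, h'⟩
      exact ⟨by omega, h'⟩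
  rw [h1, Nat.Ioc_filter_dvd_card_eq_div]

/-- PROOF. A number `n ∈ [1, N]` with `rh z n = 1` (all prime factors `≥ z`) which is not in `Rc F z N` has
`chi d n = 0` for some `d ∈ F`, so (complete multiplicativity `chi_mul`) `chi d p = 0` for a prime `p ∣ n`,
i.e. `p ∣ d`, and `p ≥ z`. For fixed `d` there are at most `2 log X` such primes (`VD_primeFactors`), each
divides at most `N/p ≤ N/z` of the `n ≤ N`. -/
theorem card_Rc (F : Finset ℤ) (X z : ℝ) (N : ℕ) (hX : 1 ≤ X) (hz : 2 ≤ z)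
    (hF : ∀ d ∈ F, Twist.Fund d ∧ |(d : ℝ)| ≤ X) :
    ∑ n ∈ Icc 1 N, Pool.Agent.M58.rh z n - F.card * (2 * Real.log X) * ((N : ℝ) / z) ≤
      ((Rc F z N).card : ℝ) := by
  classical
  have hz0 : 0 < z := by linarith
  set R0 : Finset ℕ := (Icc 1 N).filter (fun n => ∀ p : ℕ, p.Prime → p ∣ n → z ≤ p) with hR0
  have h1 : ∑ n ∈ Icc 1 N, Pool.Agent.M58.rh z n = (R0.card : ℝ) := by
    have h2 : ∀ n ∈ Icc 1 N, Pool.Agent.M58.rh z n =
        if (∀ p : ℕ, p.Prime → p ∣ n → z ≤ p) then 1 else 0 := by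
      intro n hn
      have hn0 : n ≠ 0 := by
        have := (mem_Icc.1 hn).1
        omega
      by_cases h : ∀ p : ℕ, p.Prime → p ∣ n → z ≤ p
      · rw [if_pos h]
        exact Pool.Agent.M58.VC_rh_eq_one hn0 fun p hp =>
          h p (Nat.prime_of_mem_primeFactors hp) (Nat.dvd_of_mem_primeFactors hp)
      · rw [if_neg h]
        by_contra h3
        obtain ⟨-, -, h4⟩ := Pool.Agent.M58.VC_rh_one h3
        exact h fun p hp hpn => h4 p (Nat.mem_primeFactors.2 ⟨hp, hpn, hn0⟩)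
    rw [Finset.sum_congr rfl h2, Finset.sum_ite, Finset.sum_const_zero, add_zero,
      Finset.sum_const, nsmul_eq_mul, mul_one]
  have h2 : R0 ⊆ Rc F z N ∪ F.biUnion (fun d =>
      (d.natAbs.primeFactors.filter (fun p : ℕ => z ≤ p)).biUnion (fun p =>
        (Icc 1 N).filter (fun n => p ∣ n))) := by
    intro n hn
    rw [hR0, mem_filter] at hn
    obtain ⟨hn1, hn2⟩ := hn
    have hn0 : n ≠ 0 := by
      have := (mem_Icc.1 hn1).1
      omega
    rw [mem_union]
    by_cases h : ∀ d ∈ F, chi d n ≠ 0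
    · left
      unfold Rc
      rw [mem_filter]
      exact ⟨hn1, hn2, h⟩
    · right
      push Not at h
      obtain ⟨d, hd, hd0⟩ := h
      obtain ⟨q, hq, hqn, hqz, hq0⟩ := VF_zero d z n hn0 hn2 hd0
      obtain ⟨hdne, hd4⟩ := fund_mod d (hF d hd).1
      rw [mem_biUnion]
      refine ⟨d, hd, ?_⟩
      rw [mem_biUnion]
      refine ⟨q, ?_, ?_⟩
      · rw [mem_filter, Nat.mem_primeFactors]
        exact ⟨⟨hq, Int.natCast_dvd.1 (chi_zero d hd4 q hq hq0), Int.natAbs_ne_zero.2 hdne⟩, hqz⟩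
      · rw [mem_filter]
        exact ⟨hn1, hqn⟩
  have h3 := (Finset.card_le_card h2).trans (Finset.card_union_le _ _)
  have h4 : ((F.biUnion (fun d =>
      (d.natAbs.primeFactors.filter (fun p : ℕ => z ≤ p)).biUnion (fun p =>
        (Icc 1 N).filter (fun n => p ∣ n)))).card : ℝ) ≤
      F.card * (2 * Real.log X) * ((N : ℝ) / z) := by
    have h5 := Finset.card_biUnion_le (s := F) (t := fun d =>
      (d.natAbs.primeFactors.filter (fun p : ℕ => z ≤ p)).biUnion (fun p =>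
        (Icc 1 N).filter (fun n => p ∣ n)))
    have h6 : ((F.biUnion (fun d =>
      (d.natAbs.primeFactors.filter (fun p : ℕ => z ≤ p)).biUnion (fun p =>
        (Icc 1 N).filter (fun n => p ∣ n)))).card : ℝ) ≤ ∑ d ∈ F,
        (((d.natAbs.primeFactors.filter (fun p : ℕ => z ≤ p)).biUnion (fun p =>
        (Icc 1 N).filter (fun n => p ∣ n))).card : ℝ) := by exact_mod_cast h5
    refine h6.trans ?_
    refine (Finset.sum_le_sum (g := fun _ => (2 * Real.log X) * ((N : ℝ) / z))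
      fun d hd => ?_).trans ?_
    · obtain ⟨hfd, hdX⟩ := hF d hd
      have hd0 := (fund_mod d hfd).1
      have h7 : (((d.natAbs.primeFactors.filter (fun p : ℕ => z ≤ p)).biUnion (fun p =>
          (Icc 1 N).filter (fun n => p ∣ n))).card : ℝ) ≤
          ∑ p ∈ d.natAbs.primeFactors.filter (fun p : ℕ => z ≤ p),
            (((Icc 1 N).filter (fun n => p ∣ n)).card : ℝ) := by
        exact_mod_cast Finset.card_biUnion_le
      refine h7.trans ?_
      refine (Finset.sum_le_sum (g := fun _ => (N : ℝ) / z) fun p hp => ?_).trans ?_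
      · rw [VF_mult]
        rw [mem_filter] at hp
        have h8 : ((N / p : ℕ) : ℝ) ≤ (N : ℝ) / p := Nat.cast_div_le
        refine h8.trans ?_
        exact div_le_div_of_nonneg_left (Nat.cast_nonneg N) hz0 hp.2
      · rw [Finset.sum_const, nsmul_eq_mul]
        refine mul_le_mul_of_nonneg_right ?_ (by positivity)
        refine le_trans ?_ (VD_primeFactors d hd0 X hdX)
        exact_mod_cast Finset.card_filter_le _ _
    · rw [Finset.sum_const, nsmul_eq_mul]
      apply le_of_eq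
      ring
  have h5 : (R0.card : ℝ) ≤ ((Rc F z N).card : ℝ) + ((F.biUnion (fun d =>
      (d.natAbs.primeFactors.filter (fun p : ℕ => z ≤ p)).biUnion (fun p =>
        (Icc 1 N).filter (fun n => p ∣ n)))).card : ℝ) := by exact_mod_cast h3
  rw [h1]
  linarith

theorem VF_odd (F : Finset ℤ) (n : ℕ) (h : ∀ d ∈ F, chi d n ≠ 0) :
    (∑ d ∈ F, chi d n) % 2 = (F.card : ℤ) % 2 := by
  rw [Finset.sum_int_mod]
  have h1 : ∀ d ∈ F, chi d n % 2 = 1 := by
    intro d hd
    rcases chi_values d n with h2 | h2 | h2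
    · exact absurd h2 (h d hd)
    · rw [h2]; decide
    · rw [h2]; decide
  rw [Finset.sum_congr rfl h1, Finset.sum_const, nsmul_eq_mul, mul_one]

theorem VF_sq (F : Finset ℤ) (hodd : Odd F.card) (n : ℕ) (h : ∀ d ∈ F, chi d n ≠ 0) :
    1 ≤ (∑ d ∈ F, (chi d n : ℝ)) ^ 2 := by
  have h1 := VF_odd F n h
  have h2 : (∑ d ∈ F, chi d n) ≠ 0 := by
    intro h3
    rw [h3] at h1
    obtain ⟨k, hk⟩ := hodd
    rw [hk] at h1
    push_cast at h1
    omega
  have h3 : 1 ≤ (∑ d ∈ F, chi d n) ^ 2 := by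
    have := sq_pos_of_ne_zero h2
    omega
  have h4 : ((1 : ℤ) : ℝ) ≤ (((∑ d ∈ F, chi d n) ^ 2 : ℤ) : ℝ) := by exact_mod_cast h3
  push_cast at h4
  exact h4

theorem VF_sub (F : Finset ℤ) (z y : ℝ) (N : ℕ) : Gd F z y N ⊆ Rc F z N := by
  classical
  intro n hn
  unfold Gd at hn
  rw [mem_filter] at hn
  obtain ⟨hn1, hn2⟩ := hn
  have hn0 : n ≠ 0 := by
    have := (mem_Icc.1 hn1).1
    omega
  unfold Rc
  rw [mem_filter]
  refine ⟨hn1, fun p hp hpn => (hn2 p hp hpn).1, fun d hd => ?_⟩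
  rw [VD_neg d n hn0 fun p hp hpn => by
    obtain ⟨a, b, c⟩ := hn2 p hp hpn
    by_contra hne
    apply c
    unfold Exc
    rw [mem_filter, mem_range, Nat.lt_ceil]
    exact ⟨b, hp, a, b, d, hd, hne⟩]
  exact pow_ne_zero _ (by norm_num)

/-- BESSEL for odd families. PROOF. As `bessel` (VD): `∑_{n ≤ N} tp'(n) (∑_{d ∈ F} chi d n)²` is at most the
right side. It is at least `|F|² |Gd| + |Rc \ Gd|`: on `Gd` the inner square is `|F|²` (`sum_good`), on `Rc` the
number `∑_{d ∈ F} chi d n` is a sum of an odd number of signs `±1`, so it is odd and its square is `≥ 1`;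
`tp' ≥ 1` where all prime factors are `≥ z` (as in `bessel`), `tp' ≥ 0` everywhere. `Gd ⊆ Rc` (for `n ∈ Gd`,
`chi d p = -1 ≠ 0` for all primes `p ∣ n`, see `sum_good`, `VD_neg`). -/
theorem bessel_odd (F : Finset ℤ) (hodd : Odd F.card) (z y : ℝ) (hz : 2 ≤ z) (b N : ℕ) (ρ' : ℝ)
    (hρ0 : 0 ≤ ρ') (hρ : ∀ d ∈ F, ∀ d' ∈ F, d ≠ d' →
      |∑ n ∈ Icc 1 N, Pool.Agent.M58.tp' z b n * ((chi d n : ℝ) * (chi d' n : ℝ))| ≤ ρ') :
    ((F.card : ℝ) ^ 2 - 1) * (Gd F z y N).card + (Rc F z N).card ≤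
      F.card * ∑ n ∈ Icc 1 N, Pool.Agent.M58.tp' z b n + (F.card : ℝ) ^ 2 * ρ' := by
  classical
  have htp : ∀ n ∈ Icc 1 N, 0 ≤ Pool.Agent.M58.tp' z b n := fun n hn =>
    (Pool.Agent.M58.rh_bounds z hz b n (mem_Icc.1 hn).1).2.2
  have hcard : 1 ≤ (F.card : ℝ) ^ 2 := by
    have h0 : 1 ≤ F.card := by
      obtain ⟨k, hk⟩ := hodd
      omega
    have h1 : (1 : ℝ) ≤ F.card := by exact_mod_cast h0
    nlinarith
  have htp1 : ∀ n ∈ Rc F z N, 1 ≤ Pool.Agent.M58.tp' z b n := by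
    intro n hn
    unfold Rc at hn
    rw [mem_filter, mem_Icc] at hn
    obtain ⟨⟨hn1, -⟩, hn2, -⟩ := hn
    have h5 := (Pool.Agent.M58.rh_bounds z hz b n hn1).2.1
    rwa [Pool.Agent.M58.VC_rh_eq_one (by omega) fun p hp =>
      hn2 p (Nat.prime_of_mem_primeFactors hp) (Nat.dvd_of_mem_primeFactors hp)] at h5
  have h1 : ((F.card : ℝ) ^ 2 - 1) * (Gd F z y N).card + (Rc F z N).card ≤
      ∑ n ∈ Icc 1 N, Pool.Agent.M58.tp' z b n * (∑ d ∈ F, (chi d n : ℝ)) ^ 2 := by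
    have h2 : ((F.card : ℝ) ^ 2 - 1) * (Gd F z y N).card + (Rc F z N).card ≤
        ∑ n ∈ Rc F z N, Pool.Agent.M58.tp' z b n * (∑ d ∈ F, (chi d n : ℝ)) ^ 2 := by
      have h3 : ((F.card : ℝ) ^ 2 - 1) * (Gd F z y N).card + (Rc F z N).card =
          ∑ n ∈ Rc F z N, ((if n ∈ Gd F z y N then (F.card : ℝ) ^ 2 - 1 else 0) + 1) := by
        rw [Finset.sum_add_distrib, Finset.sum_const, nsmul_eq_mul, mul_one,
          ← Finset.sum_filter, Finset.sum_const, nsmul_eq_mul,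
          Finset.filter_mem_eq_inter, Finset.inter_eq_right.2 (VF_sub F z y N)]
        ring
      rw [h3]
      refine Finset.sum_le_sum fun n hn => ?_
      have h4 := htp1 n hn
      by_cases h5 : n ∈ Gd F z y N
      · rw [if_pos h5, sum_good F z y N n h5]
        nlinarith
      · rw [if_neg h5, zero_add]
        have h6 : 1 ≤ (∑ d ∈ F, (chi d n : ℝ)) ^ 2 := by
          unfold Rc at hn
          rw [mem_filter] at hn
          exact VF_sq F hodd n hn.2.2
        nlinarith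
    refine h2.trans (Finset.sum_le_sum_of_subset_of_nonneg ?_ ?_)
    · unfold Rc
      exact Finset.filter_subset _ _
    · intro n hn _
      exact mul_nonneg (htp n hn) (sq_nonneg _)
  have h2 : ∑ n ∈ Icc 1 N, Pool.Agent.M58.tp' z b n * (∑ d ∈ F, (chi d n : ℝ)) ^ 2 =
      ∑ d ∈ F, ∑ d' ∈ F, ∑ n ∈ Icc 1 N,
        Pool.Agent.M58.tp' z b n * ((chi d n : ℝ) * (chi d' n : ℝ)) := by
    have h3 : ∀ n ∈ Icc 1 N, Pool.Agent.M58.tp' z b n * (∑ d ∈ F, (chi d n : ℝ)) ^ 2 =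
        ∑ d ∈ F, ∑ d' ∈ F, Pool.Agent.M58.tp' z b n * ((chi d n : ℝ) * (chi d' n : ℝ)) := by
      intro n _
      rw [sq, Finset.sum_mul_sum, Finset.mul_sum]
      refine Finset.sum_congr rfl fun d _ => ?_
      rw [Finset.mul_sum]
    rw [Finset.sum_congr rfl h3, Finset.sum_comm]
    refine Finset.sum_congr rfl fun d _ => ?_
    rw [Finset.sum_comm]
  rw [h2] at h1
  refine h1.trans ?_
  have h3 : ∀ d ∈ F, ∀ d' ∈ F, ∑ n ∈ Icc 1 N,
        Pool.Agent.M58.tp' z b n * ((chi d n : ℝ) * (chi d' n : ℝ)) ≤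
      (if d = d' then ∑ n ∈ Icc 1 N, Pool.Agent.M58.tp' z b n else 0) + ρ' := by
    intro d hd d' hd'
    by_cases h : d = d'
    · rw [if_pos h, ← h]
      have h4 : ∑ n ∈ Icc 1 N, Pool.Agent.M58.tp' z b n * ((chi d n : ℝ) * (chi d n : ℝ)) ≤
          ∑ n ∈ Icc 1 N, Pool.Agent.M58.tp' z b n := by
        refine Finset.sum_le_sum fun n hn => ?_
        have h5 : ((chi d n : ℝ) * (chi d n : ℝ)) ≤ 1 := by
          rcases chi_values d n with h | h | h <;> rw [h] <;> norm_num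
        have h6 := htp n hn
        nlinarith
      linarith
    · rw [if_neg h, zero_add]
      exact (le_abs_self _).trans (hρ d hd d' hd' h)
  refine (Finset.sum_le_sum fun d hd => Finset.sum_le_sum fun d' hd' => h3 d hd d' hd').trans ?_
  apply le_of_eq
  have h4 : ∀ d ∈ F, ∑ d' ∈ F, ((if d = d' then ∑ n ∈ Icc 1 N, Pool.Agent.M58.tp' z b n else 0) + ρ') =
      (∑ n ∈ Icc 1 N, Pool.Agent.M58.tp' z b n) + F.card * ρ' := by
    intro d hd
    rw [Finset.sum_add_distrib, Finset.sum_ite_eq, if_pos hd, Finset.sum_const, nsmul_eq_mul]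
  rw [Finset.sum_congr rfl h4, Finset.sum_const, nsmul_eq_mul]
  ring

end BG
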