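import Pool.Agent.W_b58c63_m1.Defs
import Pool.Agent.W_MP_aaa0df_nt.Defs

/-!
# Theorem V, VG0: parameters and error terms for VG (real variable estimates, small contexts)
-/

set_option autoImplicit false

noncomputable section

open Finset MPaaa0df

namespace BG

theorem VG_ev (m : ℕ) (C s : ℝ) (hC : 0 ≤ C) (hs : 0 < s) :
    ∀ᶠ Q : ℝ in Filter.atTop, C * (Real.log Q) ^ m ≤ Q ^ s := by
  have h1 := (isLittleO_log_rpow_rpow_atTop (m : ℝ) hs).def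
    (show 0 < 1 / (C + 1) by positivity)
  filter_upwards [h1, Filter.eventually_ge_atTop (1 : ℝ)] with Q hQ hQ1
  have h0 : 0 ≤ Real.log Q := Real.log_nonneg hQ1
  rw [Real.rpow_natCast, Real.norm_of_nonneg (pow_nonneg h0 m),
    Real.norm_of_nonneg (Real.rpow_nonneg (by linarith) s)] at hQ
  have h2 : 0 ≤ Q ^ s := Real.rpow_nonneg (by linarith) s
  calc C * (Real.log Q) ^ m ≤ C * (1 / (C + 1) * Q ^ s) := mul_le_mul_of_nonneg_left hQ hC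
    _ = (C / (C + 1)) * Q ^ s := by field_simp
    _ ≤ 1 * Q ^ s := by
      apply mul_le_mul_of_nonneg_right _ h2
      rw [div_le_one (by positivity)]
      linarith
    _ = Q ^ s := one_mul _

theorem VG_mono (d : ℤ) (y y' : ℝ) (h : y ≤ y') : splitCount d y ≤ splitCount d y' := by
  unfold splitCount
  apply Set.ncard_le_ncard
  · rintro p ⟨h1, h2, h3, h4⟩
    exact ⟨h1, h2.trans_le h, h3, h4⟩
  · refine (Set.finite_lt_nat (⌈y'⌉₊)).subset ?_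
    rintro p ⟨_, hp, _⟩
    exact Nat.lt_ceil.2 hp

theorem VG_rh (z : ℝ) (n : ℕ) : 0 ≤ Pool.Agent.M58.rh z n := by
  unfold Pool.Agent.M58.rh
  split_ifs
  · exact zero_le_one
  · exact le_rfl

/-- Splitting the primes at `N / K`. -/
theorem VG_split (z y : ℝ) (N K : ℕ) :
    ∑ p ∈ (Icc 1 N).filter (fun p : ℕ => p.Prime ∧ y ≤ p),
        ∑ n ∈ Icc 1 (N / p), Pool.Agent.M58.rh z n ≤
      ∑ p ∈ (Icc 1 (N / K)).filter (fun p : ℕ => p.Prime ∧ y ≤ p),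
        ∑ n ∈ Icc 1 (N / p), Pool.Agent.M58.rh z n +
      ∑ p ∈ (Ioc (N / K) N).filter Nat.Prime, ∑ n ∈ Icc 1 (N / p), Pool.Agent.M58.rh z n := by
  have h0 : ∀ p : ℕ, 0 ≤ ∑ n ∈ Icc 1 (N / p), Pool.Agent.M58.rh z n := fun p =>
    sum_nonneg fun n _ => VG_rh z n
  rw [← sum_union_inter]
  have h1 : (Icc 1 N).filter (fun p : ℕ => p.Prime ∧ y ≤ p) ⊆
      (Icc 1 (N / K)).filter (fun p : ℕ => p.Prime ∧ y ≤ p) ∪
        (Ioc (N / K) N).filter Nat.Prime := by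
    intro p hp
    rw [mem_filter, mem_Icc] at hp
    rw [mem_union, mem_filter, mem_filter, mem_Icc, mem_Ioc]
    by_cases h : p ≤ N / K
    · exact Or.inl ⟨⟨hp.1.1, h⟩, hp.2⟩
    · exact Or.inr ⟨⟨by omega, hp.1.2⟩, hp.2.1⟩
  have h2 := sum_le_sum_of_subset_of_nonneg h1 (fun p _ _ => h0 p)
  have h3 : 0 ≤ ∑ p ∈ (Icc 1 (N / K)).filter (fun p : ℕ => p.Prime ∧ y ≤ p) ∩
      (Ioc (N / K) N).filter Nat.Prime, ∑ n ∈ Icc 1 (N / p), Pool.Agent.M58.rh z n :=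
    sum_nonneg fun p _ => h0 p
  linarith

/-- The final contradiction. -/
theorem VG_alg {M W G Rr E9 Tp ρ R Far Near Ex C1 C2 C3 e κ lu : ℝ} (hM : 3 ≤ M) (hW : 0 < W)
    (hκ : 0 < κ) (he : 0 ≤ e) (hC1 : 0 ≤ C1) (hC2 : 0 ≤ C2) (hC3 : 0 ≤ C3)
    (hCe : 4 * (C1 + C2 + C3) * e ≤ κ)
    (h1 : (M ^ 2 - 1) * G + Rr ≤ M * Tp + M ^ 2 * ρ) (h1' : R - E9 ≤ Rr) (h9 : E9 ≤ κ / 8 * W)
    (h2 : Tp ≤ W * (1 + C1 * e) + κ / 8 * W)
    (h3 : ρ ≤ κ / 8 * W) (h4 : R - Far - Near - Ex ≤ G)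
    (h5 : W * (1 - C2 * e) - κ / 8 * W ≤ R)
    (h6 : Far ≤ W * ((1 + C3 * e) * (lu + κ / 8)) + κ / 8 * W) (h7 : Near ≤ κ * W)
    (h8 : Ex ≤ κ / 8 * W) (hlu : lu ≤ 1 - 1 / (M + 1) - 16 * κ) : False := by
  have hM0 : 0 < M := by linarith only [hM]
  have hiM : 0 < 1 / (M + 1) := by positivity
  have hC1e : 0 ≤ C1 * e := mul_nonneg hC1 he
  have hC3e : 0 ≤ C3 * e := mul_nonneg hC3 he
  have hC2e : 0 ≤ C2 * e := mul_nonneg hC2 he
  have a1 : C3 * e * (lu + κ / 8) ≤ C3 * e * 2 := by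
    apply mul_le_mul_of_nonneg_left _ hC3e
    linarith only [hlu, hiM, hκ]
  have a6 : 4 * (C1 + C2 + C3) * e = 4 * (C1 * e) + 4 * (C2 * e) + 4 * (C3 * e) := by ring
  rw [a6] at hCe
  -- lower bound for `G`
  have a2 : W * (1 / (M + 1) + 14 * κ) ≤ G := by
    have b1 : W * ((1 + C3 * e) * (lu + κ / 8)) ≤ W * ((lu + κ / 8) + C3 * e * 2) := by
      apply mul_le_mul_of_nonneg_left _ hW.le
      linarith only [a1]
    have b2 : W * (1 / (M + 1) + 14 * κ) ≤ W * (1 - C2 * e) - κ / 8 * W -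
        (W * ((lu + κ / 8) + C3 * e * 2) + κ / 8 * W) - κ * W - κ / 8 * W := by
      have b3 : W * (1 - C2 * e) - κ / 8 * W -
          (W * ((lu + κ / 8) + C3 * e * 2) + κ / 8 * W) - κ * W - κ / 8 * W =
          W * (1 - C2 * e - κ / 8 - (lu + κ / 8) - C3 * e * 2 - κ / 8 - κ - κ / 8) := by ring
      rw [b3]
      apply mul_le_mul_of_nonneg_left _ hW.le
      linarith only [hlu, hCe, hC1e, hC2e, hC3e, hκ]
    linarith only [b1, b2, h4, h5, h6, h7, h8]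
  -- lower bound for `Rr`
  have a3 : W * (1 - κ / 2) ≤ Rr := by
    have b1 : W * (1 - κ / 2) ≤ W * (1 - C2 * e) - κ / 8 * W - κ / 8 * W := by
      have b3 : W * (1 - C2 * e) - κ / 8 * W - κ / 8 * W =
          W * (1 - C2 * e - κ / 8 - κ / 8) := by ring
      rw [b3]
      apply mul_le_mul_of_nonneg_left _ hW.le
      linarith only [hCe, hC1e, hC3e]
    linarith only [b1, h1', h9, h5]
  -- upper bound
  have a4 : M * Tp + M ^ 2 * ρ ≤ W * (M * (1 + 3 * κ / 8) + M ^ 2 * (κ / 8)) := by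
    have b2 : M * Tp ≤ M * (W * (1 + 3 * κ / 8)) := by
      apply mul_le_mul_of_nonneg_left _ hM0.le
      have b3 : W * (1 + C1 * e) + κ / 8 * W = W * (1 + C1 * e + κ / 8) := by ring
      rw [b3] at h2
      refine h2.trans ?_
      apply mul_le_mul_of_nonneg_left _ hW.le
      linarith only [hCe, hC2e, hC3e]
    have b3 : M ^ 2 * ρ ≤ M ^ 2 * (κ / 8 * W) := mul_le_mul_of_nonneg_left h3 (by positivity)
    have b4 : W * (M * (1 + 3 * κ / 8) + M ^ 2 * (κ / 8)) =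
        M * (W * (1 + 3 * κ / 8)) + M ^ 2 * (κ / 8 * W) := by ring
    linarith only [b2, b3, b4]
  have hM2 : 8 ≤ M ^ 2 - 1 := by nlinarith only [hM]
  have a5 : W * ((M ^ 2 - 1) * (1 / (M + 1) + 14 * κ) + (1 - κ / 2)) ≤
      W * (M * (1 + 3 * κ / 8) + M ^ 2 * (κ / 8)) := by
    have b1 : (M ^ 2 - 1) * (W * (1 / (M + 1) + 14 * κ)) ≤ (M ^ 2 - 1) * G :=
      mul_le_mul_of_nonneg_left a2 (by linarith only [hM2])
    have b2 : W * ((M ^ 2 - 1) * (1 / (M + 1) + 14 * κ) + (1 - κ / 2)) =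
        (M ^ 2 - 1) * (W * (1 / (M + 1) + 14 * κ)) + W * (1 - κ / 2) := by ring
    linarith only [b1, b2, a3, a4, h1]
  have a7 := le_of_mul_le_mul_left a5 hW
  have a8 : (M ^ 2 - 1) * (1 / (M + 1) + 14 * κ) = (M - 1) + 14 * κ * (M ^ 2 - 1) := by
    field_simp
    ring
  rw [a8] at a7
  have a9 : κ * (14 * (M ^ 2 - 1)) ≤ κ * (1 / 2 + 3 * M / 8 + M ^ 2 / 8) := by
    linarith only [a7]
  have a11 := le_of_mul_le_mul_left a9 hκ
  nlinarith only [a11, hM]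

theorem VG_par (k : ℕ) (θ : ℝ)
    (hθ : Real.exp (-((2 * (k : ℝ) + 1) / (2 * k + 2))) / 2 < θ) (hθ2 : θ ≤ 2 / 5) :
    0 < θ ∧ ∃ κ : ℝ, 0 < κ ∧
      Real.log ((1 / 2 + 2 * (κ / 4)) / θ) ≤ 1 - 1 / (2 * (k : ℝ) + 1 + 1) - 16 * κ := by
  have hexp0 : 0 < Real.exp (-((2 * (k : ℝ) + 1) / (2 * k + 2))) := Real.exp_pos _
  have hθ0 : 0 < θ := by linarith only [hθ, hexp0]
  refine ⟨hθ0, ?_⟩
  have hLM : (2 * (k : ℝ) + 1) / (2 * k + 2) = 1 - 1 / (2 * (k : ℝ) + 1 + 1) := by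
    have h0 : (0 : ℝ) < 2 * k + 2 := by positivity
    have h2 : 2 * (k : ℝ) + 1 + 1 = 2 * (k : ℝ) + 2 := by ring
    rw [h2]
    field_simp
    ring
  rw [hLM] at hθ
  have hlog2θ : -(1 - 1 / (2 * (k : ℝ) + 1 + 1)) < Real.log (2 * θ) := by
    rw [Real.lt_log_iff_exp_lt (by linarith only [hθ0])]
    linarith only [hθ]
  obtain ⟨κ, hκdef⟩ : ∃ κ : ℝ, κ = ((1 - 1 / (2 * (k : ℝ) + 1 + 1)) + Real.log (2 * θ)) / 20 :=
    ⟨_, rfl⟩
  have hκ : 0 < κ := by rw [hκdef]; linarith only [hlog2θ]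
  refine ⟨κ, hκ, ?_⟩
  have h1 : (1 / 2 + 2 * (κ / 4)) / θ = (1 + κ) / (2 * θ) := by
    field_simp
    ring
  rw [h1, Real.log_div (by linarith only [hκ]) (by linarith only [hθ0])]
  have h2 := Real.log_le_sub_one_of_pos (show 0 < 1 + κ by linarith only [hκ])
  linarith only [h2, hκdef, hκ]

theorem VG_b (S κ : ℝ) (hS : 0 ≤ S) (hκ : 0 < κ) :
    ∃ b : ℕ, 1 ≤ b ∧ 4 * S * Real.exp (-(b : ℝ)) ≤ κ := by
  obtain ⟨b, hbdef⟩ : ∃ b : ℕ, b = ⌈4 * S / κ⌉₊ + 1 := ⟨_, rfl⟩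
  refine ⟨b, by omega, ?_⟩
  have h1 : 4 * S / κ ≤ b := by
    rw [hbdef]
    push_cast
    have := Nat.le_ceil (4 * S / κ)
    linarith only [this]
  have h2 : (b : ℝ) ≤ Real.exp b := by
    have := Real.add_one_le_exp (b : ℝ)
    linarith only [this]
  rw [Real.exp_neg, ← div_eq_mul_inv, div_le_iff₀ (Real.exp_pos _)]
  rw [div_le_iff₀ hκ] at h1
  have h3 := mul_le_mul_of_nonneg_right h2 hκ.le
  linarith only [h1, h3]

theorem VG_c0 (p q r B : ℝ) (hp : 0 < p) (hq : 0 < q) (hr : 0 < r) (hB : 0 < B) :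
    ∃ c₀ : ℝ, 0 < c₀ ∧ c₀ * B ≤ p ∧ c₀ * B ≤ q ∧ c₀ * B ≤ 1 / 8 ∧ c₀ * B ≤ r := by
  obtain ⟨μ, hμ⟩ : ∃ μ, μ = min (min p q) (min (1 / 8) r) := ⟨_, rfl⟩
  have h0 : 0 < μ := by
    rw [hμ]
    exact lt_min (lt_min hp hq) (lt_min (by norm_num) hr)
  refine ⟨μ / B, div_pos h0 hB, ?_, ?_, ?_, ?_⟩ <;> rw [div_mul_cancel₀ _ hB.ne', hμ]
  · exact (min_le_left _ _).trans (min_le_left _ _)
  · exact (min_le_left _ _).trans (min_le_right _ _)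
  · exact (min_le_right _ _).trans (min_le_left _ _)
  · exact (min_le_right _ _).trans (min_le_right _ _)

/-- From `(8 c₀ / (κ cV)) ℓ a ≤ R` to `a ≤ κ/8 t R`, `t = cV / (c₀ ℓ)`. -/
theorem VG_q {κ t cV c₀ ℓ R a : ℝ} (hκ : 0 < κ) (hcV : 0 < cV) (hc₀ : 0 < c₀) (hℓ : 0 < ℓ)
    (ht : t = cV / (c₀ * ℓ)) (h : 8 * c₀ / (κ * cV) * ℓ * a ≤ R) : a ≤ κ / 8 * t * R := by
  have h1 : a = κ / 8 * t * (8 * c₀ / (κ * cV) * ℓ * a) := by
    rw [ht]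
    field_simp
  have h2 : 0 ≤ κ / 8 * t := by
    rw [ht]
    positivity
  calc a = κ / 8 * t * (8 * c₀ / (κ * cV) * ℓ * a) := h1
    _ ≤ κ / 8 * t * R := mul_le_mul_of_nonneg_left h h2

theorem VG_err1 {κ t N W a Z A B : ℝ} (hκ : 0 < κ) (ht : 0 < t) (hWt : N * t ≤ W)
    (hZ0 : 0 ≤ Z) (hB : 0 < B) (ha : a ≤ κ / 8 * t * B) (hZ : Z ≤ A) (hAB : A * B ≤ N) :
    a * Z ≤ κ / 8 * W := by
  calc a * Z ≤ (κ / 8 * t * B) * A := mul_le_mul ha hZ hZ0 (by positivity)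
    _ = κ / 8 * t * (A * B) := by ring
    _ ≤ κ / 8 * t * N := mul_le_mul_of_nonneg_left hAB (by positivity)
    _ = κ / 8 * (N * t) := by ring
    _ ≤ κ / 8 * W := mul_le_mul_of_nonneg_left hWt (by positivity)

theorem VG_err2 {κ t N W Z P K : ℝ} (hκ : 0 < κ) (ht : 0 < t) (hN : 0 ≤ N) (hWt : N * t ≤ W)
    (hZ0 : 0 ≤ Z) (hK : 0 < K) (h1 : 1 ≤ κ / 8 * t * P) (h2 : Z * P ≤ K) :
    N / K * Z ≤ κ / 8 * W := by
  have h3 : Z ≤ κ / 8 * t * K := by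
    calc Z = Z * 1 := (mul_one Z).symm
      _ ≤ Z * (κ / 8 * t * P) := mul_le_mul_of_nonneg_left h1 hZ0
      _ = κ / 8 * t * (Z * P) := by ring
      _ ≤ κ / 8 * t * K := mul_le_mul_of_nonneg_left h2 (by positivity)
  calc N / K * Z ≤ N / K * (κ / 8 * t * K) := mul_le_mul_of_nonneg_left h3 (by positivity)
    _ = κ / 8 * (N * t) := by field_simp
    _ ≤ κ / 8 * W := mul_le_mul_of_nonneg_left hWt (by positivity)

theorem VG_err6 {κ t N W Z D D' : ℝ} (hκ : 0 < κ) (hN : 0 ≤ N) (hWt : N * t ≤ W)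
    (hD : 0 < D) (hD' : 0 < D') (h : D * D' * D = 1) (hZ : Z ≤ D) (h1 : 1 ≤ κ / 8 * t * D) :
    Z * (N * D') ≤ κ / 8 * W := by
  have h5 : Z * D' ≤ κ / 8 * t := by
    calc Z * D' ≤ D * D' := mul_le_mul_of_nonneg_right hZ hD'.le
      _ = D * D' * 1 := (mul_one _).symm
      _ ≤ D * D' * (κ / 8 * t * D) := mul_le_mul_of_nonneg_left h1 (by positivity)
      _ = κ / 8 * t * (D * D' * D) := by ring
      _ = κ / 8 * t := by rw [h, mul_one]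
  calc Z * (N * D') = N * (Z * D') := by ring
    _ ≤ N * (κ / 8 * t) := mul_le_mul_of_nonneg_left h5 hN
    _ = κ / 8 * (N * t) := by ring
    _ ≤ κ / 8 * W := mul_le_mul_of_nonneg_left hWt (by positivity)

theorem VG_err4 {κ t N W S z Q M : ℝ} (hκ : 0 < κ) (hN : 0 ≤ N) (hWt : N * t ≤ W)
    (hz : 0 < z) (hQ : 0 < Q) (hQz : Q * Q = z) (h1 : S ≤ 2 * M * Q)
    (h2 : 2 * M ≤ κ / 8 * t * Q) : S * (N / z) ≤ κ / 8 * W := by
  have h3 : S ≤ κ / 8 * t * z := by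
    calc S ≤ 2 * M * Q := h1
      _ ≤ κ / 8 * t * Q * Q := mul_le_mul_of_nonneg_right h2 hQ.le
      _ = κ / 8 * t * z := by rw [← hQz]; ring
  calc S * (N / z) ≤ (κ / 8 * t * z) * (N / z) :=
      mul_le_mul_of_nonneg_right h3 (by positivity)
    _ = κ / 8 * (N * t) := by field_simp
    _ ≤ κ / 8 * W := mul_le_mul_of_nonneg_left hWt (by positivity)

theorem VG_err3 {κ t N W C₄ lN lK lz B c₀ ℓ cV : ℝ} (hκ : 0 < κ) (hN : 0 ≤ N)
    (hWt : N * t ≤ W) (hC₄ : 0 < C₄) (hlz : 0 < lz) (hlK0 : 0 ≤ lK) (hlK : lK ≤ B * lz)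
    (hℓ : 0 < ℓ) (hlN : 1 / 2 * ℓ ≤ lN) (hc₀ : 0 < c₀) (hB : 0 < B)
    (hcB : c₀ * B ≤ κ * cV / (2 * C₄)) (ht : t = cV / (c₀ * ℓ)) :
    C₄ * (N / lN * (lK / lz)) ≤ κ * W := by
  have hlN0 : 0 < lN := by linarith only [hlN, hℓ]
  have h1 : lK / lz ≤ B := by
    rw [div_le_iff₀ hlz]
    exact hlK
  have h2 : N / lN ≤ N * (2 / ℓ) := by
    rw [mul_div_assoc', div_le_div_iff₀ hlN0 hℓ]
    have := mul_le_mul_of_nonneg_left hlN hN
    linarith only [this]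
  have h3 : C₄ * (2 / ℓ * B) ≤ κ * t := by
    rw [le_div_iff₀ (by positivity)] at hcB
    rw [ht]
    have h5 : C₄ * (2 / ℓ * B) = (c₀ * B * (2 * C₄)) / (c₀ * ℓ) := by field_simp
    rw [h5, mul_div_assoc']
    exact div_le_div_of_nonneg_right hcB (by positivity)
  calc C₄ * (N / lN * (lK / lz)) ≤ C₄ * (N * (2 / ℓ) * B) := by
        apply mul_le_mul_of_nonneg_left _ hC₄.le
        exact mul_le_mul h2 h1 (by positivity) (by positivity)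
    _ = N * (C₄ * (2 / ℓ * B)) := by ring
    _ ≤ N * (κ * t) := mul_le_mul_of_nonneg_left h3 hN
    _ = κ * (N * t) := by ring
    _ ≤ κ * W := mul_le_mul_of_nonneg_left hWt hκ.le

/-- The numbers `N` and `K`. -/
theorem VG_sizes (X ε c₀ : ℝ) (b : ℕ) (hX : 1 ≤ X) (hc₀ : 0 < c₀)
    (hc : c₀ * (4 * (b : ℝ) + 8) ≤ 1 / 8) (g3 : 2 ≤ X ^ c₀) (g5 : 2 ≤ X ^ (2 * ε)) :
    ∃ N K : ℕ, X ^ (1 / 2 + 2 * ε) - 1 < N ∧ X ^ (1 / 2 : ℝ) ≤ N ∧
      1 / 2 * Real.log X ≤ Real.log N ∧ Real.log N ≤ (1 / 2 + 2 * ε) * Real.log X ∧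
      (X ^ c₀) ^ (4 * b + 7) ≤ K ∧ X ^ c₀ ≤ K ∧ 2 ≤ K ∧ K * K ≤ N ∧ K ≤ N ∧
      Real.log K ≤ (4 * (b : ℝ) + 8) * Real.log (X ^ c₀) := by
  have hX0 : 0 < X := by linarith only [hX]
  have hX12 : 1 ≤ X ^ (1 / 2 : ℝ) := Real.one_le_rpow hX (by norm_num)
  obtain ⟨N, hNdef⟩ : ∃ N : ℕ, N = ⌊X ^ (1 / 2 + 2 * ε)⌋₊ := ⟨_, rfl⟩
  have hNle : (N : ℝ) ≤ X ^ (1 / 2 + 2 * ε) := by
    rw [hNdef]
    exact Nat.floor_le (Real.rpow_nonneg hX0.le _)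
  have hNgt : X ^ (1 / 2 + 2 * ε) - 1 < N := by
    have := Nat.lt_floor_add_one (X ^ (1 / 2 + 2 * ε))
    rw [hNdef]
    linarith only [this]
  have hN12 : X ^ (1 / 2 : ℝ) ≤ N := by
    have h1 : X ^ (1 / 2 + 2 * ε) = X ^ (1 / 2 : ℝ) * X ^ (2 * ε) := Real.rpow_add hX0 _ _
    have h2 : X ^ (1 / 2 : ℝ) * 2 ≤ X ^ (1 / 2 : ℝ) * X ^ (2 * ε) :=
      mul_le_mul_of_nonneg_left g5 (by linarith only [hX12])
    linarith only [h1, h2, hNgt, hX12]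
  have hN0 : (0 : ℝ) < N := by linarith only [hN12, hX12]
  have hlN : 1 / 2 * Real.log X ≤ Real.log N := by
    rw [← Real.log_rpow hX0]
    exact Real.log_le_log (by linarith only [hX12]) hN12
  have hlN' : Real.log N ≤ (1 / 2 + 2 * ε) * Real.log X := by
    rw [← Real.log_rpow hX0]
    exact Real.log_le_log hN0 hNle
  obtain ⟨z, hz⟩ : ∃ z : ℝ, z = X ^ c₀ := ⟨_, rfl⟩
  rw [← hz] at g3 ⊢
  obtain ⟨K, hKdef⟩ : ∃ K : ℕ, K = ⌈z ^ (4 * b + 7)⌉₊ := ⟨_, rfl⟩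
  have hKge : z ^ (4 * b + 7) ≤ K := by rw [hKdef]; exact Nat.le_ceil _
  have hz1 : 1 ≤ z := by linarith only [g3]
  have hz7 : 1 ≤ z ^ (4 * b + 7) := one_le_pow₀ hz1
  have hKle : (K : ℝ) ≤ z ^ (4 * b + 8) := by
    have h1 := Nat.ceil_lt_add_one (show 0 ≤ z ^ (4 * b + 7) by linarith only [hz7])
    rw [← hKdef] at h1
    have h2 : z ^ (4 * b + 8) = z ^ (4 * b + 7) * z := pow_succ z _
    have h3 : z ^ (4 * b + 7) * 2 ≤ z ^ (4 * b + 7) * z :=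
      mul_le_mul_of_nonneg_left g3 (by linarith only [hz7])
    linarith only [h1, h2, h3, hz7]
  have hKX : (K : ℝ) ≤ X ^ (1 / 8 : ℝ) := by
    refine hKle.trans ?_
    rw [hz, ← Real.rpow_natCast, ← Real.rpow_mul hX0.le]
    apply Real.rpow_le_rpow_of_exponent_le hX
    push_cast
    exact hc
  have hzK : z ≤ K := by
    refine le_trans ?_ hKge
    calc z = z ^ 1 := (pow_one z).symm
      _ ≤ z ^ (4 * b + 7) := pow_le_pow_right₀ hz1 (by omega)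
  have hK2r : (2 : ℝ) ≤ K := g3.trans hzK
  have hK2 : 2 ≤ K := by exact_mod_cast hK2r
  have hK0 : (0 : ℝ) < K := by linarith only [hK2r]
  have hKK : K * K ≤ N := by
    have h1 : (K : ℝ) * K ≤ N := by
      calc (K : ℝ) * K ≤ X ^ (1 / 8 : ℝ) * X ^ (1 / 8 : ℝ) :=
            mul_le_mul hKX hKX hK0.le (Real.rpow_nonneg hX0.le _)
        _ = X ^ (1 / 4 : ℝ) := by
          rw [← Real.rpow_add hX0]
          norm_num
        _ ≤ X ^ (1 / 2 : ℝ) := Real.rpow_le_rpow_of_exponent_le hX (by norm_num)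
        _ ≤ N := hN12
    exact_mod_cast h1
  have hKN : K ≤ N := (Nat.le_mul_of_pos_left K (by omega)).trans hKK
  have hlK : Real.log K ≤ (4 * (b : ℝ) + 8) * Real.log z := by
    have h1 := Real.log_le_log hK0 hKle
    rw [Real.log_pow] at h1
    push_cast at h1
    exact h1
  exact ⟨N, K, hNgt, hN12, hlN, hlN', hKge, hzK, hK2, hKK, hKN, hlK⟩

/-- The range of the correlations. -/
theorem VG_range {X ε c₀ : ℝ} {b N : ℕ} (hX : 1 ≤ X) (hε : 0 < ε)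
    (hc : c₀ * (4 * (b : ℝ) + 8) ≤ ε / 2) (hc₀ : 0 < c₀) (g6 : 3 ≤ X ^ (ε / 2))
    (hN : X ^ (1 / 2 + 2 * ε) - 1 < N) (D : ℕ) (hD1 : 1 ≤ D)
    (hDZ : (D : ℝ) ≤ (X ^ c₀) ^ (4 * b + 5)) : X ^ (1 / 2 + ε) ≤ ((N / D : ℕ) : ℝ) := by
  have hX0 : 0 < X := by linarith only [hX]
  have hD0 : (0 : ℝ) < D := by exact_mod_cast hD1
  have h1 : (N : ℝ) / D - 1 ≤ ((N / D : ℕ) : ℝ) := by
    have h2 := Nat.lt_floor_add_one ((N : ℝ) / D)
    rw [Nat.floor_div_eq_div] at h2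
    linarith only [h2]
  have hDε : (D : ℝ) ≤ X ^ (ε / 2) := by
    refine hDZ.trans ?_
    rw [← Real.rpow_natCast, ← Real.rpow_mul hX0.le]
    apply Real.rpow_le_rpow_of_exponent_le hX
    refine le_trans ?_ hc
    apply mul_le_mul_of_nonneg_left _ hc₀.le
    push_cast
    linarith only
  have hD1' : (1 : ℝ) ≤ D := by exact_mod_cast hD1
  have h5 : 1 ≤ X ^ (1 / 2 + ε) := Real.one_le_rpow hX (by positivity)
  have h3 : X ^ (1 / 2 + ε) + 2 ≤ (X ^ (1 / 2 + 2 * ε)) / D := by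
    rw [le_div_iff₀ hD0]
    have h4 : X ^ (1 / 2 + 2 * ε) = X ^ (1 / 2 + ε) * X ^ (ε / 2) * X ^ (ε / 2) := by
      rw [← Real.rpow_add hX0, ← Real.rpow_add hX0]
      congr 1
      ring
    rw [h4]
    have h6 : X ^ (1 / 2 + ε) + 2 ≤ X ^ (1 / 2 + ε) * X ^ (ε / 2) := by
      have h7 : X ^ (1 / 2 + ε) * 3 ≤ X ^ (1 / 2 + ε) * X ^ (ε / 2) :=
        mul_le_mul_of_nonneg_left g6 (by linarith only [h5])
      linarith only [h5, h7]
    exact mul_le_mul h6 hDε hD0.le (by positivity)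
  have h8 : (X ^ (1 / 2 + 2 * ε)) / D - 1 ≤ (N : ℝ) / D := by
    rw [sub_le_iff_le_add, div_le_iff₀ hD0, add_mul, div_mul_cancel₀ _ hD0.ne', one_mul]
    linarith only [hN, hD1']
  linarith only [h1, h3, h8]

end BG
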