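import Pool.Agent.W_aaa0df_v.VF
import Pool.Agent.W_aaa0df_v.VG0

/-!
# Theorem V, VG: the sharp number of exceptions
-/

set_option autoImplicit false

noncomputable section

open Finset MPaaa0df

namespace BG

/-- The correlations. -/
theorem VG_cor {F : Finset ℤ} {X ε c₀ δ X₁ : ℝ} {b N : ℕ} (hX : 1 ≤ X) (hε : 0 < ε)
    (hcorr : ∀ X : ℝ, X₁ ≤ X → ∀ d d' : ℤ,
      Twist.Fund d → Twist.Fund d' → d ≠ d' → |(d : ℝ)| ≤ X → |(d' : ℝ)| ≤ X → ∀ K : ℕ,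
      X ^ (1 / 2 + ε) ≤ K →
      |∑ k ∈ Icc 1 K, (chi d k : ℝ) * (chi d' k : ℝ)| ≤ K * X ^ (-δ)) (hX₁ : X₁ ≤ X)
    (hF : ∀ d ∈ F, Twist.Fund d ∧ |(d : ℝ)| ≤ X)
    (hc : c₀ * (4 * (b : ℝ) + 8) ≤ ε / 2) (hc₀ : 0 < c₀) (g3 : 2 ≤ X ^ c₀)
    (g6 : 3 ≤ X ^ (ε / 2)) (hN : X ^ (1 / 2 + 2 * ε) - 1 < N) :
    ∀ d ∈ F, ∀ d' ∈ F, d ≠ d' →
      |∑ n ∈ Icc 1 N, Pool.Agent.M58.tp' (X ^ c₀) b n * ((chi d n : ℝ) * (chi d' n : ℝ))| ≤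
        (X ^ c₀) ^ (4 * b + 5) * (N * X ^ (-δ)) := by
  intro d hd d' hd' hne
  refine Pool.Agent.M58.tp_corr (X ^ c₀) b N g3 (fun n => (chi d n : ℝ) * (chi d' n : ℝ)) ?_ ?_
    (X ^ (-δ)) (Real.rpow_nonneg (by linarith only [hX]) _) (X ^ (1 / 2 + ε)) ?_ ?_
  · intro k' n
    rw [chi_mul, chi_mul]
    push_cast
    ring
  · intro n
    rw [abs_mul]
    exact mul_le_one₀ (C3_abs d n) (abs_nonneg _) (C3_abs d' n)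
  · exact fun D hD1 hDZ => VG_range hX hε hc hc₀ g6 hN D hD1 hDZ
  · intro k' hk'
    exact hcorr X hX₁ d d' (hF d hd).1 (hF d' hd').1 hne (hF d hd).2 (hF d' hd').2 k' hk'

theorem VG_Exmem {F : Finset ℤ} {z y : ℝ} : ∀ p ∈ Exc F z y, p.Prime ∧ z ≤ p := by
  intro p hp
  unfold Exc at hp
  rw [mem_filter] at hp
  exact ⟨hp.2.1, hp.2.2.1⟩

/-- The exceptional primes. -/
theorem VG_Ex {F : Finset ℤ} {X z y κ t N W Q M : ℝ} (hX : 1 ≤ X) (hM : 0 ≤ M)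
    (hcard : (F.card : ℝ) = M) (hF : ∀ d ∈ F, Twist.Fund d ∧ |(d : ℝ)| ≤ X ∧
      (splitCount d y : ℝ) ≤ Q) (hκ : 0 < κ) (hN : 0 ≤ N) (hWt : N * t ≤ W) (hz : 0 < z)
    (hQ : 0 < Q) (hQz : Q * Q = z) (h1 : 2 * Real.log X ≤ Q) (h2 : 2 * M ≤ κ / 8 * t * Q) :
    ∑ p ∈ Exc F z y, N / p ≤ κ / 8 * W := by
  have hExc := card_Exc F X Q z y hX hF
  rw [hcard] at hExc
  have h3 : ∑ p ∈ Exc F z y, N / p ≤ ∑ _p ∈ Exc F z y, N / z :=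
    sum_le_sum fun p hp => div_le_div_of_nonneg_left hN hz (VG_Exmem p hp).2
  rw [sum_const, nsmul_eq_mul] at h3
  refine h3.trans (VG_err4 hκ hN hWt hz hQ hQz ?_ h2)
  refine hExc.trans ?_
  have h4 := mul_le_mul_of_nonneg_left h1 hM
  linarith only [h4]

/-- The contradiction for fixed large `X`. -/
theorem VG_fix {k : ℕ} (hk : 1 ≤ k) {θ κ ε δ C₁ C₂ C₃ C₄ cV CV c₀ X X₁ : ℝ} {b : ℕ}
    {F : Finset ℤ} (hcard : F.card = 2 * k + 1) (hb1 : 1 ≤ b)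
    (hθ0 : 0 < θ) (hθ2 : θ ≤ 2 / 5) (hκ : 0 < κ) (hε : 0 < ε) (hc₀ : 0 < c₀) (hcV : 0 < cV)
    (hC₁ : 1 ≤ C₁) (hC₂ : 1 ≤ C₂) (hC₃ : 1 ≤ C₃) (hC₄ : 0 < C₄)
    (hlu : Real.log ((1 / 2 + 2 * ε) / θ) ≤ 1 - 1 / (2 * (k : ℝ) + 1 + 1) - 16 * κ)
    (hb : 4 * (C₁ + C₂ + C₃) * Real.exp (-(b : ℝ)) ≤ κ)
    (hμ1 : c₀ * (4 * (b : ℝ) + 8) ≤ ε / 2) (hμ2 : c₀ * (4 * (b : ℝ) + 8) ≤ δ / 2)
    (hμ3 : c₀ * (4 * (b : ℝ) + 8) ≤ 1 / 8)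
    (hμ4 : c₀ * (4 * (b : ℝ) + 8) ≤ κ * cV / (2 * C₄))
    (hcorr : ∀ X : ℝ, X₁ ≤ X → ∀ d d' : ℤ,
      Twist.Fund d → Twist.Fund d' → d ≠ d' → |(d : ℝ)| ≤ X → |(d' : ℝ)| ≤ X → ∀ K : ℕ,
      X ^ (1 / 2 + ε) ≤ K →
      |∑ k ∈ Icc 1 K, (chi d k : ℝ) * (chi d' k : ℝ)| ≤ K * X ^ (-δ))
    (hup : ∀ (z : ℝ) (b N : ℕ), 2 ≤ z → 1 ≤ b →
      ∑ n ∈ Icc 1 N, Pool.Agent.M58.rh z n ≤ ∑ n ∈ Icc 1 N, Pool.Agent.M58.tp' z b n ∧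
      ∑ n ∈ Icc 1 N, Pool.Agent.M58.tp' z b n ≤
        N * (Pool.Agent.Wb58c63.VP (fun p => 1 / (p : ℝ)) (Pool.Agent.Wb58c63.PI 0 z) *
          (1 + C₁ * Real.exp (-b))) + z ^ (4 * b + 5))
    (hlow : ∀ (z : ℝ) (b N : ℕ), 2 ≤ z → 1 ≤ b →
      N * (Pool.Agent.Wb58c63.VP (fun p => 1 / (p : ℝ)) (Pool.Agent.Wb58c63.PI 0 z) *
        (1 - C₂ * Real.exp (-b))) - C₂ * Real.log z * z ^ (4 * b + 5) ≤
          ∑ n ∈ Icc 1 N, Pool.Agent.M58.rh z n)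
    (hfar : ∀ (z y : ℝ) (b K N : ℕ), 2 ≤ z → 1 ≤ b → 2 ≤ y → y ≤ N → 2 ≤ K → K ≤ N →
      ∑ p ∈ (Icc 1 (N / K)).filter (fun p : ℕ => p.Prime ∧ y ≤ p),
        ∑ n ∈ Icc 1 (N / p), Pool.Agent.M58.rh z n ≤
      N * (Pool.Agent.Wb58c63.VP (fun p => 1 / (p : ℝ)) (Pool.Agent.Wb58c63.PI 0 z) *
        (1 + C₃ * Real.exp (-b)) * (Real.log (Real.log N / Real.log y) + C₃ / Real.log y)) +
        N / K * z ^ (4 * b + 5))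
    (hnear : ∀ (z : ℝ) (K N : ℕ), 2 ≤ z → z ≤ K → K * K ≤ N →
      ∑ p ∈ (Ioc (N / K) N).filter Nat.Prime, ∑ n ∈ Icc 1 (N / p), Pool.Agent.M58.rh z n ≤
      C₄ * (N / Real.log N * (Real.log K / Real.log z)))
    (hVP : ∀ z : ℝ, 2 ≤ z → cV / Real.log z ≤
      Pool.Agent.Wb58c63.VP (fun p => 1 / (p : ℝ)) (Pool.Agent.Wb58c63.PI 0 z) ∧
      Pool.Agent.Wb58c63.VP (fun p => 1 / (p : ℝ)) (Pool.Agent.Wb58c63.PI 0 z) ≤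
        CV / Real.log z)
    (g1 : X₁ ≤ X) (g2 : 1 ≤ X) (g3 : 2 ≤ X ^ c₀) (g4 : 2 ≤ X ^ θ) (g5 : 2 ≤ X ^ (2 * ε))
    (g6 : 3 ≤ X ^ (ε / 2))
    (g8 : 8 * c₀ / (κ * cV) * Real.log X * (C₂ * (c₀ * Real.log X)) ≤ X ^ (3 / 8 : ℝ))
    (g9 : 8 * c₀ / (κ * cV) * Real.log X * 1 ≤ X ^ (3 / 8 : ℝ))
    (g10 : 8 * c₀ / (κ * cV) * Real.log X * 1 ≤ X ^ (2 * c₀))
    (g11 : 2 * Real.log X ≤ X ^ (c₀ / 2))
    (g12 : 8 * c₀ / (κ * cV) * Real.log X * (2 * (2 * (k : ℝ) + 1)) ≤ X ^ (c₀ / 2))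
    (g13 : 8 * c₀ / (κ * cV) * Real.log X * 1 ≤ X ^ (δ / 2))
    (g14 : 8 * C₃ / (κ * θ) + 1 ≤ Real.log X)
    (hF : ∀ d ∈ F, Twist.Fund d ∧ |(d : ℝ)| ≤ X ∧
      (splitCount d (X ^ θ) : ℝ) < X ^ (c₀ / 2)) : False := by
  have hX0 : 0 < X := by linarith only [g2]
  obtain ⟨N, K, hNgt, hN12, hlN, hlN', hKge, hzK, hK2, hKK, hKN, hlK⟩ :=
    VG_sizes X ε c₀ b g2 hc₀ hμ3 g3 g5
  have hcor := VG_cor g2 hε hcorr g1 (fun d hd => ⟨(hF d hd).1, (hF d hd).2.1⟩) hμ1 hc₀ g3 g6 hNgt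
  have hz1 : (X ^ c₀) ^ (4 * b + 5) = X ^ (c₀ * (4 * b + 5)) := by
    rw [← Real.rpow_natCast, ← Real.rpow_mul hX0.le]
    push_cast
    rfl
  have hz2 : (X ^ c₀) ^ (4 * b + 7) = X ^ (c₀ * (4 * b + 5)) * X ^ (2 * c₀) := by
    rw [← Real.rpow_natCast, ← Real.rpow_mul hX0.le, ← Real.rpow_add hX0]
    congr 1
    push_cast
    ring
  have hle5 : c₀ * (4 * (b : ℝ) + 5) ≤ c₀ * (4 * (b : ℝ) + 8) :=
    mul_le_mul_of_nonneg_left (by linarith only) hc₀.le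
  have hZ8 : (X ^ c₀) ^ (4 * b + 5) ≤ X ^ (1 / 8 : ℝ) := by
    rw [hz1]
    exact Real.rpow_le_rpow_of_exponent_le g2 (hle5.trans hμ3)
  have hZδ : (X ^ c₀) ^ (4 * b + 5) ≤ X ^ (δ / 2) := by
    rw [hz1]
    exact Real.rpow_le_rpow_of_exponent_le g2 (hle5.trans hμ2)
  have hZK : (X ^ c₀) ^ (4 * b + 5) * X ^ (2 * c₀) ≤ K := by
    rw [hz1, ← hz2]
    exact hKge
  have hyN : X ^ θ ≤ N :=
    (Real.rpow_le_rpow_of_exponent_le g2 (by linarith only [hθ2])).trans hN12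
  have hX48 : X ^ (1 / 8 : ℝ) * X ^ (3 / 8 : ℝ) ≤ N := by
    rw [← Real.rpow_add hX0]
    norm_num
    exact hN12
  have hDD : X ^ (δ / 2) * X ^ (-δ) * X ^ (δ / 2) = 1 := by
    rw [← Real.rpow_add hX0, ← Real.rpow_add hX0]
    have : δ / 2 + -δ + δ / 2 = 0 := by ring
    rw [this, Real.rpow_zero]
  have hQz : X ^ (c₀ / 2) * X ^ (c₀ / 2) = X ^ c₀ := by
    rw [← Real.rpow_add hX0]
    congr 1
    ring
  have hQ0 : 0 < X ^ (c₀ / 2) := Real.rpow_pos_of_pos hX0 _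
  have hD0 : 0 < X ^ (δ / 2) := Real.rpow_pos_of_pos hX0 _
  have hD0' : 0 < X ^ (-δ) := Real.rpow_pos_of_pos hX0 _
  have hB0' : 0 < X ^ (3 / 8 : ℝ) := Real.rpow_pos_of_pos hX0 _
  have hlz : Real.log (X ^ c₀) = c₀ * Real.log X := Real.log_rpow hX0 _
  have hly : Real.log (X ^ θ) = θ * Real.log X := Real.log_rpow hX0 _
  have hX1 : 1 ≤ X ^ (1 / 2 : ℝ) := Real.one_le_rpow g2 (by norm_num)
  -- names
  generalize X ^ (1 / 8 : ℝ) = A8 at hZ8 hX48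
  generalize X ^ (3 / 8 : ℝ) = B38 at g8 g9 hX48 hB0'
  generalize X ^ (2 * c₀) = P2 at g10 hZK
  generalize X ^ (δ / 2) = Dδ at g13 hZδ hDD hD0
  generalize X ^ (-δ) = Dδ' at hcor hDD hD0'
  generalize X ^ (c₀ / 2) = Q at g11 g12 hF hQz hQ0
  generalize X ^ c₀ = z at g3 hKge hzK hlK hcor hz1 hz2 hZ8 hZδ hZK hQz hlz
  generalize X ^ θ = y at g4 hF hyN hly
  generalize X ^ (1 / 2 : ℝ) = X2 at hN12 hX1
  clear hz1 hz2 hKge hNgt g5 g6 hle5 hμ1 hμ2 hμ3 hcorr g1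
  obtain ⟨ℓ, hℓ⟩ : ∃ ℓ, ℓ = Real.log X := ⟨_, rfl⟩
  have hexc : ∀ d ∈ F, Twist.Fund d ∧ |(d : ℝ)| ≤ X ∧ (splitCount d y : ℝ) ≤ Q :=
    fun d hd => ⟨(hF d hd).1, (hF d hd).2.1, (hF d hd).2.2.le⟩
  have hRc := card_Rc F X z N g2 g3 (fun d hd => ⟨(hF d hd).1, (hF d hd).2.1⟩)
  have hN0 : (0 : ℝ) < N := by linarith only [hN12, hX1]
  have hC3κ : 0 < 8 * C₃ / (κ * θ) := by positivity
  have hcard' : (F.card : ℝ) = 2 * (k : ℝ) + 1 := by rw [hcard]; push_cast; rfl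
  have hk1 : (1 : ℝ) ≤ k := by exact_mod_cast hk
  have hz0 : 0 < z := by linarith only [g3]
  have hK0 : (0 : ℝ) < K := by linarith only [g3, hzK]
  have hgood := Pool.Agent.M58.good_lower z y N (Exc F z y) (fun p hp => (VG_Exmem p hp).1)
  have hG : ∑ n ∈ Icc 1 N, Pool.Agent.M58.rh z n -
      ∑ p ∈ (Icc 1 N).filter (fun p : ℕ => p.Prime ∧ y ≤ p),
        ∑ n ∈ Icc 1 (N / p), Pool.Agent.M58.rh z n -
      ∑ p ∈ Exc F z y, (N : ℝ) / p ≤ ((Gd F z y N).card : ℝ) := hgood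
  have hsplit := VG_split z y N K
  obtain ⟨-, hTp⟩ := hup z b N g3 hb1
  have hR := hlow z b N g3 hb1
  have hFar := hfar z y b K N g3 hb1 g4 hyN hK2 hKN
  have hNear := hnear z K N g3 hzK hKK
  obtain ⟨hV, -⟩ := hVP z g3
  clear hup hlow hfar hnear hVP hgood
  obtain ⟨M, hM⟩ : ∃ M : ℝ, M = 2 * (k : ℝ) + 1 := ⟨_, rfl⟩
  rw [← hℓ] at hlN hlN' hlz hly g8 g9 g10 g11 g12 g13 g14 hRc
  rw [← hM] at hcard' hlu g12
  rw [hlz] at hV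
  have hM3 : 3 ≤ M := by linarith only [hM, hk1]
  have hℓ0 : 0 < ℓ := by linarith only [g14, hC3κ]
  have hlz0 : 0 < Real.log z := by rw [hlz]; positivity
  have hly0 : 0 < Real.log y := by rw [hly]; positivity
  obtain ⟨t, ht⟩ : ∃ t, t = cV / (c₀ * ℓ) := ⟨_, rfl⟩
  rw [← ht] at hV
  have ht0 : 0 < t := by rw [ht]; positivity
  generalize Pool.Agent.Wb58c63.VP (fun p => 1 / (p : ℝ)) (Pool.Agent.Wb58c63.PI 0 z) = V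
    at hV hTp hR hFar
  have hV0 : 0 < V := by linarith only [hV, ht0]
  obtain ⟨W, hW⟩ : ∃ W : ℝ, W = N * V := ⟨_, rfl⟩
  have hW0 : 0 < W := by rw [hW]; positivity
  have hWt : N * t ≤ W := by rw [hW]; exact mul_le_mul_of_nonneg_left hV hN0.le
  have hZ0 : 0 ≤ z ^ (4 * b + 5) := pow_nonneg hz0.le _
  have q8 := VG_q hκ hcV hc₀ hℓ0 ht g8
  have q9 := VG_q hκ hcV hc₀ hℓ0 ht g9
  have q10 := VG_q hκ hcV hc₀ hℓ0 ht g10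
  have q12 := VG_q hκ hcV hc₀ hℓ0 ht g12
  have q13 := VG_q hκ hcV hc₀ hℓ0 ht g13
  clear g8 g9 g10 g12 g13
  have e1 : C₂ * Real.log z * z ^ (4 * b + 5) ≤ κ / 8 * W := by
    rw [hlz]
    exact VG_err1 hκ ht0 hWt hZ0 hB0' q8 hZ8 hX48
  have e5 : z ^ (4 * b + 5) ≤ κ / 8 * W := by
    have := VG_err1 hκ ht0 hWt hZ0 hB0' q9 hZ8 hX48
    rwa [one_mul] at this
  have e2 := VG_err2 hκ ht0 hN0.le hWt hZ0 hK0 q10 hZK
  have e3 := VG_err3 hκ hN0.le hWt hC₄ hlz0 (Real.log_nonneg (by linarith only [g3, hzK])) hlK hℓ0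
    hlN hc₀ (show (0 : ℝ) < 4 * (b : ℝ) + 8 by positivity) hμ4 ht
  have e6 := VG_err6 hκ hN0.le hWt hD0 hD0' hDD hZδ q13
  have e4 := VG_Ex (y := y) g2 (by linarith only [hM3]) hcard' hexc hκ hN0.le hWt hz0 hQ0 hQz
    (hℓ ▸ g11) q12
  have e9 : M * (2 * ℓ) * ((N : ℝ) / z) ≤ κ / 8 * W := by
    refine VG_err4 hκ hN0.le hWt hz0 hQ0 hQz ?_ q12
    have h1 := mul_le_mul_of_nonneg_left g11 (show (0 : ℝ) ≤ M by linarith only [hM3])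
    have h2 : 0 ≤ M * Q := mul_nonneg (by linarith only [hM3]) hQ0.le
    linarith only [h1, h2]
  have hbes := bessel_odd F ⟨k, hcard⟩ z y g3 b N (z ^ (4 * b + 5) * (N * Dδ'))
    (mul_nonneg hZ0 (mul_nonneg hN0.le hD0'.le)) hcor
  rw [hcard'] at hbes hRc
  have e7 : C₃ / Real.log y ≤ κ / 8 := by
    rw [hly, div_le_iff₀ (by positivity)]
    have h1 : 8 * C₃ / (κ * θ) ≤ ℓ := by linarith only [g14]
    rw [div_le_iff₀ (by positivity)] at h1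
    linarith only [h1]
  have hllu : Real.log (Real.log N / Real.log y) ≤ Real.log ((1 / 2 + 2 * ε) / θ) := by
    have hlN0 : 0 < Real.log N := by linarith only [hlN, hℓ0]
    apply Real.log_le_log (by positivity)
    rw [div_le_iff₀ hly0, hly]
    have h1 : (1 / 2 + 2 * ε) / θ * (θ * ℓ) = (1 / 2 + 2 * ε) * ℓ := by field_simp
    rw [h1]
    exact hlN'
  have he0 : 0 < Real.exp (-(b : ℝ)) := Real.exp_pos _
  refine VG_alg (M := M) (W := W) (C1 := C₁) (C2 := C₂) (C3 := C₃) (e := Real.exp (-(b : ℝ)))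
    (κ := κ) (lu := Real.log ((1 / 2 + 2 * ε) / θ)) hM3 hW0 hκ he0.le
    (by linarith only [hC₁]) (by linarith only [hC₂])
    (by linarith only [hC₃]) hb hbes hRc e9 ?_ e6 (R := ∑ n ∈ Icc 1 N, Pool.Agent.M58.rh z n)
    (Far := ∑ p ∈ (Icc 1 (N / K)).filter (fun p : ℕ => p.Prime ∧ y ≤ p),
        ∑ n ∈ Icc 1 (N / p), Pool.Agent.M58.rh z n)
    (Near := ∑ p ∈ (Ioc (N / K) N).filter Nat.Prime,
      ∑ n ∈ Icc 1 (N / p), Pool.Agent.M58.rh z n)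
    (Ex := ∑ p ∈ Exc F z y, (N : ℝ) / p) ?_ ?_ ?_ (hNear.trans e3) e4 hlu
  · refine hTp.trans ?_
    have h1 : (N : ℝ) * (V * (1 + C₁ * Real.exp (-(b : ℝ)))) =
        W * (1 + C₁ * Real.exp (-(b : ℝ))) := by rw [hW]; ring
    rw [h1]
    linarith only [e5]
  · linarith only [hG, hsplit]
  · refine le_trans ?_ hR
    have h1 : (N : ℝ) * (V * (1 - C₂ * Real.exp (-(b : ℝ)))) =
        W * (1 - C₂ * Real.exp (-(b : ℝ))) := by rw [hW]; ring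
    rw [h1]
    linarith only [e1]
  · refine hFar.trans (add_le_add ?_ e2)
    have h2 : 0 ≤ 1 + C₃ * Real.exp (-(b : ℝ)) := by positivity
    have h3 : (1 + C₃ * Real.exp (-(b : ℝ))) *
        (Real.log (Real.log N / Real.log y) + C₃ / Real.log y) ≤
        (1 + C₃ * Real.exp (-(b : ℝ))) * (Real.log ((1 / 2 + 2 * ε) / θ) + κ / 8) :=
      mul_le_mul_of_nonneg_left (by linarith only [hllu, e7]) h2
    calc (N : ℝ) * (V * (1 + C₃ * Real.exp (-(b : ℝ))) *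
        (Real.log (Real.log N / Real.log y) + C₃ / Real.log y)) =
        W * ((1 + C₃ * Real.exp (-(b : ℝ))) *
          (Real.log (Real.log N / Real.log y) + C₃ / Real.log y)) := by rw [hW]; ring
      _ ≤ _ := mul_le_mul_of_nonneg_left h3 hW0.le

/-- The case `θ ≤ 2/5`. -/
theorem VG_main (k : ℕ) (hk : 1 ≤ k) (θ : ℝ)
    (hθ : Real.exp (-((2 * (k : ℝ) + 1) / (2 * k + 2))) / 2 < θ) (hθ2 : θ ≤ 2 / 5) :
    ∃ c X₀ : ℝ, 0 < c ∧ ∀ X : ℝ, X₀ ≤ X → 1 ≤ X ∧ ∀ F : Finset ℤ,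
      (∀ d ∈ F, Twist.Fund d ∧ |(d : ℝ)| ≤ X ∧ (splitCount d (X ^ θ) : ℝ) < X ^ c) →
      F.card = 2 * k + 1 → False := by
  obtain ⟨hθ0, κ, hκ, hlu⟩ := VG_par k θ hθ hθ2
  have hε : 0 < κ / 4 := by linarith only [hκ]
  generalize κ / 4 = ε at hlu hε
  obtain ⟨δ, X₁, hδ, hcorr⟩ := corr ε hε
  obtain ⟨C₁, hC₁, hup⟩ := Pool.Agent.M58.rough_upper
  obtain ⟨C₂, hC₂, hlow⟩ := Pool.Agent.M58.rough_lower
  obtain ⟨C₄, hC₄, hnear⟩ := Pool.Agent.M58.near_part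
  obtain ⟨C₃, hC₃, hfar⟩ := Pool.Agent.M58.far_part
  obtain ⟨cV, CV, hcV, -, hVP⟩ := Pool.Agent.M58.VP_inv
  obtain ⟨b, hb1, hb⟩ := VG_b (C₁ + C₂ + C₃) κ (by linarith only [hC₁, hC₂, hC₃]) hκ
  obtain ⟨c₀, hc₀, hμ1, hμ2, hμ3, hμ4⟩ := VG_c0 (ε / 2) (δ / 2) (κ * cV / (2 * C₄))
    (4 * (b : ℝ) + 8) (by positivity) (by positivity) (by positivity) (by positivity)
  obtain ⟨A, hA⟩ : ∃ A : ℝ, A = 8 * c₀ / (κ * cV) := ⟨_, rfl⟩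
  have hA0 : 0 ≤ A := by rw [hA]; positivity
  have hC20 : 0 ≤ C₂ := by linarith only [hC₂]
  have hk0 : (0 : ℝ) ≤ 2 * (2 * (k : ℝ) + 1) := by positivity
  have hev : ∀ᶠ X : ℝ in Filter.atTop, X₁ ≤ X ∧ 1 ≤ X ∧ 2 ≤ X ^ c₀ ∧ 2 ≤ X ^ θ ∧
      2 ≤ X ^ (2 * ε) ∧ 3 ≤ X ^ (ε / 2) ∧
      A * C₂ * c₀ * Real.log X ^ 2 ≤ X ^ (3 / 8 : ℝ) ∧
      A * Real.log X ^ 1 ≤ X ^ (3 / 8 : ℝ) ∧ A * Real.log X ^ 1 ≤ X ^ (2 * c₀) ∧
      2 * Real.log X ^ 1 ≤ X ^ (c₀ / 2) ∧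
      A * (2 * (2 * (k : ℝ) + 1)) * Real.log X ^ 1 ≤ X ^ (c₀ / 2) ∧
      A * Real.log X ^ 1 ≤ X ^ (δ / 2) ∧
      8 * C₃ / (κ * θ) + 1 ≤ Real.log X := by
    filter_upwards [Filter.eventually_ge_atTop X₁, Filter.eventually_ge_atTop (1 : ℝ),
      (tendsto_rpow_atTop hc₀).eventually_ge_atTop 2,
      (tendsto_rpow_atTop hθ0).eventually_ge_atTop 2,
      (tendsto_rpow_atTop (show 0 < 2 * ε by linarith only [hε])).eventually_ge_atTop 2,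
      (tendsto_rpow_atTop (show 0 < ε / 2 by linarith only [hε])).eventually_ge_atTop 3,
      VG_ev 2 (A * C₂ * c₀) (3 / 8) (mul_nonneg (mul_nonneg hA0 hC20) hc₀.le) (by norm_num),
      VG_ev 1 A (3 / 8) hA0 (by norm_num),
      VG_ev 1 A (2 * c₀) hA0 (by linarith only [hc₀]),
      VG_ev 1 2 (c₀ / 2) (by norm_num) (by linarith only [hc₀]),
      VG_ev 1 (A * (2 * (2 * (k : ℝ) + 1))) (c₀ / 2) (mul_nonneg hA0 hk0)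
        (by linarith only [hc₀]),
      VG_ev 1 A (δ / 2) hA0 (by linarith only [hδ]),
      Real.tendsto_log_atTop.eventually_ge_atTop (8 * C₃ / (κ * θ) + 1)] with X
      h1 h2 h3 h4 h5 h6 h8 h9 h10 h11 h12 h13 h14
    exact ⟨h1, h2, h3, h4, h5, h6, h8, h9, h10, h11, h12, h13, h14⟩
  obtain ⟨X₀, hX₀⟩ := Filter.eventually_atTop.1 hev
  refine ⟨c₀ / 2, X₀, by linarith only [hc₀], fun X hX =>
    ⟨(hX₀ X hX).2.1, fun F hF hcard => ?_⟩⟩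
  obtain ⟨g1, g2, g3, g4, g5, g6, g8, g9, g10, g11, g12, g13, g14⟩ := hX₀ X hX
  rw [pow_one] at g9 g10 g11 g12 g13
  rw [hA] at g8 g9 g10 g12 g13
  refine VG_fix hk hcard hb1 hθ0 hθ2 hκ hε hc₀ hcV hC₁ hC₂ hC₃ hC₄ hlu hb hμ1 hμ2 hμ3 hμ4 hcorr
    hup hlow hfar hnear hVP g1 g2 g3 g4 g5 g6 ?_ ?_ ?_ g11 ?_ ?_ g14 hF
  · refine le_trans (le_of_eq ?_) g8
    ring
  · rw [mul_one]; exact g9
  · rw [mul_one]; exact g10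
  · refine le_trans (le_of_eq ?_) g12
    ring
  · rw [mul_one]; exact g13

/-- THEOREM V*. For `k ≥ 1` and `θ > ½ e^(-(2k+1)/(2k+2))` there are `c > 0`, `X₀` such that for `X ≥ X₀` at most
`2k` fundamental discriminants `d`, `|d| ≤ X`, have fewer than `X^c` split primes `p < X^θ`.
(`k = 1`: at most two exceptions for `θ > ½ e^(-3/4) = 0.2362 < 1/4`.)

PROOF. The proof of `VE_main`/`few_exceptions` (VE) with `m = 2k`, `M = 2k + 1` (odd), `Lm` replaced by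
`1 - 1/(M+1) = (2k+1)/(2k+2)`, `bessel` replaced by `bessel_odd` and one more small term: `card_Rc` gives
`|Rc| ≥ R - M (2 log X)(N/z)`, and `M (2 log X) (N/z) ≤ (κ/8) W` for large `X`. The final
inequality: `G ≥ W g`, `g ≥ 1 - lu - small`, `|Rc| ≥ W (1 - C2 e) - κ/4 W`,
`(M² - 1) W g + W (1 - C2 e - κ/4) ≤ M W (1 + C1 e + κ/8) + M² (κ/8) W`; with
`small ≤ 2κ` (as in `VE_alg`) and after division by `W (M² - 1)` (`M ≥ 3`, `M - 1 ≥ 1`):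
`1 - lu ≤ (M - 1)/(M² - 1) + O(κ) = 1/(M+1) + O(κ)`. Choose `κ` as a small enough multiple
of `1 - 1/(M+1) - log(1/(2θ)) > 0`, e.g. with divisor `20` in place of `5` (so that
`lu ≤ 1 - 1/(M+1) - 16 κ` or so), everything else is unchanged. -/
theorem few_exceptions_odd (k : ℕ) (hk : 1 ≤ k) (θ : ℝ)
    (hθ : Real.exp (-((2 * (k : ℝ) + 1) / (2 * k + 2))) / 2 < θ) :
    ∃ c X₀ : ℝ, 0 < c ∧ ∀ X : ℝ, X₀ ≤ X → ∀ F : Finset ℤ,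
      (∀ d ∈ F, Twist.Fund d ∧ |(d : ℝ)| ≤ X ∧ (splitCount d (X ^ θ) : ℝ) < X ^ c) →
      F.card ≤ 2 * k := by
  have h25 : Real.exp (-((2 * (k : ℝ) + 1) / (2 * k + 2))) / 2 < 2 / 5 := by
    have hk1 : (1 : ℝ) ≤ k := by exact_mod_cast hk
    have h1 : (1 : ℝ) / 2 ≤ (2 * (k : ℝ) + 1) / (2 * k + 2) := by
      rw [div_le_div_iff₀ (by norm_num) (by positivity)]
      linarith
    have h2 : Real.exp (-((2 * (k : ℝ) + 1) / (2 * k + 2))) ≤ Real.exp (-(1 / 2 : ℝ)) :=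
      Real.exp_le_exp.2 (by linarith)
    have h3 : Real.exp (-(1 / 2 : ℝ)) ≤ 2 / 3 := by
      rw [Real.exp_neg, inv_le_comm₀ (Real.exp_pos _) (by norm_num)]
      have := Real.add_one_le_exp (1 / 2 : ℝ)
      norm_num at this ⊢
      linarith
    linarith
  obtain ⟨c, X₀, hc, h⟩ := VG_main k hk (min θ (2 / 5)) (lt_min hθ h25) (min_le_right _ _)
  refine ⟨c, X₀, hc, fun X hX F hF => ?_⟩
  obtain ⟨hX1, h2⟩ := h X hX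
  by_contra hlt
  rw [not_le] at hlt
  obtain ⟨F', hF', hcard⟩ := Finset.exists_subset_card_eq (show 2 * k + 1 ≤ F.card from hlt)
  refine h2 F' (fun d hd => ?_) hcard
  obtain ⟨a1, a2, a3⟩ := hF d (hF' hd)
  refine ⟨a1, a2, lt_of_le_of_lt ?_ a3⟩
  exact_mod_cast VG_mono d _ _ (Real.rpow_le_rpow_of_exponent_le hX1 (min_le_left _ _))

end BG
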